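import Pool.Agent.MP_b2c033_nt.H95.Spec

/-! Removal of common zeros. -/

namespace Pool.Agent.MP_b2c033_nt.H95

open Metric Polynomial Finset Filter Topology

theorem bx_div {U : Set ℂ} (hU : IsOpen U) {c : ℂ} (hc : c ∈ U) {f : ℂ → ℂ}
    (hf : DifferentiableOn ℂ f U) (h0 : f c = 0) :
    ∃ f₁, DifferentiableOn ℂ f₁ U ∧ ∀ q, f q = (q - c) * f₁ q :=
  ⟨dslope f c, (Complex.differentiableOn_dslope (hU.mem_nhds hc)).2 hf, fun q => by
    rw [← smul_eq_mul, sub_smul_dslope, h0, sub_zero]⟩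

theorem bx_cancel {U : Set ℂ} (hU : IsOpen U) {c : ℂ} {F G : ℂ → ℂ} (hF : ContinuousOn F U)
    (hG : ContinuousOn G U) (j : ℕ) (h : ∀ q ∈ U, (q - c) ^ j * F q = (q - c) ^ j * G q) :
    ∀ q ∈ U, F q = G q := fun q hq =>
  have n := hU.mem_nhds hq
  have : (𝓝[{c}ᶜ] q).NeBot := mem_closure_iff_nhdsWithin_neBot.1 (dense_compl_singleton c q)
  tendsto_nhds_unique ((hF.continuousAt n).mono_left nhdsWithin_le_nhds)
    (((hG.continuousAt n).mono_left (nhdsWithin_le_nhds (s := {c}ᶜ))).congr' (by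
      filter_upwards [nhdsWithin_le_nhds n, self_mem_nhdsWithin] with x hx hx'
      exact (mul_left_cancel₀ (pow_ne_zero j (sub_ne_zero.2 hx')) (h x hx)).symm))

theorem bx_sqrt {U : Set ℂ} (hU : IsOpen U) {c : ℂ} (hc : c ∈ U) {F : ℂ → ℂ}
    (hF : ContinuousOn F U) (k : ℕ) : ∀ b : ℂ → ℂ, DifferentiableOn ℂ b U →
    (∀ q ∈ U, b q ^ 2 = (q - c) ^ (2 * k) * F q) →
    ∃ b₁, DifferentiableOn ℂ b₁ U ∧ ∀ q ∈ U, b q = (q - c) ^ k * b₁ q ∧ b₁ q ^ 2 = F q := by
  induction k with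
  | zero => exact fun b hb h => ⟨b, hb, fun q hq => by simpa using h q hq⟩
  | succ k ih =>
    intro b hb h
    obtain ⟨b₀, d, e⟩ := bx_div hU hc hb (by simpa using h c hc)
    obtain ⟨b₁, d₁, e₁⟩ := ih b₀ d (bx_cancel hU (c := c) (d.continuousOn.pow 2)
      (ContinuousOn.mul (by fun_prop) hF) 2 fun q hq => by
        rw [← mul_pow, ← e, h q hq]
        ring)
    exact ⟨b₁, d₁, fun q hq => ⟨by rw [e, (e₁ q hq).1]; ring, (e₁ q hq).2⟩⟩

theorem bx_fac {U : Set ℂ} (hU : IsOpen U) {c : ℂ} (hc : c ∈ U) {f : ℂ → ℂ}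
    (hf : DifferentiableOn ℂ f U) (h0 : ¬∀ᶠ q in 𝓝 c, f q = 0) :
    ∃ (k : ℕ) (f₁ : ℂ → ℂ), DifferentiableOn ℂ f₁ U ∧ f₁ c ≠ 0 ∧
      ∀ q, f q = (q - c) ^ k * f₁ q := by
  classical
  obtain ⟨k, g, g1, g0, e⟩ :=
    (hf.analyticAt (hU.mem_nhds hc)).exists_eventuallyEq_pow_smul_nonzero_iff.2 h0
  refine ⟨k, Function.update (fun q => f q / (q - c) ^ k) c (g c), ?_, by simpa using g0,
    fun q => ?_⟩
  · refine (Complex.differentiableOn_compl_singleton_and_continuousAt_iff (hU.mem_nhds hc)).1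
      ⟨((hf.mono Set.sdiff_subset).div (by fun_prop) fun q hq =>
        pow_ne_zero _ (sub_ne_zero.2 hq.2)).congr fun q hq => Function.update_of_ne hq.2 _ _,
      continuousAt_update_same.2 ((g1.continuousAt.mono_left nhdsWithin_le_nhds).congr' ?_)⟩
    filter_upwards [nhdsWithin_le_nhds e, self_mem_nhdsWithin] with q h1 h2
    rw [h1, smul_eq_mul, mul_div_cancel_left₀ _ (pow_ne_zero _ (sub_ne_zero.2 h2))]
  · by_cases h : q = c
    · subst h
      rw [Function.update_self]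
      exact e.self_of_nhds
    · rw [Function.update_of_ne h, mul_div_cancel₀ _ (pow_ne_zero _ (sub_ne_zero.2 h))]

theorem bx_poly {e : ℂ → ℂ} (he : DifferentiableOn ℂ e (ball 0 1))
    (h0 : ∃ q ∈ ball (0 : ℂ) 1, e q ≠ 0) (Z : Finset ℂ) (hZ : ∀ q ∈ Z, q ∈ ball (0 : ℂ) 1) :
    ∃ (P : ℂ[X]) (ε : ℂ → ℂ), P ≠ 0 ∧ DifferentiableOn ℂ ε (ball 0 1) ∧
      (∀ q, e q = P.eval q * ε q) ∧ ∀ q ∈ Z, ε q ≠ 0 := by
  classical
  induction Z using Finset.induction_on with
  | empty => exact ⟨1, e, one_ne_zero, he, by simp, by simp⟩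
  | insert c Z _ ih =>
    obtain ⟨P, ε, P0, d, e1, n⟩ := ih fun q hq => hZ q (mem_insert_of_mem hq)
    have hc := hZ c (mem_insert_self _ _)
    obtain ⟨k, ε₁, d₁, n₁, e₁⟩ := bx_fac isOpen_ball hc d fun h => by
      obtain ⟨q, hq, n⟩ := h0
      have := (d.analyticOnNhd isOpen_ball).eqOn_zero_of_preconnected_of_eventuallyEq_zero
        (convex_ball _ _).isPreconnected hc h hq
      exact n (by rw [e1, this, Pi.zero_apply, mul_zero])
    refine ⟨P * (X - C c) ^ k, ε₁, mul_ne_zero P0 (pow_ne_zero _ (X_sub_C_ne_zero c)), d₁,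
      fun q => by simp [e1, e₁ q, mul_assoc], fun q hq => ?_⟩
    rcases mem_insert.1 hq with rfl | hq
    · exact n₁
    · exact right_ne_zero_of_mul (e₁ q ▸ n q hq)

theorem b1 : S_B1 := by
  intro h g s a e b R hR hs ha he hb h0 hq
  have sub : closedBall (0 : ℂ) R ⊆ ball 0 1 := closedBall_subset_ball hR
  have fin := (isCompact_closedBall (0 : ℂ) R).finite_sdiff_of_mem_codiscreteWithin
    (codiscreteWithin_mono sub (((he.analyticOnNhd
      isOpen_ball).eqOn_zero_or_eventually_ne_zero_of_preconnected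
        (convex_ball _ _).isPreconnected).resolve_left fun k => let ⟨_, h1, h2⟩ := h0; h2 (k h1)))
  obtain ⟨P, ε, P0, d, e1, n⟩ := bx_poly he h0 fin.toFinset fun q k =>
    sub (fin.mem_toFinset.1 k).1
  replace n : ∀ q ∈ closedBall (0 : ℂ) R, ε q ≠ 0 := fun q k z =>
    n q (fin.mem_toFinset.2 ⟨k, fun y => y (by rw [e1, z, mul_zero])⟩) z
  obtain rfl : e = fun q => P.eval q * ε q := funext e1
  clear e1 fin h0 he
  induction hn : P.natDegree generalizing P a b with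
  | zero =>
    refine ⟨a, _, b, 1, one_ne_zero, ha, P.differentiable.differentiableOn.mul d, hb,
      fun q k => by simpa using hq q k, fun q k => .inr (mul_ne_zero ?_ (n q k))⟩
    rw [eq_C_of_natDegree_eq_zero hn] at P0 ⊢
    simpa using P0
  | succ m ih =>
    by_cases z : ∀ q ∈ closedBall (0 : ℂ) R, a q ≠ 0 ∨ P.eval q * ε q ≠ 0
    · exact ⟨a, _, b, 1, one_ne_zero, ha, P.differentiable.differentiableOn.mul d, hb,
        fun q k => by simpa using hq q k, z⟩
    simp only [not_forall, not_or, not_not] at z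
    obtain ⟨c, hc, z1, z2⟩ := z
    obtain ⟨P₁, rfl⟩ := dvd_iff_isRoot.2 ((mul_eq_zero.1 z2).resolve_right (n c hc))
    obtain ⟨a₁, da, ea⟩ := bx_div isOpen_ball (sub hc) ha z1
    have de := P₁.differentiable.differentiableOn.mul d
    obtain ⟨b₁, db, eb⟩ := bx_sqrt isOpen_ball (sub hc)
      (F := fun q => g * ∏ α ∈ s, (a₁ q - α * (P₁.eval q * ε q)))
      (continuousOn_const.mul (continuousOn_finsetProd _ fun α _ =>
        da.continuousOn.sub (continuousOn_const.mul de.continuousOn))) h b hb fun q k => by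
        rw [hq q k, ← hs, ← prod_const, mul_left_comm, ← prod_mul_distrib]
        refine congrArg _ (prod_congr rfl fun α _ => ?_)
        simp only [ea, eval_mul, eval_sub, eval_X, eval_C]
        ring
    obtain ⟨a', e', b', u, u0, d1, d2, d3, e1, e2⟩ := ih a₁ b₁ da db P₁ (right_ne_zero_of_mul P0)
      (fun q k => (eb q k).2) (by
        rw [natDegree_mul (X_sub_C_ne_zero c) (right_ne_zero_of_mul P0), natDegree_X_sub_C] at hn
        omega)
    refine ⟨a', e', b', (X - C c) * u, mul_ne_zero (X_sub_C_ne_zero c) u0, d1, d2, d3,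
      fun q k => ?_, e2⟩
    obtain ⟨x1, x2, x3, x4⟩ := e1 q k
    simp only [eval_mul, eval_sub, eval_X, eval_C]
    exact ⟨by rw [ea, x1, mul_assoc], by rw [mul_assoc, mul_assoc, ← x2],
      by rw [(eb q k).1, x3, mul_pow, mul_assoc], x4⟩

end Pool.Agent.MP_b2c033_nt.H95
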