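import Pool.Agent.MP_b2c033_nt.H95.Spec

/-! The quotient of the power of the Wronskian by the square is holomorphic. -/

namespace Pool.Agent.MP_b2c033_nt.H95

open Metric Finset Filter Topology

theorem b2 : S_B2 := by
  classical
  intro h g s a e b U h3 g0 hU ha he hb hf hn hq c hc
  have n := hU.mem_nhds hc
  have aa := ha.analyticAt n
  have ae := he.analyticAt n
  have ab := hb.analyticAt n
  refine DifferentiableAt.differentiableWithinAt ?_
  by_cases b0 : b c = 0
  swap
  · exact ((((aa.deriv.mul ae).sub (aa.mul ae.deriv)).pow h).div (ab.pow 2)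
      (pow_ne_zero 2 b0)).differentiableAt
  obtain ⟨k, b₁, a₁, n₁, e₁⟩ := ab.exists_eventuallyEq_pow_smul_nonzero_iff.2 fun k =>
    hf c hc (k.mono fun _ x y => y x)
  obtain ⟨j, rfl⟩ : ∃ j, k = j + 1 := Nat.exists_eq_succ_of_ne_zero fun z => n₁ (by
    simpa [z, b0] using e₁.self_of_nhds.symm)
  obtain ⟨α, hα, z⟩ := prod_eq_zero_iff.1 ((mul_eq_zero.1 ((hq c hc).symm.trans
    (by rw [b0, zero_pow two_ne_zero]))).resolve_left g0)
  have e0 : e c ≠ 0 := fun x => (hn c hc).elim (fun y => y (by simpa [x] using z)) fun y => y x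
  obtain ⟨D, hD⟩ : ∃ D : ℂ → ℂ, D = fun q => g * ∏ β ∈ s.erase α, (a q - β * e q) := ⟨_, rfl⟩
  have aD : AnalyticAt ℂ D c := hD ▸ analyticAt_const.mul
    (Finset.analyticAt_fun_prod _ fun β _ => aa.sub (analyticAt_const.mul ae))
  have D0 : D c ≠ 0 := hD ▸ mul_ne_zero g0 (prod_ne_zero_iff.2 fun β hβ y =>
    (mem_erase.1 hβ).1 (mul_right_cancel₀ e0 ((sub_eq_zero.1 y).symm.trans (sub_eq_zero.1 z))))
  obtain ⟨l, hl⟩ : ∃ l : ℂ → ℂ, l = fun q => b₁ q ^ 2 / D q := ⟨_, rfl⟩
  have al : AnalyticAt ℂ l c := hl ▸ (a₁.pow 2).div aD D0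
  have ea : a =ᶠ[𝓝 c] fun q => α * e q + (q - c) ^ (2 * j + 2) * l q := by
    filter_upwards [n, e₁, aD.continuousAt.eventually_ne D0] with q h1 h2 h4
    have := hq q h1
    rw [← mul_prod_erase s _ hα, mul_left_comm, h2, smul_eq_mul] at this
    rw [hl, ← sub_eq_iff_eq_add', ← mul_div_assoc, eq_div_iff h4, hD, ← this]
    ring
  obtain ⟨r, hr⟩ : ∃ r, h * (2 * j + 1) = 2 * j + 2 + r + 1 :=
    Nat.exists_eq_add_of_lt (by nlinarith)
  have key : (fun q => wr a e q ^ h / b q ^ 2) =ᶠ[𝓝 c] fun q => (q - c) ^ (r + 1) *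
      (((2 * j + 2) * l q + (q - c) * deriv l q) * e q - (q - c) * l q * deriv e q) ^ h /
        b₁ q ^ 2 := by
    filter_upwards [ea, ea.deriv, e₁, al.eventually_analyticAt, ae.eventually_analyticAt]
      with q h1 h2 h4 h5 h6
    have h7 := ((h6.differentiableAt.hasDerivAt.const_mul α).fun_add
      ((((hasDerivAt_id' q).sub_const c).fun_pow (2 * j + 2)).fun_mul
        h5.differentiableAt.hasDerivAt)).deriv
    have h8 : wr a e q = (q - c) ^ (2 * j + 1) *
        (((2 * j + 2) * l q + (q - c) * deriv l q) * e q - (q - c) * l q * deriv e q) := by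
      rw [wr, h2, h7, h1, show 2 * j + 2 - 1 = 2 * j + 1 from rfl]
      push_cast
      ring
    rw [h8, h4, smul_eq_mul, mul_pow, mul_pow, ← pow_mul, ← pow_mul, mul_comm (2 * j + 1), hr]
    by_cases x : q = c
    · simp [x]
    · rw [show (j + 1) * 2 = 2 * j + 2 by ring, add_assoc, pow_add, mul_assoc,
        mul_div_mul_left _ _ (pow_ne_zero _ (sub_ne_zero.2 x))]
  refine DifferentiableAt.congr_of_eventuallyEq ?_ key
  have d1 := al.differentiableAt
  have d2 := al.deriv.differentiableAt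
  have d3 := ae.differentiableAt
  have d4 := ae.deriv.differentiableAt
  have d5 := a₁.differentiableAt
  exact DifferentiableAt.fun_div (by fun_prop) (by fun_prop) (pow_ne_zero 2 n₁)

end Pool.Agent.MP_b2c033_nt.H95
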