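import Pool.Agent.MP_b2c033_nt.H95.Spec

/-! The selection of a disc. -/

namespace Pool.Agent.MP_b2c033_nt.H95

open Metric Filter Topology

theorem bx_max {m : ℕ} {ψ Φ : ℂ → ℂ} {R r C : ℝ} (r0 : 0 < r) (hr : r < R)
    (hψ : DifferentiableOn ℂ ψ (ball 0 R)) (hΦ : ContinuousAt Φ 0)
    (e : ∀ᶠ q in 𝓝[≠] (0 : ℂ), ψ q = q ^ m * Φ q) (hC : ∀ q, ‖q‖ = r → ‖ψ q‖ ≤ C) :
    ‖Φ 0‖ * r ^ m ≤ C := by
  classical
  have d : DifferentiableOn ℂ (Function.update (fun q => ψ q / q ^ m) 0 (Φ 0)) (ball 0 R) := by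
    refine (Complex.differentiableOn_compl_singleton_and_continuousAt_iff
      (ball_mem_nhds _ (r0.trans hr))).1 ⟨((hψ.mono Set.sdiff_subset).div (by fun_prop)
        fun q hq => pow_ne_zero _ hq.2).congr fun q hq => Function.update_of_ne hq.2 _ _,
      continuousAt_update_same.2 ((hΦ.mono_left nhdsWithin_le_nhds).congr' ?_)⟩
    filter_upwards [e, self_mem_nhdsWithin] with q h1 h2
    rw [h1, mul_div_cancel_left₀ _ (pow_ne_zero _ h2)]
  have := Complex.norm_le_of_forall_mem_frontier_norm_le (C := C / r ^ m) (isBounded_ball (x := 0))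
    (d.diffContOnCl_ball (closedBall_subset_ball hr)) (fun q hq => by
      rw [frontier_ball _ r0.ne', mem_sphere_zero_iff_norm] at hq
      rw [Function.update_of_ne (norm_ne_zero_iff.1 (hq ▸ r0.ne')), norm_div, norm_pow, hq]
      exact div_le_div_of_nonneg_right (hC q hq) (pow_pos r0 m).le)
    (subset_closure (mem_ball_self r0))
  rwa [Function.update_self, le_div_iff₀ (pow_pos r0 m)] at this

theorem bx_exp (m : ℕ) : Real.exp (-1) ≤ (1 - 1 / ((m : ℝ) + 2)) ^ m := by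
  have m0 : (0 : ℝ) ≤ m := m.cast_nonneg
  have a : Real.exp (-(1 / ((m : ℝ) + 1))) ≤ 1 - 1 / ((m : ℝ) + 2) := by
    rw [Real.exp_neg, inv_le_comm₀ (Real.exp_pos _) (by
      rw [sub_pos, div_lt_one (by linarith)]; linarith)]
    refine le_trans (le_of_eq ?_) (Real.add_one_le_exp _)
    have : (m : ℝ) + 2 - 1 = m + 1 := by ring
    field_simp
    rw [this]
    field_simp
    ring
  refine le_trans ?_ (pow_le_pow_left₀ (Real.exp_pos _).le a m)
  rw [← Real.exp_nat_mul, Real.exp_le_exp, mul_neg, neg_le_neg_iff, mul_one_div,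
    div_le_one (by linarith)]
  linarith

theorem b3 : S_B3 := by
  intro h h1
  obtain ⟨K, hK⟩ : ∃ K : ℝ, K = 2 ^ h + 1 := ⟨_, rfl⟩
  have K0 : 0 < K := by rw [hK]; positivity
  have K1 : 1 ≤ K := by rw [hK]; exact le_add_of_nonneg_left (by positivity)
  refine ⟨Real.exp (-1) / (4 * K) ^ h, by positivity, fun m ψ Φ R hR hψ hΦ e n => ?_⟩
  obtain ⟨t, ht⟩ : ∃ t : ℝ, t = 1 / (4 * ((m : ℝ) + 2)) := ⟨_, rfl⟩
  have m0 : (0 : ℝ) ≤ m := m.cast_nonneg
  have t0 : 0 < t := by rw [ht]; positivity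
  have t1 : 4 * t = 1 / ((m : ℝ) + 2) := by rw [ht]; field_simp
  have t2 : 4 * t * (m + 2) = 1 := by rw [t1]; field_simp
  have t3 : 8 * t ≤ 1 := by nlinarith
  rw [← ht] at hR
  have sub : closedBall (0 : ℂ) (1 - 2 * t) ⊆ ball 0 R := closedBall_subset_ball (by linarith)
  obtain ⟨z, hz, mx⟩ := (isCompact_closedBall (0 : ℂ) (1 - 2 * t)).exists_isMaxOn
    (nonempty_closedBall.2 (by linarith)) (f := fun q => ‖ψ q‖ * (1 - 2 * t - ‖q‖) ^ h)
    ((hψ.continuousOn.mono sub).norm.mul (by fun_prop))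
  replace mx : ∀ q : ℂ, ‖q‖ ≤ 1 - 2 * t →
      ‖ψ q‖ * (1 - 2 * t - ‖q‖) ^ h ≤ ‖ψ z‖ * (1 - 2 * t - ‖z‖) ^ h := fun q hq =>
    mx (mem_closedBall_zero_iff.2 hq)
  obtain ⟨δ, hδ⟩ : ∃ δ, δ = 1 - 2 * t - ‖z‖ := ⟨_, rfl⟩
  rw [← hδ] at mx
  have a := bx_max (r := 1 - 4 * t) (C := ‖ψ z‖ * δ ^ h / (2 * t) ^ h) (by linarith) (by linarith)
    hψ hΦ e fun q hq => by
      rw [le_div_iff₀ (by positivity)]
      have := mx q (by linarith)
      rwa [hq, show 1 - 2 * t - (1 - 4 * t) = 2 * t by ring] at this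
  have b : ‖Φ 0‖ * Real.exp (-1) ≤ ‖ψ z‖ * δ ^ h / (2 * t) ^ h :=
    (mul_le_mul_of_nonneg_left (t1 ▸ bx_exp m) (norm_nonneg _)).trans a
  have c : ‖ψ z‖ * δ ^ h ≠ 0 := fun x => by
    rw [x, zero_div] at b
    exact b.not_gt (mul_pos (norm_pos_iff.2 n) (Real.exp_pos _))
  have δ0 : 0 < δ := lt_of_le_of_ne (by rw [hδ, sub_nonneg]; exact mem_closedBall_zero_iff.1 hz)
    fun x => right_ne_zero_of_mul c (by rw [← x, zero_pow (by omega)])
  have z0 : 0 < ‖ψ z‖ := (norm_nonneg _).lt_of_ne' (left_ne_zero_of_mul c)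
  have nb : ∀ q ∈ ball z (δ / 2), ‖q‖ ≤ ‖z‖ + δ / 2 := fun q hq =>
    (norm_le_norm_add_norm_sub' q z).trans (add_le_add le_rfl (mem_ball_iff_norm.1 hq).le)
  have s2 : ball z (δ / 2) ⊆ ball 0 R := fun q hq =>
    sub (mem_closedBall_zero_iff.2 (by linarith [nb q hq]))
  have s3 : δ / (2 * K) ≤ δ / 2 := div_le_div_of_nonneg_left δ0.le two_pos (by linarith)
  refine ⟨z, δ / (2 * K), by positivity, (ball_subset_ball s3).trans s2, fun q hq x => ?_, ?_⟩
  · have := Complex.dist_le_div_mul_dist_of_mapsTo_ball (R₂ := K * ‖ψ z‖) (hψ.mono s2)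
      (fun w hw => by
        have y : ‖ψ w‖ * (δ / 2) ^ h ≤ ‖ψ z‖ * δ ^ h := le_trans (mul_le_mul_of_nonneg_left
          (pow_le_pow_left₀ (by positivity) (by linarith [nb w hw]) h) (norm_nonneg _))
          (mx w (by linarith [nb w hw]))
        rw [div_pow, ← mul_div_assoc, div_le_iff₀ (by positivity), mul_right_comm,
          mul_le_mul_iff_left₀ (by positivity)] at y
        rw [mem_closedBall_iff_norm, hK]
        linarith [norm_sub_le (ψ w) (ψ z)]) (ball_subset_ball s3 hq)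
    rw [x, dist_zero_left] at this
    refine this.not_gt ((mul_lt_mul_of_pos_left (mem_ball.1 hq) (by positivity)).trans_eq ?_)
    field_simp
  · have y : δ / (2 * K) * (m + 2) = δ / (2 * t) / (4 * K) := by
      rw [eq_div_of_mul_eq (by positivity : 4 * t ≠ 0) ((mul_comm _ _).trans t2)]
      field_simp
    rw [y, div_pow, div_pow, ← mul_div_assoc, ← mul_div_assoc, div_mul_eq_mul_div, mul_comm]
    exact div_le_div_of_nonneg_right b (by positivity)

end Pool.Agent.MP_b2c033_nt.H95
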