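import Pool.Agent.MP_b2c033_nt.H95.Spec

/-! Binary forms which split into distinct linear factors. -/

set_option autoImplicit false

namespace Pool.Agent.MP_b2c033_nt.H95

open Polynomial Finset

theorem rx_top (k1 : S_K1) {R : Type} [CommRing R] (n : ℕ) (p : ℤ[X]) (a : R) :
    hev n p a 0 = p.coeff n * a ^ n :=
  sub_eq_zero.1 (zero_dvd_iff.1 (k1.top R n p a 0))

theorem rx_succ {R : Type} [CommRing R] {n : ℕ} {p : ℤ[X]} (h : p.coeff (n + 1) = 0) (a e : R) :
    hev (n + 1) p a e = e * hev n p a e := by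
  rw [hev, sum_range_succ, h, hev, mul_sum]
  simp only [Int.cast_zero, zero_mul, add_zero]
  refine sum_congr rfl fun i hi => ?_
  rw [show n + 1 - i = n - i + 1 by have := mem_range.1 hi; omega, pow_succ]
  ring

theorem rx_cast (k1 : S_K1) (n : ℕ) (p : ℤ[X]) (a e : ℤ) :
    ((hev n p a e : ℤ) : ℂ) = hev n p (a : ℂ) e := k1.map ℤ ℂ (Int.castRingHom ℂ) n p a e

theorem rx_init (k1 : S_K1) {F : ℤ[X]} (hF : Squarefree (F.map (Int.castRingHom ℚ))) :
    ∃ s, Roots F.natDegree F s := by
  classical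
  have h0 : F ≠ 0 := fun h => hF.ne_zero (by rw [h, Polynomial.map_zero])
  have hi : Function.Injective (Int.castRingHom ℂ) := Int.cast_injective
  have e : F.map (Int.castRingHom ℂ) = (F.map (Int.castRingHom ℚ)).map (algebraMap ℚ ℂ) := by
    rw [Polynomial.map_map]; congr 1
  have hs : (F.map (Int.castRingHom ℂ)).Separable :=
    e ▸ (PerfectField.separable_iff_squarefree.2 hF).map
  have hn := nodup_roots hs
  have hsp := IsAlgClosed.splits (F.map (Int.castRingHom ℂ))
  have hc : (F.map (Int.castRingHom ℂ)).roots.toFinset.card = F.natDegree := by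
    rw [Multiset.toFinset_card_of_nodup hn, ← hsp.natDegree_eq_card_roots,
      natDegree_map_eq_of_injective hi]
  refine ⟨_, le_rfl, leadingCoeff_ne_zero.2 h0, hc, fun U V => ?_⟩
  by_cases hV : V = 0
  · subst hV
    simp [rx_top k1, hc]
  · obtain ⟨x, rfl⟩ : ∃ x, U = x * V := ⟨U / V, by field_simp⟩
    rw [← Multiset.toFinset_eq hn] at hc ⊢
    have e2 : ∏ a ∈ (⟨_, hn⟩ : Finset ℂ), (x * V - a * V) = V ^ F.natDegree *
        (Multiset.map (fun a => x - a) (F.map (Int.castRingHom ℂ)).roots).prod := by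
      rw [← hc, ← prod_const]
      exact (prod_congr rfl fun a _ => by ring).trans prod_mul_distrib
    rw [k1.chart ℂ _ _ _ _ le_rfl, hsp.eval_eq_prod_roots, leadingCoeff_map_of_injective hi, e2,
      mul_left_comm]
    rfl

theorem rx_inj : Function.Injective fun α : ℂ => ((1 : ℂ), -α) := fun _ _ h =>
  neg_injective (congrArg Prod.snd h)

theorem k3 (k1 : S_K1) : S_K3 := by
  classical
  refine ⟨fun n F hF hn => ?_, fun n p p' r v₁ w₁ v₂ w₂ hp hr hd e => ?_, fun n p hn hp => ?_,
    fun n p hp hd hc => ?_⟩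
  · obtain ⟨s, -, h1, h2, h3⟩ := rx_init k1 hF
    have h4 : ∀ P ∈ s.image fun α : ℂ => ((1 : ℂ), -α), ∀ Q ∈ s.image fun α : ℂ => ((1 : ℂ), -α),
        P ≠ Q → P.1 * Q.2 ≠ P.2 * Q.1 := by
      simp only [forall_mem_image]
      intro α _ β _ h h'
      exact h (by simp at h'; rw [h'])
    have h5 : ∀ U V : ℂ, hev F.natDegree F U V = F.coeff F.natDegree *
        ∏ P ∈ s.image fun α : ℂ => ((1 : ℂ), -α), (P.1 * U + P.2 * V) := fun U V => by
      rw [h3, prod_image rx_inj.injOn]
      congr 1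
      exact prod_congr rfl fun a _ => by ring
    have h6 := (card_image_of_injective s rx_inj).trans h2
    rcases hn with rfl | rfl
    · exact ⟨_, _, Int.cast_ne_zero.2 h1, h6, h4, h5⟩
    · have h7 : ((0 : ℂ), (1 : ℂ)) ∉ s.image fun α : ℂ => ((1 : ℂ), -α) := by simp
      refine ⟨_, insert (0, 1) _, Int.cast_ne_zero.2 h1, by rw [card_insert_of_notMem h7, h6],
        fun P hP Q hQ h => ?_, fun U V => ?_⟩
      · rcases mem_insert.1 hP with rfl | hP <;> rcases mem_insert.1 hQ with rfl | hQ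
        · exact absurd rfl h
        · obtain ⟨α, -, rfl⟩ := mem_image.1 hQ
          simp
        · obtain ⟨α, -, rfl⟩ := mem_image.1 hP
          simp
        · exact h4 P hP Q hQ h
      · rw [rx_succ (coeff_eq_zero_of_natDegree_lt (Nat.lt_succ_self _)), h5, prod_insert h7]
        ring
  · obtain ⟨c, S, h1, h2, h3, h4⟩ := hp
    have hd' : ((v₁ : ℂ) * w₂ - w₁ * v₂) ≠ 0 := by exact_mod_cast hd
    let f : ℂ × ℂ → ℂ × ℂ := fun P => (P.1 * v₁ + P.2 * v₂, P.1 * w₁ + P.2 * w₂)
    have h5 : ∀ P ∈ S, ∀ Q ∈ S, P ≠ Q → (f P).1 * (f Q).2 ≠ (f P).2 * (f Q).1 :=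
      fun P hP Q hQ h h' => mul_ne_zero (sub_ne_zero.2 (h3 P hP Q hQ h)) hd' (by
        simp only [f] at h'
        linear_combination h')
    have h6 : Set.InjOn f S := fun P hP Q hQ h => by_contra fun h' =>
      h5 P hP Q hQ h' (by rw [h, mul_comm])
    refine ⟨c / r, S.image f, div_ne_zero h1 hr, by rw [card_image_of_injOn h6, h2], ?_,
      fun U V => mul_left_cancel₀ hr ?_⟩
    · simp only [forall_mem_image]
      exact fun P hP Q hQ h => h5 P hP Q hQ fun h' => h (by rw [h'])
    · rw [e, h4, prod_image h6, ← mul_assoc, mul_div_cancel₀ _ hr]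
      congr 1
      exact prod_congr rfl fun P _ => by simp only [f]; ring
  · obtain ⟨c, S, h1, h2, h3, h4⟩ := hp
    have hf : (⋃ P ∈ S, {t : ℤ | P.1 + P.2 * t = 0}).Finite := by
      refine S.finite_toSet.biUnion fun P hP => Set.Subsingleton.finite fun t ht t' ht' => ?_
      obtain ⟨Q, hQ, hne⟩ := exists_mem_ne (s := S) (by omega) P
      have a1 : P.1 + P.2 * t = 0 := ht
      have a2 : P.1 + P.2 * t' = 0 := ht'
      by_cases h0 : P.2 = 0
      · rw [h0, zero_mul, add_zero] at a1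
        exact absurd (by rw [a1, h0, zero_mul, zero_mul]) (h3 P hP Q hQ hne.symm)
      · exact Int.cast_injective (mul_left_cancel₀ h0 (add_left_cancel (a1.trans a2.symm)))
    obtain ⟨t, ht⟩ := hf.exists_notMem
    refine ⟨t, fun h => ?_⟩
    have e := rx_cast k1 n p 1 t
    rw [h, h4, Int.cast_zero, eq_comm, mul_eq_zero, prod_eq_zero_iff] at e
    obtain ⟨P, hP, e⟩ := e.resolve_left h1
    exact ht (Set.mem_biUnion hP (by simpa using e))
  · obtain ⟨c, S, h1, h2, h3, h4⟩ := hp
    have e := h4 1 0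
    rw [rx_top k1] at e
    simp only [one_pow, mul_one, mul_zero, add_zero] at e
    have h5 : ∀ P ∈ S, P.1 ≠ 0 := prod_ne_zero_iff.1
      (right_ne_zero_of_mul (e ▸ Int.cast_ne_zero.2 hc))
    have h6 : Set.InjOn (fun P : ℂ × ℂ => -P.2 / P.1) S := fun P hP Q hQ h => by_contra fun h' =>
      h3 P hP Q hQ h' (by
        have := (div_eq_div_iff (h5 P hP) (h5 Q hQ)).1 h
        linear_combination this)
    refine ⟨S.image fun P => -P.2 / P.1, hd, hc, by rw [card_image_of_injOn h6, h2],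
      fun U V => ?_⟩
    rw [h4, e, prod_image h6, mul_assoc, ← prod_mul_distrib]
    congr 1
    refine prod_congr rfl fun P hP => ?_
    have := h5 P hP
    field_simp
    ring

end Pool.Agent.MP_b2c033_nt.H95
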