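import Pool.Agent.MP_b2c033_nt.H95.Spec

/-! The discriminant, a Bezout identity and complex conjugation of the roots. -/

set_option autoImplicit false

namespace Pool.Agent.MP_b2c033_nt.H95

open Polynomial Finset
open scoped ComplexConjugate

theorem rx_fac (k1 : S_K1) {n : ℕ} {p : ℤ[X]} {s : Finset ℂ} (h : Roots n p s) :
    p.map (Int.castRingHom ℂ) = C (p.coeff n : ℂ) * ∏ α ∈ s, (X - C α) := by
  refine Polynomial.funext fun x => ?_
  have := k1.chart ℂ n p x 1 h.1
  rw [h.2.2.2, one_pow, one_mul] at this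
  rw [← this]
  simp [eval_prod]

theorem rx_deg {n : ℕ} {p : ℤ[X]} {s : Finset ℂ} (h : Roots n p s) : p.natDegree = n :=
  le_antisymm h.1 (le_natDegree_of_ne_zero h.2.1)

theorem rx_res (k1 : S_K1) {n : ℕ} {p : ℤ[X]} {s : Finset ℂ} (h : Roots n p s) :
    ((resultant p (derivative p) n (n - 1) : ℤ) : ℂ) =
      (p.coeff n : ℂ) ^ (n - 1) * ((p.coeff n : ℂ) ^ n * ∏ α ∈ s, ∏ β ∈ s.erase α, (α - β)) := by
  classical
  have hi : Function.Injective (Int.castRingHom ℂ) := Int.cast_injective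
  have hc : (p.coeff n : ℂ) ≠ 0 := Int.cast_ne_zero.2 h.2.1
  have hd : (p.map (Int.castRingHom ℂ)).natDegree = n := by
    rw [natDegree_map_eq_of_injective hi, rx_deg h]
  have e := resultant_eq_prod_eval (p.map (Int.castRingHom ℂ))
    (derivative (p.map (Int.castRingHom ℂ))) (n - 1) (hd ▸ natDegree_derivative_le _)
    (IsAlgClosed.splits _)
  rw [hd, derivative_map, resultant_map_map, ← derivative_map, leadingCoeff, hd, coeff_map,
    rx_fac k1 h, roots_C_mul _ hc, roots_prod_X_sub_C] at e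
  refine e.trans ?_
  congr 1
  rw [← h.2.2.1, ← prod_const, ← prod_mul_distrib, h.2.2.1]
  refine prod_congr rfl fun α hα => ?_
  rw [derivative_C_mul, eval_mul, eval_C]
  congr 1
  exact eval_multiset_prod_X_sub_C_derivative (S := s.val) hα

theorem rx_res_ne (k1 : S_K1) {n : ℕ} {p : ℤ[X]} {s : Finset ℂ} (h : Roots n p s) :
    resultant p (derivative p) n (n - 1) ≠ 0 := by
  have hc : (p.coeff n : ℂ) ≠ 0 := Int.cast_ne_zero.2 h.2.1
  refine (Int.cast_ne_zero (α := ℂ)).1 ?_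
  rw [rx_res k1 h]
  exact mul_ne_zero (pow_ne_zero _ hc) (mul_ne_zero (pow_ne_zero _ hc) (prod_ne_zero_iff.2
    fun α _ => prod_ne_zero_iff.2 fun β hβ => sub_ne_zero.2 (ne_of_mem_erase hβ).symm))

theorem k4 (k1 : S_K1) : S_K4 := by
  refine ⟨fun n p s h => ?_, fun n p s hn h => ?_, fun n p s h α hα => ?_⟩
  · rcases Nat.eq_zero_or_pos n with rfl | hn
    · exact ⟨1, 0, _, h.2.1, by rw [one_mul, zero_mul, add_zero, ← eq_C_of_natDegree_le_zero h.1]⟩
    · obtain ⟨U, V, -, -, e⟩ := exists_mul_add_mul_eq_C_resultant p (derivative p) h.1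
        (rx_deg h ▸ natDegree_derivative_le p) (Or.inl hn.ne')
      exact ⟨U, V, _, rx_res_ne k1 h, by rw [← e, mul_comm U, mul_comm V]⟩
  · have e := resultant_deriv (f := p) (natDegree_pos_iff_degree_pos.1 (by rw [rx_deg h]; omega))
    rw [leadingCoeff, rx_deg h] at e
    have h0 : p.discr ≠ 0 := fun h0 => rx_res_ne k1 h (by rw [e, h0, mul_zero])
    have h1 : (1 : ℝ) ≤ |(p.discr : ℝ)| := by exact_mod_cast Int.one_le_abs h0
    have e2 := congrArg norm (rx_res k1 h)
    rw [e] at e2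
    push_cast at e2
    simp only [norm_mul, norm_pow, norm_neg, norm_one, one_pow, one_mul, Complex.norm_intCast,
      norm_prod] at e2
    have hc : |(p.coeff n : ℝ)| ≠ 0 := abs_ne_zero.2 (Int.cast_ne_zero.2 h.2.1)
    obtain ⟨m, rfl⟩ : ∃ m, n = m + 1 := ⟨n - 1, by omega⟩
    refine h1.trans_eq (mul_left_cancel₀ hc (e2.trans ?_))
    rw [Nat.add_sub_cancel]
    ring
  · have e : hev n p α 1 = 0 := by
      rw [h.2.2.2, prod_eq_zero hα (by simp), mul_zero]
    have e2 := k1.map ℂ ℂ (starRingEnd ℂ) n p α 1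
    rw [e, map_zero, map_one, h.2.2.2, eq_comm, mul_eq_zero, prod_eq_zero_iff] at e2
    obtain ⟨β, hβ, e3⟩ := e2.resolve_left (Int.cast_ne_zero.2 h.2.1)
    rw [mul_one, sub_eq_zero] at e3
    exact e3 ▸ hβ

end Pool.Agent.MP_b2c033_nt.H95
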