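import Pool.Agent.MP_b2c033_nt.H95.N2
import Pool.Agent.MP_b2c033_nt.H87.P1

/-! The normalisation theorem. -/

namespace Pool.Agent.MP_b2c033_nt.H95

open Polynomial
open Pool.Agent.MP_b2c033_nt.H87
open scoped PowerSeries

noncomputable section

theorem nx_clear (F : ℚ[X]) : ∃ (d : ℤ) (F₀ : ℤ[X]), d ≠ 0 ∧
    F₀.map (Int.castRingHom ℚ) = C ((d : ℚ) ^ 2) * F := by
  obtain ⟨d, hd, h⟩ := IsLocalization.integerNormalization_spec (nonZeroDivisors ℤ) F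
  refine ⟨d, C d * IsLocalization.integerNormalization (nonZeroDivisors ℤ) F,
    nonZeroDivisors.ne_zero hd, ?_⟩
  have h1 : algebraMap ℤ ℚ = Int.castRingHom ℚ := RingHom.ext_int _ _
  rw [h1] at h
  rw [Polynomial.map_mul, h, map_C, zsmul_eq_mul, pow_two, C_mul, mul_assoc]
  simp

theorem nx_evalX (F₀ : ℤ[X]) :
    (F₀.map (Int.castRingHom ℚ[X])).eval X = F₀.map (Int.castRingHom ℚ) := by
  rw [eval_map, RingHom.ext_int (Int.castRingHom ℚ[X]) (C.comp (Int.castRingHom ℚ))]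
  rfl

theorem nx_evalA {A : Type} [CommRing A] [Algebra ℚ A] (F₀ : ℤ[X]) (x : A) :
    (F₀.map (Int.castRingHom A)).eval x = aeval x (F₀.map (Int.castRingHom ℚ)) := by
  rw [eval_map, aeval_def, eval₂_map]
  congr 1
  exact RingHom.ext_int _ _

theorem nx_top (k1 : S_K1) (n : ℕ) (p : ℤ[X]) : hev n p (1 : ℤ) 0 = p.coeff n := by
  have h := k1.top ℤ n p 1 0
  rw [zero_dvd_iff, one_pow, mul_one, Int.cast_id] at h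
  linear_combination h

/-- an integral square root -/
theorem nx_root {H b₀ c₀ : ℤ⟦X⟧} (hc : c₀ ≠ 0) (h : b₀ ^ 2 = c₀ ^ 2 * H) :
    ∃ b, b₀ = c₀ * b ∧ b ^ 2 = H := by
  obtain ⟨b, hb⟩ := (IsIntegrallyClosed.pow_dvd_pow_iff two_ne_zero).1 ⟨H, h⟩
  refine ⟨b, hb, mul_left_cancel₀ (pow_ne_zero 2 hc) ?_⟩
  rw [← h, hb]
  ring

theorem nx_fld {K : Type} [Field K] [CharZero K] {x E A₂ E₂ : K} {V₁ w₁ V₂ w₂ : ℤ}
    (hD : V₁ * w₂ - w₁ * V₂ ≠ 0) (h1 : x * E = V₁ * A₂ + w₁ * E₂) (h2 : E = V₂ * A₂ + w₂ * E₂) :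
    A₂ = E * ((((w₂ : ℚ) / (V₁ * w₂ - w₁ * V₂ : ℤ) : ℚ) : K) * x +
      ((-(w₁ : ℚ) / (V₁ * w₂ - w₁ * V₂ : ℤ) : ℚ) : K)) ∧
    E₂ = E * (((-(V₂ : ℚ) / (V₁ * w₂ - w₁ * V₂ : ℤ) : ℚ) : K) * x +
      (((V₁ : ℚ) / (V₁ * w₂ - w₁ * V₂ : ℤ) : ℚ) : K)) := by
  have hD' : (V₁ * w₂ - w₁ * V₂ : K) ≠ 0 := by exact_mod_cast hD
  have hz := mul_inv_cancel₀ hD'
  push_cast
  simp only [div_eq_mul_inv]
  generalize (V₁ * w₂ - w₁ * V₂ : K)⁻¹ = z at hz ⊢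
  constructor
  · linear_combination (-w₂ * z : K) * h1 + (w₁ * z : K) * h2 - A₂ * hz
  · linear_combination (V₂ * z : K) * h1 - (V₁ * z : K) * h2 - E₂ * hz

theorem nx_fld2 {K : Type} [Field K] [CharZero K] {B B' Y E y : K} {c u d : ℤ} (hc : c ≠ 0)
    (h1 : B = c * B') (h2 : Y = u * B') (h3 : B = d * y * E) :
    Y = E * (((u : ℚ) * d / c : ℚ) : K) * y := by
  have hc' : (c : K) ≠ 0 := by exact_mod_cast hc
  push_cast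
  field_simp
  linear_combination (c : K) * h2 - (u : K) * h1 + (u : K) * h3

theorem nx_ind {K : Type} [Field K] [CharZero K] {x E : K} {r s : ℤ} (hE : E ≠ 0)
    (hx : ∀ c : ℚ, x ≠ (c : K)) (h : r * (x * E) + s * E = 0) : r = 0 ∧ s = 0 := by
  have h1 : (r : K) * x + s = 0 := by
    apply mul_right_cancel₀ hE
    linear_combination h
  have h2 : r = 0 := by
    by_contra hr
    have hr' : (r : K) ≠ 0 := by exact_mod_cast hr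
    refine hx (-(s : ℚ) / r) ?_
    push_cast
    field_simp
    linear_combination h1
  refine ⟨h2, ?_⟩
  rw [h2] at h1
  exact_mod_cast (by simpa using h1 : (s : K) = 0)

theorem nx_inv {V₁ w₁ V₂ w₂ : ℤ} (hD : V₁ * w₂ - w₁ * V₂ ≠ 0) :
    ((V₁ : ℚ[X]) * (C ((w₂ : ℚ) / (V₁ * w₂ - w₁ * V₂ : ℤ)) * X +
        C (-(w₁ : ℚ) / (V₁ * w₂ - w₁ * V₂ : ℤ))) +
      (w₁ : ℚ[X]) * (C (-(V₂ : ℚ) / (V₁ * w₂ - w₁ * V₂ : ℤ)) * X +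
        C ((V₁ : ℚ) / (V₁ * w₂ - w₁ * V₂ : ℤ))) = X * 1) ∧
    ((V₂ : ℚ[X]) * (C ((w₂ : ℚ) / (V₁ * w₂ - w₁ * V₂ : ℤ)) * X +
        C (-(w₁ : ℚ) / (V₁ * w₂ - w₁ * V₂ : ℤ))) +
      (w₂ : ℚ[X]) * (C (-(V₂ : ℚ) / (V₁ * w₂ - w₁ * V₂ : ℤ)) * X +
        C ((V₁ : ℚ) / (V₁ * w₂ - w₁ * V₂ : ℤ))) = 1) := by
  have hD' : ((V₁ * w₂ - w₁ * V₂ : ℤ) : ℚ) ≠ 0 := by exact_mod_cast hD
  have h1 : C (((V₁ * w₂ - w₁ * V₂ : ℤ) : ℚ)⁻¹) * (V₁ * w₂ - w₁ * V₂ : ℚ[X]) = 1 := by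
    have h2 : (V₁ * w₂ - w₁ * V₂ : ℚ[X]) = C ((V₁ * w₂ - w₁ * V₂ : ℤ) : ℚ) := by simp
    rw [h2, ← C_mul, inv_mul_cancel₀ hD', C_1]
  simp only [div_eq_mul_inv, C_mul, C_neg, map_intCast]
  generalize C (((V₁ * w₂ - w₁ * V₂ : ℤ) : ℚ)⁻¹) = z at h1 ⊢
  constructor
  · linear_combination X * h1
  · linear_combination h1

theorem nn (k1 : S_K1) (_k2 : S_K2) (k3 : S_K3) (n1 : S_N1) (n2 : S_N2) (n3 : S_N3) : S_N := by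
  intro h F x y hh hsq hdeg hx hy hxc hxy
  obtain ⟨d, F₀, hd, hF₀⟩ := nx_clear F
  have hd' : (d : ℚ) ^ 2 ≠ 0 := pow_ne_zero 2 (by exact_mod_cast hd)
  have hdeg₀ : F₀.natDegree = F.natDegree := by
    rw [← natDegree_map_eq_of_injective (RingHom.injective_int (Int.castRingHom ℚ)), hF₀,
      natDegree_C_mul hd']
  have hle₀ : F₀.natDegree ≤ 2 * h := by omega
  have hSF₀ : SF (2 * h) F₀ := by
    refine k3.init _ _ ?_ (by omega)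
    rw [hF₀]
    exact (associated_unit_mul_left F _ (isUnit_C.2 hd'.isUnit)).squarefree_iff.2 hsq
  obtain ⟨a₀, e₀, he₀, hcop, hx₀⟩ := P1x.red hx
  have hE : io e₀ ≠ 0 := P1x.io_ne he₀
  obtain ⟨a₂, e₁, v₁, w₁, v₂, w₂, hdet, ha₀, he₀', hI₁, h0⟩ := n1 a₀ e₀ (by
    intro r s hrs
    have h1 := congrArg io hrs
    rw [map_add, map_mul, map_mul, map_intCast, map_intCast, map_zero, ← hx₀] at h1
    exact @nx_ind L _ charZeroL _ _ _ _ hE (fun c => by rw [← algMapL]; exact hxc c) h1)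
  obtain ⟨F₁, -, hF₁⟩ := k1.sub (2 * h) F₀ v₁ w₁ v₂ w₂
  have hSF₁ : SF (2 * h) F₁ :=
    k3.sub _ _ _ 1 v₁ w₁ v₂ w₂ hSF₀ one_ne_zero hdet fun U V => by rw [one_mul, hF₁]
  obtain ⟨t, ht⟩ := k3.shear _ _ (by omega) hSF₁
  obtain ⟨V₁, hV₁⟩ : ∃ V₁, V₁ = v₁ + t * w₁ := ⟨_, rfl⟩
  obtain ⟨V₂, hV₂⟩ : ∃ V₂, V₂ = v₂ + t * w₂ := ⟨_, rfl⟩
  obtain ⟨e₂, he₂⟩ : ∃ e₂ : ℤ⟦X⟧, e₂ = ((-t : ℤ) : ℤ⟦X⟧) * a₂ + ((1 : ℤ) : ℤ⟦X⟧) * e₁ := ⟨_, rfl⟩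
  have hD : V₁ * w₂ - w₁ * V₂ ≠ 0 := by
    have h1 : V₁ * w₂ - w₁ * V₂ = v₁ * w₂ - w₁ * v₂ := by rw [hV₁, hV₂]; ring
    rwa [h1]
  have hI : Indep a₂ e₂ := nx_indep 1 0 (-t) 1 (by ring) (by simp) he₂ hI₁
  have ha : a₀ = V₁ * a₂ + w₁ * e₂ := by rw [ha₀, hV₁, he₂]; push_cast; ring
  have he : e₀ = V₂ * a₂ + w₂ * e₂ := by rw [he₀', hV₂, he₂]; push_cast; ring
  obtain ⟨F₂, hle₂, hF₂⟩ := k1.sub (2 * h) F₀ V₁ w₁ V₂ w₂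
  have htop : F₂.coeff (2 * h) ≠ 0 := by
    rw [← nx_top k1, hF₂]
    rw [hF₁] at ht
    simp only [Int.cast_id, mul_one, mul_zero, add_zero, hV₁, hV₂] at ht ⊢
    rwa [mul_comm t, mul_comm t]
  have hne₂ : F₂ ≠ 0 := by
    rintro rfl
    exact htop (coeff_zero _)
  have hH : io (hev (2 * h) F₂ a₂ e₂) = (d * y * io e₀ ^ h) ^ 2 := by
    rw [hF₂, ← ha, ← he, k1.map, ← hx₀, k1.chart _ _ _ _ _ hle₀, nx_evalA, hF₀, map_mul, aeval_C,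
      ← hxy, map_pow, map_intCast]
    ring
  obtain ⟨b₀, c₀, hc₀, hy₀⟩ := hy
  obtain ⟨b, hb₀, hb⟩ := nx_root (H := hev (2 * h) F₂ a₂ e₂) (b₀ := d * b₀ * e₀ ^ h) hc₀ (by
    apply P1x.io_inj
    rw [map_mul, hH, map_pow, map_pow, map_mul, map_mul, map_pow, map_intCast, ← hy₀]
    ring)
  have hiob : io b = d * y * io e₀ ^ h := by
    apply mul_left_cancel₀ (P1x.io_ne hc₀)
    rw [← map_mul, ← hb₀, map_mul, map_mul, map_pow, map_intCast, ← hy₀]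
    ring
  obtain ⟨c, G, b', hc, hG, hbb, hb', hpr⟩ := n2 (2 * h) a₂ e₂ b F₂ hI hle₂ hne₂ hb
  have hleG := nx_deg (pow_ne_zero 2 hc) hG hle₂
  obtain ⟨T, P, η, u, hu, hT, hP, heq, hTP, hβ, hprim⟩ := n3 h a₂ e₂ b' G hI hleG hb' hpr
  have hkey : ∀ (R : Type) [CommRing R] (U V : R),
      (c : R) ^ 2 * hev (2 * h) (T ^ 2 + C 4 * P) U V =
        (u : R) ^ 2 * hev (2 * h) F₀ (V₁ * U + w₁ * V) (V₂ * U + w₂ * V) := by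
    intro R _ U V
    rw [← hF₂, hTP, hG, k1.smul, k1.smul]
    push_cast
    ring
  have hSF : SF (2 * h) (T ^ 2 + C 4 * P) := by
    have hu' : (u : ℂ) ≠ 0 := by exact_mod_cast hu
    have hc' : (c : ℂ) ≠ 0 := by exact_mod_cast hc
    refine k3.sub _ _ _ (c ^ 2 / u ^ 2) V₁ w₁ V₂ w₂ hSF₀ (by positivity) hD fun U V => ?_
    rw [div_mul_eq_mul_div, hkey, mul_div_cancel_left₀ _ (pow_ne_zero 2 hu')]
  obtain ⟨s, hs⟩ := k3.roots _ _ hSF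
    (by rw [hTP, natDegree_C_mul (pow_ne_zero 2 hu)]; exact hleG)
    (by
      rw [hG, coeff_C_mul] at htop
      rw [hTP, coeff_C_mul]
      exact mul_ne_zero (pow_ne_zero 2 hu) (right_ne_zero_of_mul htop))
  have hcop₂ : IsRelPrime a₂ e₂ := by
    intro z h1 h2
    refine hcop ?_ ?_
    · rw [ha]; exact dvd_add (h1.mul_left _) (h2.mul_left _)
    · rw [he]; exact dvd_add (h1.mul_left _) (h2.mul_left _)
  have h1 := congrArg io ha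
  have h2 := congrArg io he
  rw [map_add, map_mul, map_mul, map_intCast, map_intCast] at h1 h2
  rw [← hx₀] at h1
  obtain ⟨h3, h4⟩ := @nx_fld L _ charZeroL _ _ _ _ _ _ _ _ hD h1 h2
  have hDq : ((V₁ * w₂ - w₁ * V₂ : ℤ) : ℚ) ≠ 0 := by exact_mod_cast hD
  have hcq : (c : ℚ) ≠ 0 := by exact_mod_cast hc
  have huq : (u : ℚ) ≠ 0 := by exact_mod_cast hu
  have hdq : (d : ℚ) ≠ 0 := by exact_mod_cast hd
  refine ⟨a₂, e₂, η, T, P, s, _, _, _, _, (u : ℚ) * d / c, io e₀,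
    ⟨hT, hP, heq, hcop₂, hI, h0, hs, hprim⟩, ?_, by positivity, hE, ?_, h3, h4, ?_⟩
  · have h5 : (w₂ : ℚ) / (V₁ * w₂ - w₁ * V₂ : ℤ) * ((V₁ : ℚ) / (V₁ * w₂ - w₁ * V₂ : ℤ)) -
        -(w₁ : ℚ) / (V₁ * w₂ - w₁ * V₂ : ℤ) * (-(V₂ : ℚ) / (V₁ * w₂ - w₁ * V₂ : ℤ)) =
        ((V₁ * w₂ - w₁ * V₂ : ℤ) : ℚ)⁻¹ := by
      field_simp
      push_cast
      ring
    rw [h5]
    exact inv_ne_zero hDq
  · obtain ⟨h5, h6⟩ := nx_inv hD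
    have h7 := hkey ℚ[X] (C ((w₂ : ℚ) / (V₁ * w₂ - w₁ * V₂ : ℤ)) * X +
        C (-(w₁ : ℚ) / (V₁ * w₂ - w₁ * V₂ : ℤ))) (C (-(V₂ : ℚ) / (V₁ * w₂ - w₁ * V₂ : ℤ)) * X +
        C ((V₁ : ℚ) / (V₁ * w₂ - w₁ * V₂ : ℤ)))
    rw [h5, h6, k1.chart _ _ _ _ _ hle₀, nx_evalX, hF₀, one_pow, one_mul] at h7
    have h8 : ((c : ℚ[X])) ^ 2 = C ((c : ℚ) ^ 2) := by simp
    have h9 : ((u : ℚ[X])) ^ 2 = C ((u : ℚ) ^ 2) := by simp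
    rw [h8, h9] at h7
    apply mul_left_cancel₀ (C_ne_zero.2 (pow_ne_zero 2 hcq))
    rw [h7, ← mul_assoc, ← mul_assoc, ← C_mul, ← C_mul]
    congr 2
    field_simp
  · have h5 := congrArg io hbb
    have h6 := congrArg io hβ
    rw [map_mul, map_intCast] at h5
    rw [map_mul io (u : ℤ⟦X⟧), map_intCast] at h6
    exact @nx_fld2 L _ charZeroL _ _ _ _ _ _ _ _ hc h5 h6 hiob

end

end Pool.Agent.MP_b2c033_nt.H95
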