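import Pool.Agent.MP_b2c033_nt.H95.Spec
import Pool.Agent.MP_b2c033_nt.H87.P4

/-! Forms vanishing at an independent pair, and saturation of the lattice of a pair. -/

namespace Pool.Agent.MP_b2c033_nt.H95

open Polynomial
open Pool.Agent.MP_b2c033_nt.H87
open scoped PowerSeries

noncomputable section

theorem nx_not_dvd_one {p : ℕ} (hp : p.Prime) : ¬ (p : ℤ) ∣ 1 := by
  intro h
  exact hp.not_dvd_one (by exact_mod_cast h)

theorem nx_C_dvd (p : ℕ) (G : ℤ[X]) (h : G.map (Int.castRingHom (ZMod p)) = 0) :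
    C (p : ℤ) ∣ G := by
  rw [C_dvd_iff_dvd_coeff]
  intro i
  have h7 := congrArg (fun Q => Polynomial.coeff Q i) h
  simp only [coeff_map, coeff_zero] at h7
  exact (ZMod.intCast_zmod_eq_zero_iff_dvd _ p).1 h7

theorem k2 (k1 : S_K1) : S_K2 := by
  intro a e p n G hI hp hG hd
  have : Fact p.Prime := ⟨hp⟩
  apply nx_C_dvd
  by_contra hne
  have he : P4x.red p e ≠ 0 := by
    intro h0
    have h1 := (P4x.red_zero_iff p e).1 h0
    exact nx_not_dvd_one hp (hI p 0 1 hp (by simpa using h1)).2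
  have hinj : Function.Injective (algebraMap (ZMod p)⟦X⟧ (FractionRing (ZMod p)⟦X⟧)) :=
    IsFractionRing.injective _ _
  have he₁ : algebraMap (ZMod p)⟦X⟧ (FractionRing (ZMod p)⟦X⟧) (P4x.red p e) ≠ 0 := fun h0 =>
    he (hinj (by rw [h0, map_zero]))
  have h2 := (P4x.red_zero_iff p _).2 hd
  have h3 := k1.map _ _
    ((algebraMap (ZMod p)⟦X⟧ (FractionRing (ZMod p)⟦X⟧)).comp (P4x.red p)) n G a e
  rw [RingHom.comp_apply, h2, map_zero, RingHom.comp_apply, RingHom.comp_apply,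
    ← div_mul_cancel₀ (algebraMap (ZMod p)⟦X⟧ (FractionRing (ZMod p)⟦X⟧) (P4x.red p a)) he₁,
    k1.chart _ n G _ _ hG] at h3
  have h5 := (mul_eq_zero.1 h3.symm).resolve_left (pow_ne_zero _ he₁)
  have h6 : IsAlgebraic (ZMod p)
      (algebraMap (ZMod p)⟦X⟧ (FractionRing (ZMod p)⟦X⟧) (P4x.red p a) /
        algebraMap (ZMod p)⟦X⟧ (FractionRing (ZMod p)⟦X⟧) (P4x.red p e)) := by
    refine ⟨G.map (Int.castRingHom (ZMod p)), hne, ?_⟩
    rw [aeval_def, eval₂_map, ← h5, eval_map]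
    congr 1
    exact RingHom.ext_int _ _
  obtain ⟨c, hc⟩ := P4x.alg_frac _ _ he h6
  obtain ⟨c, rfl⟩ := ZMod.intCast_surjective c
  have h8 : P4x.red p (((1 : ℤ) : ℤ⟦X⟧) * a + ((-c : ℤ) : ℤ⟦X⟧) * e) = 0 := by
    rw [map_add, map_mul, map_mul, map_intCast, map_intCast, hc, map_intCast]
    push_cast
    ring
  exact nx_not_dvd_one hp (hI p 1 (-c) hp ((P4x.red_zero_iff p _).1 h8)).1

theorem nx_indep {a e a' e' : ℤ⟦X⟧} (α β γ δ : ℤ) (hd : α * δ - β * γ = 1)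
    (ha : a' = α * a + β * e) (he : e' = γ * a + δ * e) (h : Indep a e) : Indep a' e' := by
  intro p r s hp hdv
  have h1 : (r : ℤ⟦X⟧) * a' + (s : ℤ⟦X⟧) * e' =
      ((r * α + s * γ : ℤ) : ℤ⟦X⟧) * a + ((r * β + s * δ : ℤ) : ℤ⟦X⟧) * e := by
    rw [ha, he]; push_cast; ring
  rw [h1] at hdv
  obtain ⟨h2, h3⟩ := h p _ _ hp hdv
  constructor
  · have h4 : r = δ * (r * α + s * γ) - γ * (r * β + s * δ) := by linear_combination (-r) * hd
    rw [h4]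
    exact dvd_sub (h2.mul_left _) (h3.mul_left _)
  · have h4 : s = α * (r * β + s * δ) - β * (r * α + s * γ) := by linear_combination (-s) * hd
    rw [h4]
    exact dvd_sub (h3.mul_left _) (h2.mul_left _)

/-- a two by two minor -/
def nx_minor (i j : ℕ) (a e : ℤ⟦X⟧) : ℤ :=
  PowerSeries.coeff i a * PowerSeries.coeff j e - PowerSeries.coeff j a * PowerSeries.coeff i e

theorem nx_coeff (i : ℕ) (c : ℤ) (a : ℤ⟦X⟧) :
    PowerSeries.coeff i ((c : ℤ⟦X⟧) * a) = c * PowerSeries.coeff i a := by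
  have h3 : (c : ℤ⟦X⟧) = PowerSeries.C c := (map_intCast (PowerSeries.C (R := ℤ)) c).symm
  rw [h3, PowerSeries.coeff_C_mul]

theorem nx_minor_sub (i j : ℕ) (a e : ℤ⟦X⟧) (α β γ δ : ℤ) :
    nx_minor i j (α * a + β * e) (γ * a + δ * e) = (α * δ - β * γ) * nx_minor i j a e := by
  simp only [nx_minor, map_add, nx_coeff]
  ring

theorem nx_step {a e : ℤ⟦X⟧} {p : ℕ} {r s : ℤ} (hp : p.Prime) (hr : ¬ (p : ℤ) ∣ r)
    (hd : (p : ℤ⟦X⟧) ∣ (r : ℤ⟦X⟧) * a + (s : ℤ⟦X⟧) * e) :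
    ∃ (a' : ℤ⟦X⟧) (k : ℤ), a = ((p : ℤ) : ℤ⟦X⟧) * a' + (k : ℤ⟦X⟧) * e := by
  obtain ⟨c, hc⟩ := hd
  have h1 : IsCoprime (p : ℤ) r :=
    (Prime.coprime_iff_not_dvd (Nat.prime_iff_prime_int.1 hp)).2 hr
  obtain ⟨k, u, hu⟩ := h1
  have h2 : (k : ℤ⟦X⟧) * (p : ℤ⟦X⟧) + (u : ℤ⟦X⟧) * (r : ℤ⟦X⟧) = 1 := by
    exact_mod_cast congrArg (Int.cast (R := ℤ⟦X⟧)) hu
  refine ⟨u * c + k * a, -(u * s), ?_⟩
  push_cast
  linear_combination (-a) * h2 + (u : ℤ⟦X⟧) * hc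

theorem nx_desc (i j : ℕ) (N : ℕ) : ∀ a e : ℤ⟦X⟧, nx_minor i j a e ≠ 0 →
    (nx_minor i j a e).natAbs ≤ N →
    ∃ (a' e' : ℤ⟦X⟧) (v₁ w₁ v₂ w₂ : ℤ), v₁ * w₂ - w₁ * v₂ ≠ 0 ∧ a = v₁ * a' + w₁ * e' ∧
      e = v₂ * a' + w₂ * e' ∧ Indep a' e' := by
  induction N with
  | zero =>
    intro a e h0 h1
    exact absurd (Int.natAbs_eq_zero.1 (Nat.le_zero.1 h1)) h0
  | succ N ih =>
    intro a e h0 h1
    by_cases hI : Indep a e
    · exact ⟨a, e, 1, 0, 0, 1, by norm_num, by simp, by simp, hI⟩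
    unfold Indep at hI
    push Not at hI
    obtain ⟨p, r, s, hp, hd, hn⟩ := hI
    have key : ∀ m m' : ℤ, m = p * m' → m ≠ 0 → m.natAbs ≤ N + 1 → m' ≠ 0 ∧ m'.natAbs ≤ N := by
      intro m m' hm hm0 hm1
      have h2 : m' ≠ 0 := by
        rintro rfl
        exact hm0 (by rw [hm, mul_zero])
      refine ⟨h2, ?_⟩
      rw [hm, Int.natAbs_mul, Int.natAbs_natCast] at hm1
      have h3 := hp.two_le
      have h4 : 0 < m'.natAbs := Int.natAbs_pos.2 h2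
      nlinarith
    have hp0 : (p : ℤ) ≠ 0 := by exact_mod_cast hp.ne_zero
    by_cases hr : (p : ℤ) ∣ r
    · obtain ⟨e', k, hk⟩ := nx_step (a := e) (e := a) (s := r) hp (hn hr) (by rwa [add_comm])
      have h2 : nx_minor i j a e = p * nx_minor i j a e' := by
        have h3 := nx_minor_sub i j a e' 1 0 k p
        rw [add_comm ((k : ℤ⟦X⟧) * a), ← hk] at h3
        simpa using h3
      obtain ⟨h3, h4⟩ := key _ _ h2 h0 h1
      obtain ⟨a₁, e₁, v₁, w₁, v₂, w₂, hdet, ha, he, hI⟩ := ih a e' h3 h4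
      refine ⟨a₁, e₁, v₁, w₁, p * v₂ + k * v₁, p * w₂ + k * w₁, ?_, ha, ?_, hI⟩
      · have h5 : v₁ * (p * w₂ + k * w₁) - w₁ * (p * v₂ + k * v₁) = p * (v₁ * w₂ - w₁ * v₂) := by
          ring
        rw [h5]
        exact mul_ne_zero hp0 hdet
      · push_cast at hk ⊢
        linear_combination hk + (p : ℤ⟦X⟧) * he + (k : ℤ⟦X⟧) * ha
    · obtain ⟨a', k, hk⟩ := nx_step hp hr hd
      have h2 : nx_minor i j a e = p * nx_minor i j a' e := by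
        have h3 := nx_minor_sub i j a' e p k 0 1
        rw [← hk] at h3
        simpa using h3
      obtain ⟨h3, h4⟩ := key _ _ h2 h0 h1
      obtain ⟨a₁, e₁, v₁, w₁, v₂, w₂, hdet, ha, he, hI⟩ := ih a' e h3 h4
      refine ⟨a₁, e₁, p * v₁ + k * v₂, p * w₁ + k * w₂, v₂, w₂, ?_, ?_, he, hI⟩
      · have h5 : (p * v₁ + k * v₂) * w₂ - (p * w₁ + k * w₂) * v₂ = p * (v₁ * w₂ - w₁ * v₂) := by
          ring
        rw [h5]
        exact mul_ne_zero hp0 hdet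
      · push_cast at hk ⊢
        linear_combination hk + (p : ℤ⟦X⟧) * ha + (k : ℤ⟦X⟧) * he

theorem n1 : S_N1 := by
  intro a e hae
  have ha : a ≠ 0 := by
    intro h0
    exact one_ne_zero (hae 1 0 (by simp [h0])).1
  obtain ⟨i, hi⟩ : ∃ i, PowerSeries.coeff i a ≠ 0 := by
    by_contra hc
    push Not at hc
    exact ha (PowerSeries.ext fun i => by rw [hc i, map_zero])
  obtain ⟨j, hj⟩ : ∃ j, nx_minor i j a e ≠ 0 := by
    by_contra hc
    push Not at hc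
    refine hi (hae (-PowerSeries.coeff i e) (PowerSeries.coeff i a) ?_).2
    ext j
    have h1 := hc j
    rw [nx_minor] at h1
    rw [map_add, nx_coeff, nx_coeff, map_zero]
    linear_combination h1
  obtain ⟨a₁, e₁, v₁, w₁, v₂, w₂, hdet, h1, h2, hI⟩ := nx_desc i j _ a e hj le_rfl
  by_cases h0 : PowerSeries.constantCoeff a₁ = 0
  · exact ⟨a₁, e₁, v₁, w₁, v₂, w₂, hdet, h1, h2, hI, h0⟩
  obtain ⟨c, d, hg, hc, hd⟩ := Int.exists_gcd_one
    (Int.gcd_pos_of_ne_zero_left (PowerSeries.constantCoeff e₁) h0)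
  obtain ⟨x, y, hxy⟩ := Int.isCoprime_iff_gcd_eq_one.2 hg
  have hxy' : (x : ℤ⟦X⟧) * c + (y : ℤ⟦X⟧) * d = 1 := by
    exact_mod_cast congrArg (Int.cast (R := ℤ⟦X⟧)) hxy
  refine ⟨d * a₁ + ((-c : ℤ) : ℤ⟦X⟧) * e₁, x * a₁ + y * e₁, v₁ * y - w₁ * x, v₁ * c + w₁ * d,
    v₂ * y - w₂ * x, v₂ * c + w₂ * d, ?_, ?_, ?_,
    nx_indep d (-c) x y (by linear_combination hxy) rfl rfl hI, ?_⟩
  · have h5 : (v₁ * y - w₁ * x) * (v₂ * c + w₂ * d) - (v₁ * c + w₁ * d) * (v₂ * y - w₂ * x) =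
        v₁ * w₂ - w₁ * v₂ := by linear_combination (v₁ * w₂ - w₁ * v₂) * hxy
    rwa [h5]
  · push_cast
    linear_combination h1 - ((v₁ : ℤ⟦X⟧) * a₁ + w₁ * e₁) * hxy'
  · push_cast
    linear_combination h2 - ((v₂ : ℤ⟦X⟧) * a₁ + w₂ * e₁) * hxy'
  · rw [map_add, map_mul, map_mul, map_intCast, map_intCast, Int.cast_id, Int.cast_id]
    linear_combination d * hc - c * hd

end

end Pool.Agent.MP_b2c033_nt.H95
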