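import Pool.Agent.MP_b2c033_nt.H95.N1

/-! Primitive points and the model `η ^ 2 + T η = P`. -/

namespace Pool.Agent.MP_b2c033_nt.H95

open Polynomial
open Pool.Agent.MP_b2c033_nt.H87
open scoped PowerSeries

noncomputable section

theorem nx_deg {c : ℤ} (hc : c ≠ 0) {F G : ℤ[X]} {n : ℕ} (h : F = C c * G)
    (hF : F.natDegree ≤ n) : G.natDegree ≤ n := by
  rwa [h, natDegree_C_mul hc] at hF

theorem nx_prime {p : ℕ} (hp : p.Prime) {a b : ℤ⟦X⟧} (h : (p : ℤ⟦X⟧) ∣ a * b) :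
    (p : ℤ⟦X⟧) ∣ a ∨ (p : ℤ⟦X⟧) ∣ b := by
  have : Fact p.Prime := ⟨hp⟩
  rw [← P4x.red_zero_iff, map_mul, mul_eq_zero, P4x.red_zero_iff, P4x.red_zero_iff] at h
  exact h

theorem nx_n2 (k1 : S_K1) (k2 : S_K2) (n : ℕ) (a e : ℤ⟦X⟧) (hI : Indep a e) (N : ℕ) :
    ∀ (b : ℤ⟦X⟧) (F : ℤ[X]), F.leadingCoeff.natAbs ≤ N → F.natDegree ≤ n → F ≠ 0 →
    b ^ 2 = hev n F a e → ∃ (c : ℤ) (G : ℤ[X]) (b' : ℤ⟦X⟧), c ≠ 0 ∧ F = C (c ^ 2) * G ∧
      b = c * b' ∧ b' ^ 2 = hev n G a e ∧ ∀ p : ℕ, p.Prime → ¬ (p : ℤ⟦X⟧) ∣ b' := by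
  induction N with
  | zero =>
    intro b F h1 _ h0 _
    exact absurd (leadingCoeff_eq_zero.1 (Int.natAbs_eq_zero.1 (Nat.le_zero.1 h1))) h0
  | succ N ih =>
    intro b F h1 hF h0 hb
    by_cases hpr : ∀ p : ℕ, p.Prime → ¬ (p : ℤ⟦X⟧) ∣ b
    · exact ⟨1, F, b, one_ne_zero, by simp, by simp, hb, hpr⟩
    push Not at hpr
    obtain ⟨p, hp, b₁, rfl⟩ := hpr
    have : Fact p.Prime := ⟨hp⟩
    have hp0 : (p : ℤ) ≠ 0 := by exact_mod_cast hp.ne_zero
    obtain ⟨F₁, hF₁⟩ := k2 a e p n F hI hp hF ⟨p * b₁ ^ 2, by rw [← hb]; ring⟩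
    have hd₁ := nx_deg hp0 hF₁ hF
    have h2 : (p : ℤ⟦X⟧) * b₁ ^ 2 = hev n F₁ a e := by
      apply mul_left_cancel₀ (P4x.p_ne p)
      rw [hF₁, k1.smul] at hb
      push_cast at hb
      linear_combination hb
    obtain ⟨F₂, hF₂⟩ := k2 a e p n F₁ hI hp hd₁ ⟨b₁ ^ 2, h2.symm⟩
    have hd₂ := nx_deg hp0 hF₂ hd₁
    have h3 : b₁ ^ 2 = hev n F₂ a e := by
      apply mul_left_cancel₀ (P4x.p_ne p)
      rw [hF₂, k1.smul] at h2
      push_cast at h2
      exact h2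
    have h4 : F₂ ≠ 0 := by
      rintro rfl
      exact h0 (by rw [hF₁, hF₂, mul_zero, mul_zero])
    have h5 : F₂.leadingCoeff.natAbs ≤ N := by
      rw [hF₁, hF₂, leadingCoeff_mul, leadingCoeff_mul, leadingCoeff_C, Int.natAbs_mul,
        Int.natAbs_mul, Int.natAbs_natCast] at h1
      have h6 := hp.two_le
      have h7 : 0 < F₂.leadingCoeff.natAbs := Int.natAbs_pos.2 (leadingCoeff_ne_zero.2 h4)
      have h8 : 2 * F₂.leadingCoeff.natAbs ≤ p * F₂.leadingCoeff.natAbs :=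
        Nat.mul_le_mul_right _ h6
      have h9 : 2 * (p * F₂.leadingCoeff.natAbs) ≤ p * (p * F₂.leadingCoeff.natAbs) :=
        Nat.mul_le_mul_right _ h6
      omega
    obtain ⟨c, G, b', hc, hG, hb', hq, hpr⟩ := ih b₁ F₂ h5 hd₂ h4 h3
    refine ⟨p * c, G, b', mul_ne_zero hp0 hc, ?_, ?_, hq, hpr⟩
    · rw [hF₁, hF₂, hG, mul_pow, C_mul, pow_two (p : ℤ), C_mul]
      ring
    · rw [hb']
      push_cast
      ring

theorem n2 (k1 : S_K1) (k2 : S_K2) : S_N2 := fun n a e b F hI hF h0 hb =>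
  nx_n2 k1 k2 n a e hI _ b F le_rfl hF h0 hb

theorem nx_neg (k1 : S_K1) {R : Type} [CommRing R] (n : ℕ) (p q : ℤ[X]) (a e : R) :
    hev n (p - q) a e = hev n p a e - hev n q a e := by
  have h := k1.add R n (p - q) q a e
  rw [sub_add_cancel] at h
  rw [h, add_sub_cancel_right]

theorem nx_sq (k1 : S_K1) {R : Type} [CommRing R] (h : ℕ) (T : ℤ[X]) (hT : T.natDegree ≤ h)
    (a e : R) : hev (2 * h) (T ^ 2) a e = hev h T a e ^ 2 := by
  rw [two_mul, pow_two, pow_two, k1.mul R h h T T a e hT hT]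

theorem nx_square (h : ℕ) (G : ℤ[X]) (hG : G.natDegree ≤ 2 * h)
    (hd : C (2 : ℤ) ∣ derivative G) : ∃ T : ℤ[X], T.natDegree ≤ h ∧ C (2 : ℤ) ∣ G - T ^ 2 := by
  have : Fact (Nat.Prime 2) := ⟨Nat.prime_two⟩
  have h1 : derivative (G.map (Int.castRingHom (ZMod 2))) = 0 := by
    obtain ⟨Q, hQ⟩ := hd
    have h2 : (Int.castRingHom (ZMod 2)) 2 = 0 :=
      (ZMod.intCast_zmod_eq_zero_iff_dvd 2 2).2 (by norm_num)
    rw [derivative_map, hQ, Polynomial.map_mul, map_C, h2, C_0, zero_mul]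
  have h2 := expand_contract 2 h1 two_ne_zero
  rw [ZMod.expand_card] at h2
  have h3 : contract 2 (G.map (Int.castRingHom (ZMod 2))) ∈ lifts (Int.castRingHom (ZMod 2)) := by
    rw [mem_lifts]
    exact map_surjective _ (ZMod.ringHom_surjective _) _
  obtain ⟨T, hT, hdeg⟩ := exists_degree_eq_of_mem_lifts h3
  refine ⟨T, ?_, ?_⟩
  · have h4 := natDegree_eq_of_degree_eq hdeg
    have h5 := congrArg natDegree h2
    rw [natDegree_pow] at h5
    have h6 : (G.map (Int.castRingHom (ZMod 2))).natDegree ≤ G.natDegree := natDegree_map_le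
    omega
  · have h4 := nx_C_dvd 2 (G - T ^ 2)
      (by rw [Polynomial.map_sub, Polynomial.map_pow, hT, h2, sub_self])
    exact_mod_cast h4

theorem n3 (k1 : S_K1) (k2 : S_K2) : S_N3 := by
  intro h a e b G hI hG hb hpr
  have : Fact (Nat.Prime 2) := ⟨Nat.prime_two⟩
  have h20 : (2 : ℤ⟦X⟧) ≠ 0 := by exact_mod_cast P4x.p_ne 2
  by_cases hA : ∃ T : ℤ[X], T.natDegree ≤ h ∧ C (2 : ℤ) ∣ G - T ^ 2
  · obtain ⟨T, hT, G₁, hG₁⟩ := hA
    have hT2 : (T ^ 2).natDegree ≤ 2 * h := natDegree_pow_le.trans (Nat.mul_le_mul_left _ hT)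
    have hd₀ : (G - T ^ 2).natDegree ≤ 2 * h := (natDegree_sub_le _ _).trans (max_le hG hT2)
    have hd₁ := nx_deg two_ne_zero hG₁ hd₀
    have h1 : b ^ 2 - hev h T a e ^ 2 = 2 * hev (2 * h) G₁ a e := by
      have h2 := congrArg (fun Q => hev (2 * h) Q a e) hG₁
      simp only [nx_neg k1, nx_sq k1 h T hT, k1.smul] at h2
      rw [hb, h2]
      norm_num
    have h2 : ((2 : ℕ) : ℤ⟦X⟧) ∣ (b - hev h T a e) * (b - hev h T a e) :=
      ⟨hev (2 * h) G₁ a e - hev h T a e * (b - hev h T a e), by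
        push_cast; linear_combination h1⟩
    obtain ⟨η, hη⟩ := (or_self_iff).1 (nx_prime Nat.prime_two h2)
    push_cast at hη
    have h3 : hev (2 * h) G₁ a e = 2 * (η ^ 2 + hev h T a e * η) := by
      apply mul_left_cancel₀ h20
      linear_combination (-1 : ℤ⟦X⟧) * h1 + (b + hev h T a e + 2 * η) * hη
    obtain ⟨P, hP⟩ := k2 a e 2 (2 * h) G₁ hI Nat.prime_two hd₁ ⟨_, by push_cast; exact h3⟩
    push_cast at hP
    have hb' : 2 * η + hev h T a e = b := by linear_combination -hη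
    refine ⟨T, P, η, 1, one_ne_zero, hT, nx_deg two_ne_zero hP hd₁, ?_, ?_, ?_, ?_⟩
    · apply mul_left_cancel₀ h20
      rw [← h3, hP, k1.smul]
      norm_num
    · have h4 : (C (4 : ℤ) : ℤ[X]) = C 2 * C 2 := by rw [← C_mul]; norm_num
      rw [one_pow, C_1, one_mul, h4, mul_assoc, ← hP, ← hG₁]
      ring
    · rw [hb']; simp
    · intro p hp hd
      rw [hb'] at hd
      exact absurd hd (hpr p hp)
  · have h0 : hev h (0 : ℤ[X]) a e = 0 := by simp [hev]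
    refine ⟨0, G, b, 2, two_ne_zero, by simp, hG, by rw [h0, hb]; ring, by norm_num,
      by rw [h0]; norm_num, ?_⟩
    intro p hp hd
    rw [h0, add_zero] at hd
    refine ⟨?_, rfl, fun hd' => hA (nx_square h G hG hd')⟩
    obtain ⟨c, hc⟩ := (nx_prime hp hd).resolve_right (hpr p hp)
    have h1 := congrArg (PowerSeries.constantCoeff (R := ℤ)) hc
    rw [map_mul, map_natCast, map_ofNat] at h1
    have h2 : (p : ℤ) ∣ ((2 : ℕ) : ℤ) := ⟨_, h1⟩
    exact (Nat.prime_dvd_prime_iff_eq hp Nat.prime_two).1 (Int.natCast_dvd_natCast.1 h2)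

end

end Pool.Agent.MP_b2c033_nt.H95
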