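import Pool.Agent.MP_b2c033_nt.H95.K3

/-! Reduction of binary forms with balanced roots. -/

set_option autoImplicit false

namespace Pool.Agent.MP_b2c033_nt.H95

open Polynomial Finset
open scoped ComplexConjugate

theorem r1 : S_R1 := by
  intro A B C Δ q Q hq hΔ hQ hlow
  have hw : ∀ v₁ w₁ v₂ w₂ : ℤ, v₁ * w₂ - w₁ * v₂ = 1 → q ≤ Q w₁ w₂ := fun v₁ w₁ v₂ w₂ h =>
    hlow w₁ (-v₁) w₂ (-v₂) (by linear_combination h)
  let T : Set ℝ := {t | ∃ v₁ w₁ v₂ w₂ : ℤ, v₁ * w₂ - w₁ * v₂ = 1 ∧ t = Q v₁ v₂ + Q w₁ w₂}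
  have hb : BddBelow T := ⟨0, by
    rintro _ ⟨v₁, w₁, v₂, w₂, h, rfl⟩
    linarith [hlow _ _ _ _ h, hw _ _ _ _ h]⟩
  obtain ⟨_, ⟨v₁, w₁, v₂, w₂, h, rfl⟩, hlt⟩ := exists_lt_of_csInf_lt (s := T)
    ⟨_, 1, 0, 0, 1, by norm_num, rfl⟩ (lt_add_of_pos_right (sInf T) (half_pos hq))
  have m1 := csInf_le hb ⟨v₁, w₁ + v₁, v₂, w₂ + v₂, by linear_combination h, rfl⟩
  have m2 := csInf_le hb ⟨v₁, w₁ - v₁, v₂, w₂ - v₂, by linear_combination h, rfl⟩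
  have m3 := csInf_le hb ⟨v₁ + w₁, w₁, v₂ + w₂, w₂, by linear_combination h, rfl⟩
  have m4 := csInf_le hb ⟨v₁ - w₁, w₁, v₂ - w₂, w₂, by linear_combination h, rfl⟩
  have l1 := hlow _ _ _ _ h
  have l2 := hw _ _ _ _ h
  obtain ⟨b, hb⟩ : ∃ b : ℝ, b = A * v₁ * w₁ - B * (v₁ * w₂ + w₁ * v₂) + C * v₂ * w₂ := ⟨_, rfl⟩
  have e1 : Q (w₁ + v₁) (w₂ + v₂) = Q w₁ w₂ + 2 * b + Q v₁ v₂ := by
    simp only [hQ, hb]; push_cast; ring
  have e2 : Q (w₁ - v₁) (w₂ - v₂) = Q w₁ w₂ - 2 * b + Q v₁ v₂ := by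
    simp only [hQ, hb]; push_cast; ring
  have e3 : Q (v₁ + w₁) (v₂ + w₂) = Q w₁ w₂ + 2 * b + Q v₁ v₂ := by
    simp only [hQ, hb]; push_cast; ring
  have e4 : Q (v₁ - w₁) (v₂ - w₂) = Q w₁ w₂ - 2 * b + Q v₁ v₂ := by
    simp only [hQ, hb]; push_cast; ring
  have h' : (v₁ : ℝ) * w₂ - w₁ * v₂ = 1 := by exact_mod_cast h
  have e5 : Q v₁ v₂ * Q w₁ w₂ - b ^ 2 = (A * C - B ^ 2) * (v₁ * w₂ - w₁ * v₂) ^ 2 := by
    simp only [hQ, hb]; ring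
  rw [h', one_pow, mul_one] at e5
  refine ⟨v₁, w₁, v₂, w₂, h, ?_⟩
  rw [le_div_iff₀ hq, le_div_iff₀ hq]
  generalize Q v₁ v₂ = x at *
  generalize Q w₁ w₂ = y at *
  have b1 : |b| ≤ 3 / 4 * x := abs_le.2 ⟨by linarith, by linarith⟩
  have b2 : |b| ≤ 3 / 4 * y := abs_le.2 ⟨by linarith, by linarith⟩
  have b3 : b ^ 2 ≤ 3 / 4 * x * (3 / 4 * y) := by
    rw [← sq_abs, sq]
    exact mul_le_mul b1 b2 (abs_nonneg _) (by linarith)
  constructor <;> nlinarith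

theorem rx_coeff (a b : ℂ → ℂ) (s : Finset ℂ) :
    ∀ i, ‖(∏ α ∈ s, (C (a α) * X + C (b α))).coeff i‖ ≤ ∏ α ∈ s, (‖a α‖ + ‖b α‖) := by
  classical
  induction s using Finset.induction_on with
  | empty => intro i; simp only [prod_empty, coeff_one]; split_ifs <;> simp
  | insert α s hα ih =>
    intro i
    have h0 : 0 ≤ ∏ α ∈ s, (‖a α‖ + ‖b α‖) := (norm_nonneg _).trans (ih 0)
    rw [prod_insert hα, prod_insert hα, add_mul, add_mul, coeff_add, mul_assoc, coeff_C_mul,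
      coeff_C_mul]
    refine (norm_add_le _ _).trans (add_le_add ?_ ?_) <;> rw [norm_mul] <;>
      refine mul_le_mul_of_nonneg_left ?_ (norm_nonneg _)
    · rcases i with _ | i
      · simpa using h0
      · rw [coeff_X_mul]; exact ih i
    · exact ih i

/-- symmetric weights -/
theorem rx_wt {s : Finset ℂ} {g c D : ℝ} (hg : 0 ≤ g) (hc : 0 < c) (hs : ∀ α ∈ s, conj α ∈ s)
    (h : Bal s g c D) : ∃ ω : ℂ → ℝ, (∀ α ∈ s, 0 < ω α) ∧ c ^ 2 * g ^ 2 ≤ ∏ α ∈ s, ω α ∧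
      (∀ α ∈ s, ∀ β ∈ s, ω α * ω β * ‖α - β‖ ^ 2 ≤ D ^ 2) ∧ ∑ α ∈ s, ω α * α.im = 0 := by
  obtain ⟨k, h1, h2, h3⟩ := h
  have pc : ∏ α ∈ s, k (conj α) = ∏ α ∈ s, k α :=
    prod_nbij' conj conj hs hs (by simp) (by simp) fun _ _ => rfl
  refine ⟨fun α => k α * k (conj α), fun α hα => mul_pos (h1 α hα) (h1 _ (hs α hα)), ?_,
    fun α hα β hβ => ?_, ?_⟩
  · rw [prod_mul_distrib, pc, ← mul_pow, ← sq]
    exact pow_le_pow_left₀ (by positivity) h2 2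
  · have a1 := h3 α hα β hβ
    have a2 := h3 _ (hs α hα) _ (hs β hβ)
    rw [← map_sub, Complex.norm_conj] at a2
    have a3 := mul_nonneg (mul_pos (h1 _ (hs α hα)) (h1 _ (hs β hβ))).le (norm_nonneg (α - β))
    refine le_of_eq_of_le (by ring) ((mul_le_mul a1 a2 a3 (a3.trans a2)).trans_eq (sq D).symm)
  · have : ∑ α ∈ s, k α * k (conj α) * α.im = ∑ α ∈ s, -(k α * k (conj α) * α.im) :=
      sum_nbij' conj conj hs hs (by simp) (by simp) fun α _ => by simp [mul_comm]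
    rw [sum_neg_distrib] at this
    linarith

theorem rx_det {s : Finset ℂ} {ω : ℂ → ℝ} {D : ℝ}
    (h3 : ∀ α ∈ s, ∀ β ∈ s, ω α * ω β * ‖α - β‖ ^ 2 ≤ D ^ 2) (h4 : ∑ α ∈ s, ω α * α.im = 0) :
    (∑ α ∈ s, ω α) * (∑ α ∈ s, ω α * ‖α‖ ^ 2) - (∑ α ∈ s, ω α * α.re) ^ 2 ≤
      s.card ^ 2 * D ^ 2 := by
  have e : ∑ α ∈ s, ∑ β ∈ s, ω α * ω β * ‖α - β‖ ^ 2 =
      (∑ α ∈ s, ω α) * (∑ α ∈ s, ω α * ‖α‖ ^ 2) + (∑ α ∈ s, ω α * ‖α‖ ^ 2) * (∑ α ∈ s, ω α) -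
        2 * ((∑ α ∈ s, ω α * α.re) * ∑ α ∈ s, ω α * α.re) -
        2 * ((∑ α ∈ s, ω α * α.im) * ∑ α ∈ s, ω α * α.im) := by
    simp only [sum_mul_sum]
    simp only [mul_sum, ← sum_add_distrib, ← sum_sub_distrib]
    refine sum_congr rfl fun α _ => sum_congr rfl fun β _ => ?_
    simp only [Complex.sq_norm, Complex.normSq_apply, Complex.sub_re, Complex.sub_im]
    ring
  have b : ∑ α ∈ s, ∑ β ∈ s, ω α * ω β * ‖α - β‖ ^ 2 ≤ s.card ^ 2 * D ^ 2 :=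
    (sum_le_sum fun α hα => sum_le_sum fun β hβ => h3 α hα β hβ).trans_eq (by simp; ring)
  rw [e, h4] at b
  nlinarith [mul_nonneg (sq_nonneg (s.card : ℝ)) (sq_nonneg D)]

theorem rx_small {x M y : ℝ} {m : ℕ} (hm : 1 ≤ m) (hx : 0 ≤ x) (hM : 0 ≤ M) (hy : y ≤ M * x ^ m) :
    min 1 (y / (M + 1)) ≤ x := by
  rcases le_total 1 x with h | h
  · exact (min_le_left _ _).trans h
  · refine (min_le_right _ _).trans ((div_le_iff₀ (by positivity)).2 (hy.trans ?_))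
    nlinarith [mul_le_mul_of_nonneg_left (pow_le_of_le_one hx h (by omega : m ≠ 0)) hM]

theorem rx_low (k1 : S_K1) {n : ℕ} {c D : ℝ} (hn : 3 ≤ n) {G : ℤ[X]} {s : Finset ℂ}
    (hR : Roots n G s) {ω : ℂ → ℝ} (h1 : ∀ α ∈ s, 0 < ω α)
    (h2 : c ^ 2 * |(G.coeff n : ℝ)| ^ 2 ≤ ∏ α ∈ s, ω α)
    (h3 : ∀ α ∈ s, ∀ β ∈ s, ω α * ω β * ‖α - β‖ ^ 2 ≤ D ^ 2) {v₁ w₁ v₂ w₂ : ℤ}
    (hd : v₁ * w₂ - w₁ * v₂ = 1) :
    min 1 (c ^ 2 / (D ^ 2 + 1 + 1)) ≤ ∑ α ∈ s, ω α * ‖(v₁ : ℂ) - α * v₂‖ ^ 2 := by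
  classical
  obtain ⟨x, hx⟩ : ∃ x, x = ∑ α ∈ s, ω α * ‖(v₁ : ℂ) - α * v₂‖ ^ 2 := ⟨_, rfl⟩
  have t0 : ∀ α ∈ s, 0 ≤ ω α * ‖(v₁ : ℂ) - α * v₂‖ ^ 2 := fun α hα =>
    mul_nonneg (h1 α hα).le (sq_nonneg _)
  have t1 : ∀ α ∈ s, ω α * ‖(v₁ : ℂ) - α * v₂‖ ^ 2 ≤ x := fun α hα => hx ▸ single_le_sum t0 hα
  have x0 : 0 ≤ x := hx ▸ sum_nonneg t0
  have hd' : (v₁ : ℂ) * w₂ - w₁ * v₂ = 1 := by exact_mod_cast hd
  have hg : (G.coeff n : ℂ) ≠ 0 := Int.cast_ne_zero.2 hR.2.1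
  have one : ∀ (z : ℤ) (f : ℂ → ℂ), (z : ℂ) = G.coeff n * ∏ α ∈ s, f α → (∀ α ∈ s, f α ≠ 0) →
      c ^ 2 ≤ ∏ α ∈ s, ω α * ‖f α‖ ^ 2 := fun z f e hf => by
    have z0 : z ≠ 0 := Int.cast_ne_zero.1 (e ▸ mul_ne_zero hg (prod_ne_zero_iff.2 hf))
    have z1 : (1 : ℝ) ≤ |(z : ℝ)| := by exact_mod_cast Int.one_le_abs z0
    have e2 := congrArg norm e
    rw [norm_mul, Complex.norm_intCast, Complex.norm_intCast, norm_prod] at e2
    rw [prod_mul_distrib, prod_pow]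
    refine le_trans ?_ (mul_le_mul_of_nonneg_right h2 (sq_nonneg _))
    rw [mul_assoc, ← mul_pow, ← e2]
    exact le_mul_of_one_le_right (sq_nonneg _) (one_le_pow₀ z1)
  rw [← hx]
  by_cases h0 : ∀ α ∈ s, (v₁ : ℂ) - α * v₂ ≠ 0
  · refine rx_small (m := n) (by omega) x0 (by positivity) ?_
    refine (one _ _ ((rx_cast k1 n G v₁ v₂).trans (hR.2.2.2 _ _)) h0).trans
      ((prod_le_prod t0 t1).trans ?_)
    rw [prod_const, hR.2.2.1]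
    exact le_mul_of_one_le_left (pow_nonneg x0 _) (by nlinarith [sq_nonneg D])
  · push Not at h0
    obtain ⟨α, hα, h0⟩ := h0
    have key : ∀ β, ((v₁ : ℂ) - β * v₂) * (w₁ - α * w₂) = β - α := fun β => by
      linear_combination (β - α) * hd' + (w₁ - β * w₂) * h0
    obtain ⟨m, rfl⟩ : ∃ m, n = m + 1 := ⟨n - 1, by omega⟩
    obtain ⟨G', -, hG⟩ := k1.sub (m + 1) G v₁ w₁ v₂ w₂
    have e0 : G'.coeff (m + 1) = 0 := by
      have := hG ℂ 1 0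
      rw [rx_top k1, hR.2.2.2, prod_eq_zero hα (by simpa using h0)] at this
      simpa using this
    have e1 : (fun V : ℂ => hev m G' 1 V) = fun V => G.coeff (m + 1) * ((w₁ - α * w₂) *
        ∏ β ∈ s.erase α, ((v₁ * 1 + w₁ * V) - β * (v₂ * 1 + w₂ * V))) := by
      refine Continuous.ext_on (dense_compl_singleton 0) (by unfold hev; fun_prop) (by fun_prop)
        fun V hV => mul_left_cancel₀ hV ?_
      rw [← rx_succ e0, hG, hR.2.2.2, ← mul_prod_erase s _ hα]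
      linear_combination (G.coeff (m + 1) *
        ∏ β ∈ s.erase α, ((v₁ * 1 + w₁ * V) - β * (v₂ * 1 + w₂ * V))) * h0
    have e2 := congrFun e1 0
    simp only [rx_top k1, one_pow, mul_one, mul_zero, add_zero] at e2
    obtain ⟨β, hβ, hne⟩ := exists_mem_ne (s := s) (by rw [hR.2.2.1]; omega) α
    have hβ' : β ∈ s.erase α := mem_erase.2 ⟨hne, hβ⟩
    have pe : ∀ {M : Type} [CommMonoid M] (F : ℂ → ℂ → M),
        ∏ γ ∈ s, F γ (if γ = α then w₁ - α * w₂ else v₁ - γ * v₂) =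
          F α (w₁ - α * w₂) * ∏ γ ∈ s.erase α, F γ (v₁ - γ * v₂) := fun F => by
      rw [← mul_prod_erase s _ hα, if_pos rfl]
      congr 1
      exact prod_congr rfl fun γ hγ => by rw [if_neg (ne_of_mem_erase hγ)]
    have b := one _ (fun γ => if γ = α then w₁ - α * w₂ else v₁ - γ * v₂)
      (e2.trans (by rw [pe fun _ z => z])) fun γ _ => by
        split_ifs with h
        · exact right_ne_zero_of_mul ((key β).symm ▸ sub_ne_zero.2 hne)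
        · exact left_ne_zero_of_mul ((key γ).symm ▸ sub_ne_zero.2 h)
    rw [pe fun γ z => ω γ * ‖z‖ ^ 2, ← mul_prod_erase _ _ hβ', ← mul_assoc] at b
    refine rx_small (m := m - 1) (by omega) x0 (by positivity) (b.trans (mul_le_mul ?_ ?_
      (prod_nonneg fun γ hγ => t0 γ (mem_of_mem_erase (mem_of_mem_erase hγ))) (by positivity)))
    · have := h3 β hβ α hα
      rw [← key, norm_mul] at this
      linarith
    · refine (prod_le_prod (fun γ hγ => t0 γ (mem_of_mem_erase (mem_of_mem_erase hγ)))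
        fun γ hγ => t1 γ (mem_of_mem_erase (mem_of_mem_erase hγ))).trans_eq ?_
      rw [prod_const, card_erase_of_mem hβ', card_erase_of_mem hα, hR.2.2.1, Nat.add_sub_cancel]

theorem rr (k1 : S_K1) (k4 : S_K4) (r1 : S_R1) : S_R := by
  intro n c D hn hc
  obtain ⟨q, hq⟩ : ∃ q : ℝ, q = min 1 (c ^ 2 / (D ^ 2 + 1 + 1)) := ⟨_, rfl⟩
  have q0 : 0 < q := hq ▸ lt_min one_pos (by positivity)
  obtain ⟨E, hE⟩ : ∃ E : ℝ, E = 3 * (n ^ 2 * D ^ 2) / q := ⟨_, rfl⟩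
  refine ⟨⌈(4 * E) ^ n / c ^ 2⌉₊, fun G s hR hB => ?_⟩
  obtain ⟨ω, h1, h2, h3, h4⟩ := rx_wt (abs_nonneg _) hc (k4.cnj n G s hR) hB
  obtain ⟨v₁, w₁, v₂, w₂, hd, b1, b2⟩ := r1 _ _ _ _ q
    (fun x z => ∑ α ∈ s, ω α * ‖(x : ℂ) - α * z‖ ^ 2) q0 (rx_det h3 h4) (fun x z => by
      simp only [sum_mul, mul_sum, ← sum_add_distrib, ← sum_sub_distrib]
      refine sum_congr rfl fun α _ => ?_
      simp only [Complex.sq_norm, Complex.normSq_apply, Complex.sub_re, Complex.sub_im,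
        Complex.mul_re, Complex.mul_im, Complex.intCast_re, Complex.intCast_im]
      ring) fun v₁ w₁ v₂ w₂ hd => hq ▸ rx_low k1 hn hR h1 h2 h3 hd
  rw [hR.2.2.1, ← hE] at b1 b2
  obtain ⟨G', hG', hG⟩ := k1.sub n G v₁ w₁ v₂ w₂
  refine ⟨v₁, w₁, v₂, w₂, G', hd, fun i => ?_, hG _⟩
  have e : G'.map (Int.castRingHom ℂ) = C (G.coeff n : ℂ) *
      ∏ α ∈ s, (C (v₁ - α * v₂) * X + C (w₁ - α * w₂)) := by
    refine Polynomial.funext fun x => ?_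
    have := k1.chart ℂ n G' x 1 hG'
    rw [hG, hR.2.2.2, one_pow, one_mul] at this
    rw [← this, eval_mul, eval_C, eval_prod]
    congr 1
    refine prod_congr rfl fun α _ => ?_
    rw [eval_add, eval_mul, eval_C, eval_C, eval_X]
    ring
  have e1 := congrArg (fun f => ‖f.coeff i‖) e
  simp only [coeff_map, coeff_C_mul, norm_mul, eq_intCast, Complex.norm_intCast] at e1
  have b3 := pow_le_pow_left₀ (norm_nonneg _)
    (rx_coeff (fun α => v₁ - α * v₂) (fun α => w₁ - α * w₂) s i) 2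
  have b4 : (∏ α ∈ s, ω α) * (∏ α ∈ s, (‖(v₁ : ℂ) - α * v₂‖ + ‖(w₁ : ℂ) - α * w₂‖)) ^ 2 ≤
      (4 * E) ^ n := by
    rw [← prod_pow, ← prod_mul_distrib, ← hR.2.2.1, ← prod_const]
    refine prod_le_prod (fun α hα => mul_nonneg (h1 α hα).le (sq_nonneg _)) fun α hα => ?_
    have t1 := (single_le_sum (f := fun α => ω α * ‖(v₁ : ℂ) - α * v₂‖ ^ 2)
      (fun α hα => mul_nonneg (h1 α hα).le (sq_nonneg _)) hα).trans b1
    have t2 := (single_le_sum (f := fun α => ω α * ‖(w₁ : ℂ) - α * w₂‖ ^ 2)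
      (fun α hα => mul_nonneg (h1 α hα).le (sq_nonneg _)) hα).trans b2
    nlinarith [mul_nonneg (h1 α hα).le (sq_nonneg (‖(v₁ : ℂ) - α * v₂‖ - ‖(w₁ : ℂ) - α * w₂‖))]
  have b5 : |(G'.coeff i : ℝ)| ^ 2 ≤ (4 * E) ^ n / c ^ 2 := by
    rw [le_div_iff₀ (by positivity), e1, mul_pow]
    refine le_of_eq_of_le (by ring) ((mul_le_mul h2 b3 (sq_nonneg _)
      (le_trans (by positivity) h2)).trans b4)
  have b6 : |G'.coeff i| ≤ |G'.coeff i| ^ 2 := Int.le_self_sq _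
  have b7 : ((|G'.coeff i| : ℤ) : ℝ) ≤ ((⌈(4 * E) ^ n / c ^ 2⌉₊ : ℕ) : ℝ) := by
    refine le_trans ?_ (b5.trans (Nat.le_ceil _))
    exact_mod_cast b6
  exact_mod_cast b7

end Pool.Agent.MP_b2c033_nt.H95
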