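import Pool.Agent.MP_b2c033_nt.H95.S2

/-! The leading coefficient at the cusp. -/

namespace Pool.Agent.MP_b2c033_nt.H95

open Polynomial Finset
open scoped PowerSeries

theorem sx_low {R : Type} [CommRing R] (n : ℕ) (p : ℤ[X]) (a e : R) : ∃ ρ : R,
    hev (n + 1) p a e = p.coeff 0 * e ^ (n + 1) + p.coeff 1 * a * e ^ n + a ^ 2 * ρ := by
  refine ⟨∑ i ∈ range n, (p.coeff (i + 2) : R) * a ^ i * e ^ (n + 1 - (i + 2)), ?_⟩
  unfold hev
  rw [sum_range_succ', sum_range_succ', mul_sum]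
  simp only [zero_add, pow_zero, pow_one, Nat.sub_zero, Nat.add_sub_cancel, mul_one]
  rw [sum_congr rfl fun i _ => show (p.coeff (i + 1 + 1) : R) * a ^ (i + 1 + 1) *
    e ^ (n + 1 - (i + 1 + 1)) = a ^ 2 * ((p.coeff (i + 2) : R) * a ^ i * e ^ (n + 1 - (i + 2))) by
      ring]
  ring

theorem sx_pol0 {R : Type} [CommRing R] (k : ℕ) (P : ℤ[X]) (a e E : R) :
    pol (k + 1) P a e 0 E = E ^ (k + 1) * (2 * P.coeff 0 * e ^ (k + 1) + P.coeff 1 * a * e ^ k) := by
  unfold pol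
  rw [show 2 * (k + 1) + 1 = 2 * k + 1 + 1 + 1 by ring, sum_range_succ', sum_range_succ',
    sum_eq_zero fun i _ => by
      rw [zero_pow (show (i + 1 + 1) / 2 ≠ 0 by omega),
        zero_pow (show (i + 1 + 1 + 1) / 2 ≠ 0 by omega)]
      simp]
  simp
  ring

theorem sx_hev0 {R : Type} [CommRing R] (k : ℕ) (T : ℤ[X]) (E : R) :
    hev (k + 1) T 0 E = T.coeff 0 * E ^ (k + 1) := by
  obtain ⟨ρ, h⟩ := sx_low k T (0 : R) E
  rw [h]
  ring

theorem sx_cancel {Y Z σ : ℤ⟦X⟧} {m : ℕ} (hY : PowerSeries.constantCoeff Y ≠ 0)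
    (h : PowerSeries.X ^ m * Z = Y * σ) :
    ∃ t : ℤ, PowerSeries.constantCoeff Z = PowerSeries.constantCoeff Y * t := by
  obtain ⟨σ', rfl⟩ := PowerSeries.X_prime.pow_dvd_of_dvd_mul_left m
    (fun hd => hY (PowerSeries.X_dvd_iff.1 hd)) ⟨Z, h.symm⟩
  refine ⟨PowerSeries.constantCoeff σ', ?_⟩
  rw [← map_mul]
  congr 1
  exact mul_left_cancel₀ (pow_ne_zero m PowerSeries.X_ne_zero) (by linear_combination h)

theorem sx_fin {B t z : ℤ} {μ h : ℕ} (hh : 2 ≤ h) (hz : z ≠ 0) (ht : 4 * z ^ 2 = B * t) :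
    B ≠ 0 ∧ (μ + 1 : ℤ) ^ h * |B| ≤ 4 * |(μ + 1) * z| ^ h := by
  have h0 : B * t ≠ 0 := ht ▸ by positivity
  refine ⟨left_ne_zero_of_mul h0, ?_⟩
  have h1 : 1 ≤ |t| := Int.one_le_abs (right_ne_zero_of_mul h0)
  have h2 : 1 ≤ |z| := Int.one_le_abs hz
  have h3 : |B| * |t| = 4 * |z| ^ 2 := by rw [← abs_mul, ← ht, sq_abs, abs_of_nonneg (by positivity)]
  have h4 : |z| ^ 2 ≤ |z| ^ h := pow_le_pow_right₀ h2 hh
  have h5 : |B| ≤ 4 * |z| ^ h := by nlinarith [abs_nonneg B]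
  rw [abs_mul, mul_pow, abs_of_nonneg (show (0 : ℤ) ≤ μ + 1 by positivity)]
  nlinarith [show (0 : ℤ) ≤ (μ + 1) ^ h by positivity]

theorem s4 (k4 : S_K4) : S_S4 := by
  rintro h a e η T P s hh M ⟨σ, hσ⟩
  obtain ⟨k, rfl⟩ : ∃ k, h = k + 1 := ⟨h - 1, by omega⟩
  have ha : a ≠ 0 := fun h0 => by
    have := (M.ind 2 1 0 Nat.prime_two (by simp [h0])).1
    norm_num at this
  have he : PowerSeries.constantCoeff e ≠ 0 := fun h0 => PowerSeries.X_prime.not_isUnit
    (M.cop (PowerSeries.X_dvd_iff.2 M.a0) (PowerSeries.X_dvd_iff.2 h0))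
  obtain ⟨μ, a', ha', rfl⟩ : ∃ (μ : ℕ) (a' : ℤ⟦X⟧), PowerSeries.constantCoeff a' ≠ 0 ∧
      a = PowerSeries.X ^ (μ + 1) * a' := by
    obtain ⟨n, a', hn, rfl⟩ := WfDvdMonoid.max_power_factor ha PowerSeries.X_prime.irreducible
    have h0 : PowerSeries.constantCoeff a' ≠ 0 := fun h0 => hn (PowerSeries.X_dvd_iff.2 h0)
    cases n with
    | zero => exact absurd (by simpa using M.a0) h0
    | succ n => exact ⟨n, a', h0, rfl⟩
  have hG := sx_G M.dT M.eqn
  obtain ⟨U, V, d, hd, hUV⟩ := k4.bez _ _ _ M.roots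
  have hUV0 := congrArg (fun Q => coeff Q 0) hUV
  simp only [coeff_add, mul_coeff_zero, coeff_derivative, coeff_C_zero] at hUV0
  have g0 : (T ^ 2 + C 4 * P).coeff 0 = T.coeff 0 ^ 2 + 4 * P.coeff 0 := by
    rw [coeff_add, coeff_C_mul, pow_two, mul_coeff_zero, pow_two]
  have g1 : (T ^ 2 + C 4 * P).coeff 1 = 2 * T.coeff 0 * T.coeff 1 + 4 * P.coeff 1 := by
    rw [coeff_add, coeff_C_mul, pow_two, mul_coeff_one]
    ring
  set a := PowerSeries.X ^ (μ + 1) * a' with had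
  set e₀ := PowerSeries.constantCoeff e with he₀
  set η₀ := PowerSeries.constantCoeff η with hη₀
  set β := 2 * η + hev (k + 1) T a e with hβ
  obtain ⟨ρ, hρ⟩ := sx_low k T a e
  obtain ⟨ρ', hρ'⟩ := sx_low (2 * k + 1) (T ^ 2 + C 4 * P) a e
  rw [show 2 * (k + 1) = 2 * k + 1 + 1 by ring, hρ', g0, g1] at hG
  have hb0 : PowerSeries.constantCoeff β = 2 * η₀ + T.coeff 0 * e₀ ^ (k + 1) := by
    rw [hβ, map_add, kx_map, M.a0, sx_hev0, map_mul, map_ofNat]
    simp [hη₀, he₀]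
  have hG0 := congrArg PowerSeries.constantCoeff hG
  simp only [map_add, map_mul, map_pow, M.a0, map_intCast, Int.cast_id, ← he₀] at hG0
  have hden : 4 * (a * PowerSeries.C e₀) ^ 2 = (PowerSeries.C e₀ ^ (k + 1) * e ^ k *
      (2 * ((T.coeff 0 ^ 2 + 4 * P.coeff 0 : ℤ) : ℤ⟦X⟧) * e +
        ((2 * T.coeff 0 * T.coeff 1 + 4 * P.coeff 1 : ℤ) : ℤ⟦X⟧) * a) +
      a ^ 2 * (2 * T.coeff 0 * PowerSeries.C e₀ ^ (k + 1) * ρ) +
      2 * β * PowerSeries.C (PowerSeries.constantCoeff β)) * σ := by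
    rw [hσ, den, sx_pol0, sx_hev0, hb0, hβ, hρ]
    simp only [map_add, map_mul, map_pow, map_ofNat, eq_intCast]
    push_cast
    ring
  have hz : PowerSeries.constantCoeff a' * e₀ ≠ 0 := mul_ne_zero ha' he
  have hW : PowerSeries.derivative ℤ a * e - a * PowerSeries.derivative ℤ e =
      PowerSeries.X ^ μ * (((μ : ℤ⟦X⟧) + 1) * a' * e + PowerSeries.X *
        (PowerSeries.derivative ℤ a' * e - a' * PowerSeries.derivative ℤ e)) := by
    rw [had, Derivation.leibniz, Derivation.leibniz_pow, PowerSeries.derivative_X]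
    simp only [smul_eq_mul, nsmul_eq_mul, Nat.add_sub_cancel]
    push_cast
    ring
  have hW0 : PowerSeries.constantCoeff (((μ : ℤ⟦X⟧) + 1) * a' * e + PowerSeries.X *
      (PowerSeries.derivative ℤ a' * e - a' * PowerSeries.derivative ℤ e)) =
      (μ + 1) * (PowerSeries.constantCoeff a' * e₀) := by
    simp [he₀, mul_assoc]
  by_cases hb : PowerSeries.constantCoeff β = 0
  · rw [hb, map_zero] at hden
    have h1 : T.coeff 0 ^ 2 + 4 * P.coeff 0 = 0 := by
      rw [hb] at hG0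
      exact (mul_eq_zero.1 (show (T.coeff 0 ^ 2 + 4 * P.coeff 0) * e₀ ^ (2 * k + 1 + 1) = 0 by
        linear_combination -hG0)).resolve_right (pow_ne_zero _ he)
    have h2 : 2 * T.coeff 0 * T.coeff 1 + 4 * P.coeff 1 ≠ 0 := fun h2 => hd (by
      have e1 := g0
      have e2 := g1
      rw [coeff_add, coeff_C_mul] at e1 e2
      simp only [zero_add, Nat.cast_zero, coeff_C_mul] at hUV0
      linear_combination -hUV0 + U.coeff 0 * (e1 + h1) + V.coeff 0 * (e2 + h2))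
    rw [h1] at hden hG
    generalize 2 * T.coeff 0 * T.coeff 1 + 4 * P.coeff 1 = g at h2 hden hG
    obtain ⟨t, ht⟩ := sx_cancel (m := μ + 1) (Z := 4 * a' * PowerSeries.C e₀ ^ 2) (σ := σ)
      (Y := PowerSeries.C e₀ ^ (k + 1) * e ^ k * g +
        a * (2 * T.coeff 0 * PowerSeries.C e₀ ^ (k + 1) * ρ))
      (by simp [M.a0, ← he₀, he, h2])
      (mul_left_cancel₀ ha (by
        rw [Int.cast_zero] at hden
        linear_combination hden - 4 * a * PowerSeries.C e₀ ^ 2 * had))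
    simp only [map_add, map_mul, map_pow, M.a0, map_intCast, Int.cast_id, ← he₀, map_ofNat,
      PowerSeries.constantCoeff_C] at ht
    have hB : PowerSeries.constantCoeff (a' * ((g : ℤ⟦X⟧) * e ^ (2 * k + 1) + a * ρ')) =
        PowerSeries.constantCoeff a' * (g * e₀ ^ (2 * k + 1)) := by
      simp [M.a0, ← he₀]
    have := sx_fin (μ := μ) hh hz (B := PowerSeries.constantCoeff a' * (g * e₀ ^ (2 * k + 1)))
      (t := t) (by linear_combination PowerSeries.constantCoeff a' * ht)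
    refine ⟨μ, μ + 1, _, a' * ((g : ℤ⟦X⟧) * e ^ (2 * k + 1) + a * ρ'), hW, ?_, hB ▸ this.1, ?_⟩
    · rw [hG, Int.cast_zero]
      linear_combination ((g : ℤ⟦X⟧) * e ^ (2 * k + 1) + a * ρ') * had
    · rw [hB, hW0]
      exact this.2
  · obtain ⟨t, ht⟩ := sx_cancel (m := 2 * (μ + 1)) (Z := 4 * a' ^ 2 * PowerSeries.C e₀ ^ 2)
      (σ := σ) (Y := _) (by
        simp only [map_add, map_mul, map_pow, M.a0, map_intCast, Int.cast_id, ← he₀, map_ofNat,
          PowerSeries.constantCoeff_C]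
        intro h0
        exact hb (pow_eq_zero_iff two_ne_zero |>.1 (mul_left_cancel₀ (four_ne_zero (α := ℤ))
          (by linear_combination h0 + 2 * hG0)))) (Eq.trans (by rw [had]; ring) hden)
    simp only [map_add, map_mul, map_pow, M.a0, map_intCast, Int.cast_id, ← he₀, map_ofNat,
      PowerSeries.constantCoeff_C] at ht
    have := sx_fin (μ := μ) hh hz (B := PowerSeries.constantCoeff β ^ 2) (t := 4 * t)
      (by linear_combination ht - 2 * t * hG0)
    refine ⟨μ, 0, _, β ^ 2, hW, by simp, ?_, ?_⟩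
    · rw [map_pow]
      exact this.1
    · rw [map_pow, hW0]
      exact this.2

end Pool.Agent.MP_b2c033_nt.H95
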