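import Pool.Agent.MP_b2c033_nt.H95.K1
import Pool.Agent.MP_b2c033_nt.H87.T1
import Pool.Agent.MP_b2c033_nt.H87.TA

/-! From formal series to functions on the disc. -/

namespace Pool.Agent.MP_b2c033_nt.H95

open Metric Polynomial Finset
open Pool.Agent.MP_b2c033_nt.H87 Pool.Agent.MP_b2c033_nt.H87.TAx
open scoped PowerSeries

theorem tx_pow {a : ℚ⟦X⟧} {φ : ℂ → ℂ} (ha : CQ a φ) (n : ℕ) : CQ (a ^ n) fun q => φ q ^ n := by
  induction n with
  | zero => simpa using cq_C t1 1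
  | succ n ih => simpa [pow_succ] using cq_mul t1 ih ha

theorem tx_hev {a e : ℚ⟦X⟧} {φ ψ : ℂ → ℂ} (ha : CQ a φ) (he : CQ e ψ) (n : ℕ) (G : ℤ[X]) :
    CQ (hev n G a e) fun q => hev n G (φ q) (ψ q) := by
  unfold hev
  induction range (n + 1) using Finset.induction_on with
  | empty => simpa using cq_C t1 0
  | insert i s hi ih =>
    simp only [sum_insert hi]
    refine cq_add t1 (cq_mul t1 (cq_mul t1 ?_ (tx_pow ha i)) (tx_pow he _)) ih
    simpa using cq_C t1 (G.coeff i : ℚ)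

theorem tx_ord {u w : ℚ⟦X⟧} {i j : ℕ} (hu : PowerSeries.constantCoeff u ≠ 0)
    (hw : PowerSeries.constantCoeff w ≠ 0) (h : PowerSeries.X ^ i * u = PowerSeries.X ^ j * w) :
    i = j ∧ u = w := by
  wlog hij : i ≤ j generalizing u w i j
  · have := this hw hu h.symm (by omega)
    exact ⟨this.1.symm, this.2.symm⟩
  obtain ⟨k, rfl⟩ := Nat.exists_eq_add_of_le hij
  have h1 : u = PowerSeries.X ^ k * w :=
    mul_left_cancel₀ (pow_ne_zero i PowerSeries.X_ne_zero) (by rw [h]; ring)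
  cases k with
  | zero => exact ⟨rfl, by simpa using h1⟩
  | succ k => exact absurd (by rw [h1]; simp) hu

theorem tb (k4 : S_K4) (bb : S_B) : S_TB := by
  intro h hh
  obtain ⟨c, D, hc, H⟩ := bb h hh
  refine ⟨c, D, hc, ?_⟩
  rintro G s a e b ε x y z hs heq ⟨μ, v, W, B, hW, hB, hB0, hle⟩ hε
    ⟨a₁, d₁, ⟨φa, ca⟩, ⟨ψ₁, c₁⟩, n₁, r₁⟩ ⟨b₁, d₃, ⟨φb, cb⟩, ⟨ψ₃, c₃⟩, n₃, r₃⟩
    ⟨e₁, d₂, ⟨φe, ce⟩, ⟨ψ₂, c₂⟩, n₂, r₂⟩ hx hz hy
  obtain ⟨k, rfl⟩ : ∃ k, h = k + 1 := ⟨h - 1, by omega⟩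
  set m : ℤ⟦X⟧ →+* ℚ⟦X⟧ := PowerSeries.map (Int.castRingHom ℚ) with hm
  have hio : ∀ t, io t = iq (m t) := fun _ => rfl
  have minj : Function.Injective m := PowerSeries.map_injective _ (RingHom.injective_int _)
  have m0 : ∀ t, PowerSeries.constantCoeff (m t) = (PowerSeries.constantCoeff t : ℤ) := fun t => by
    rw [← PowerSeries.coeff_zero_eq_constantCoeff_apply, hm, PowerSeries.coeff_map]
    simp
  have md : ∀ t, PowerSeries.derivative ℚ (m t) = m (PowerSeries.derivative ℤ t) := fun t => by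
    ext n
    simp [hm, PowerSeries.coeff_derivative]
  obtain ⟨φA, cA⟩ : ∃ φ, CQ (a₁ * (d₂ * d₃)) φ := ⟨_, cq_mul t1 ca (cq_mul t1 c₂ c₃)⟩
  obtain ⟨φE, cE⟩ : ∃ φ, CQ (e₁ * (d₁ * d₃)) φ := ⟨_, cq_mul t1 ce (cq_mul t1 c₁ c₃)⟩
  obtain ⟨φB, cB⟩ : ∃ φ, CQ (b₁ * (d₃ ^ k * (d₁ * d₂) ^ (k + 1))) φ :=
    ⟨_, cq_mul t1 cb (cq_mul t1 (tx_pow c₃ k) (tx_pow (cq_mul t1 c₁ c₂) _))⟩
  obtain ⟨δ, hδ⟩ : ∃ δ, δ = iq (d₁ * d₂ * d₃) := ⟨_, rfl⟩
  have hδ0 : δ ≠ 0 := fun h0 => mul_ne_zero (mul_ne_zero n₁ n₂) n₃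
    (iq_inj (by rw [← hδ, h0, map_zero]))
  have eA : iq (a₁ * (d₂ * d₃)) = δ * x := by simp only [hδ, map_mul, ← r₁]; ring
  have eE : iq (e₁ * (d₁ * d₃)) = δ * z := by simp only [hδ, map_mul, ← r₂]; ring
  have eB : iq (b₁ * (d₃ ^ k * (d₁ * d₂) ^ (k + 1))) = δ ^ (k + 1) * y := by
    simp only [hδ, map_mul, map_pow, ← r₃]; ring
  generalize a₁ * (d₂ * d₃) = A' at cA eA
  generalize e₁ * (d₁ * d₃) = E' at cE eE
  generalize b₁ * (d₃ ^ k * (d₁ * d₂) ^ (k + 1)) = B' at cB eB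
  have hW0 : PowerSeries.constantCoeff W ≠ 0 := fun h0 => by
    rw [h0, abs_zero, zero_pow (by omega), mul_zero] at hle
    have : 0 < (μ + 1 : ℤ) ^ (k + 1) * |PowerSeries.constantCoeff B| :=
      mul_pos (by positivity) (abs_pos.2 hB0)
    linarith
  have hWne : PowerSeries.X ^ μ * W ≠ 0 := mul_ne_zero (pow_ne_zero _ PowerSeries.X_ne_zero)
    fun h0 => hW0 (by rw [h0, map_zero])
  have he0 : m e ≠ 0 := fun h0 => hWne (by
    rw [← hW, minj (h0.trans (map_zero m).symm)]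
    simp)
  have hb0 : b ≠ 0 := fun h0 => by
    rw [h0, zero_pow two_ne_zero] at hB
    exact mul_ne_zero (pow_ne_zero _ PowerSeries.X_ne_zero)
      (fun h1 => hB0 (by rw [h1, map_zero])) hB.symm
  have f1 : B' ^ 2 = hev (2 * (k + 1)) G A' E' := iq_inj (by
    have h1 := congrArg io heq
    rw [map_pow, kx_map, hx, hz, hy, kx_scale] at h1
    rw [map_pow, kx_map, eA, eE, eB, kx_scale]
    refine mul_left_cancel₀ (pow_ne_zero (2 * (k + 1)) hε) ?_
    linear_combination δ ^ (2 * (k + 1)) * h1)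
  have f2 : A' * m e = m a * E' := iq_inj (by
    rw [map_mul, map_mul, ← hio, ← hio, eA, eE, hx, hz]; ring)
  have f3 : B' * m e ^ (k + 1) = m b * E' ^ (k + 1) := iq_inj (by
    rw [map_mul, map_mul, map_pow, map_pow, ← hio, ← hio, eB, eE, hy, hz]; ring)
  have hE0 : E' ≠ 0 := fun h0 => by
    rw [h0, map_zero] at eE
    have : z = 0 := (mul_eq_zero.1 eE.symm).resolve_left hδ0
    exact he0 (iq_inj (by rw [← hio, hz, this, mul_zero, map_zero]))
  have hB'0 : B' ≠ 0 := fun h0 => by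
    rw [h0, zero_mul] at f3
    exact mul_ne_zero (fun h1 => hb0 (minj (h1.trans (map_zero m).symm))) (pow_ne_zero _ hE0)
      f3.symm
  have f4 : (PowerSeries.derivative ℚ A' * E' - A' * PowerSeries.derivative ℚ E') * m e ^ 2 =
      PowerSeries.X ^ μ * m W * E' ^ 2 := by
    have h1 := congrArg (PowerSeries.derivative ℚ) f2
    have h2 := congrArg m hW
    simp only [Derivation.leibniz, smul_eq_mul, md] at h1
    rw [map_sub, map_mul, map_mul, map_mul, map_pow, hm, PowerSeries.map_X, ← hm] at h2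
    linear_combination m e * E' * h1 + E' ^ 2 * h2 -
      (m e * PowerSeries.derivative ℚ E' + E' * m (PowerSeries.derivative ℤ e)) * f2
  have cW := cq_sub t1 (cq_mul t1 (cq_der t1 cA) cE) (cq_mul t1 cA (cq_der t1 cE))
  generalize PowerSeries.derivative ℚ A' * E' - A' * PowerSeries.derivative ℚ E' = W' at f4 cW
  have hmW : PowerSeries.constantCoeff (m W) ≠ 0 := by rw [m0]; exact_mod_cast hW0
  have hW'0 : W' ≠ 0 := fun h0 => by
    rw [h0, zero_mul] at f4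
    exact mul_ne_zero (mul_ne_zero (pow_ne_zero _ PowerSeries.X_ne_zero)
      fun h1 => hmW (by rw [h1, map_zero])) (pow_ne_zero _ hE0) f4.symm
  obtain ⟨j, nn, hnn, hn0⟩ := split _ (pow_ne_zero (k + 1) hW'0)
  obtain ⟨l, dd, hdd, hd0⟩ := split _ (pow_ne_zero 2 hB'0)
  rw [PowerSeries.coeff_zero_eq_constantCoeff_apply] at hn0 hd0
  have f5 : PowerSeries.X ^ (j + v) * (nn * m B) =
      PowerSeries.X ^ (l + (k + 1) * μ) * (m W ^ (k + 1) * dd) := by
    have h1 := congrArg m hB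
    rw [map_pow, map_mul, map_pow, hm, PowerSeries.map_X, ← hm] at h1
    have h2 := congrArg (· ^ (k + 1)) f4
    have h3 := congrArg (· ^ 2) f3
    refine mul_right_cancel₀ (pow_ne_zero (2 * (k + 1)) (mul_ne_zero he0 hE0)) ?_
    calc _ = (PowerSeries.X ^ j * nn * m e ^ (2 * (k + 1))) *
          (PowerSeries.X ^ v * m B * E' ^ (2 * (k + 1))) := by ring
      _ = (W' * m e ^ 2) ^ (k + 1) * (m b * E' ^ (k + 1)) ^ 2 := by rw [← hnn, ← h1]; ring
      _ = (PowerSeries.X ^ μ * m W * E' ^ 2) ^ (k + 1) * (B' ^ 2 * m e ^ (2 * (k + 1))) := by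
        rw [f4, ← f3]; ring
      _ = _ := by rw [hdd]; ring
  have hmB : PowerSeries.constantCoeff (m B) ≠ 0 := by rw [m0]; exact_mod_cast hB0
  obtain ⟨g1, g2⟩ := tx_ord (by rw [map_mul]; exact mul_ne_zero hn0 hmB)
    (by rw [map_mul, map_pow]; exact mul_ne_zero (pow_ne_zero _ hmW) hd0) f5
  have g3 := congrArg PowerSeries.constantCoeff g2
  rw [map_mul, map_mul, map_pow, m0, m0] at g3
  obtain ⟨φn, cn⟩ := cq_div t1 j (hnn ▸ tx_pow cW (k + 1))
  obtain ⟨φd, cd⟩ := cq_div t1 l (hdd ▸ tx_pow cB 2)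
  have z0 : ∀ {t : ℚ⟦X⟧} {φ : ℂ → ℂ}, CQ t φ → φ 0 = (PowerSeries.constantCoeff t : ℚ) :=
    fun ht => by rw [t1.zero _ _ ht, cx_coeff, PowerSeries.coeff_zero_eq_constantCoeff_apply]
  have ct : ∀ {t : ℚ⟦X⟧} {φ : ℂ → ℂ}, CQ t φ → ContinuousAt φ 0 := fun ht =>
    ((t1.diff _ _ ht).differentiableAt (ball_mem_nhds 0 one_pos)).continuousAt
  have key := H (G.coeff (2 * (k + 1))) s φA φE φB φn φd μ j l (by exact_mod_cast hs.2.1) hs.2.2.1
    (by rw [Complex.norm_intCast]; exact k4.disc _ G s (by omega) hs)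
    (t1.diff _ _ cA) (t1.diff _ _ cE) (t1.diff _ _ cB) (ct cn) (ct cd)
    (fun q hq => by
      rw [← hs.2.2.2]
      exact uniq (tx_pow cB 2) (f1 ▸ tx_hev cA cE _ G) hq)
    (fun q hq => by
      have h1 := cq_mul t1 (cq_Xpow t1 j) cn
      rw [← hnn] at h1
      exact uniq (tx_pow cW (k + 1)) h1 hq)
    (fun q hq => by
      have h1 := cq_mul t1 (cq_Xpow t1 l) cd
      rw [← hdd] at h1
      exact uniq (tx_pow cB 2) h1 hq)
    (by rw [z0 cd]; exact_mod_cast hd0) (by omega) ?_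
  · rwa [Complex.norm_intCast] at key
  rw [z0 cd, z0 cn, Complex.norm_ratCast, Complex.norm_ratCast]
  have g4 := congrArg abs g3
  rw [abs_mul, abs_mul, abs_pow] at g4
  have g5 : (μ + 1 : ℚ) ^ (k + 1) * |((PowerSeries.constantCoeff B : ℤ) : ℚ)| ≤
      4 * |((PowerSeries.constantCoeff W : ℤ) : ℚ)| ^ (k + 1) := by exact_mod_cast hle
  have g6 : (0 : ℚ) < |((PowerSeries.constantCoeff B : ℤ) : ℚ)| :=
    abs_pos.2 (by exact_mod_cast hB0)
  have g7 : (μ + 1 : ℚ) ^ (k + 1) * |PowerSeries.constantCoeff dd| ≤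
      4 * |PowerSeries.constantCoeff nn| := by
    refine le_of_mul_le_mul_right ?_ g6
    have := mul_le_mul_of_nonneg_right g5 (abs_nonneg (PowerSeries.constantCoeff dd))
    linarith
  exact_mod_cast g7

end Pool.Agent.MP_b2c033_nt.H95
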