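import Pool.Agent.MP_b2c033_nt.H87.All
import Pool.Agent.MP_b2c033_nt.H95.K3
import Pool.Agent.MP_b2c033_nt.H95.K4
import Pool.Agent.MP_b2c033_nt.H95.R
import Pool.Agent.MP_b2c033_nt.H95.N1
import Pool.Agent.MP_b2c033_nt.H95.N2
import Pool.Agent.MP_b2c033_nt.H95.N
import Pool.Agent.MP_b2c033_nt.H95.S4
import Pool.Agent.MP_b2c033_nt.H95.B1
import Pool.Agent.MP_b2c033_nt.H95.B2
import Pool.Agent.MP_b2c033_nt.H95.B3
import Pool.Agent.MP_b2c033_nt.H95.B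
import Pool.Agent.MP_b2c033_nt.H95.TB

/-! Finiteness of the modular hyperelliptic curves of given genus. -/

namespace Pool.Agent.MP_b2c033_nt.H95

open Polynomial Finset
open Pool.Agent.MP_b2c033_nt.H87

theorem core : S_Core := by
  intro h hh
  obtain ⟨c, D, hc, H1⟩ := tb (k4 k1) (bb b1 b2 b3 (b4 (a2 a1)) b5) h hh
  obtain ⟨B, H2⟩ := rr k1 (k4 k1) r1 (2 * h) c D (by omega) hc
  refine ⟨B, fun F x y hF hd zx zy cx cy hx heq => ?_⟩
  obtain ⟨a, e, η, T, P, s, α, β, γ, δ, l, ε, M, hdet, hl, hε, hid, ha, he, hb⟩ :=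
    nn k1 (k2 k1) (k3 k1) n1 (n2 k1 (k2 k1)) (n3 k1 (k2 k1)) h F x y (by omega) hF hd zx zy hx heq
  have mx : x ∈ IntermediateField.adjoin ℚ {x, y} := IntermediateField.subset_adjoin _ _ (by simp)
  have my : y ∈ IntermediateField.adjoin ℚ {x, y} := IntermediateField.subset_adjoin _ _ (by simp)
  have mc : ∀ r : ℚ, (r : L) ∈ IntermediateField.adjoin ℚ {x, y} := fun r => by
    rw [← algMapL]
    exact IntermediateField.algebraMap_mem _ r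
  obtain ⟨v₁, w₁, v₂, w₂, G, hv, hG, hsub⟩ := H2 _ s M.roots
    (H1 _ s a e _ ε _ (l * y) _ M.roots (sx_G M.dT M.eqn)
      (s4 (k4 k1) h a e η T P s (by omega) M (s3 (k2 k1) (k4 k1) h a e η T P s (by omega) M)) hε
      ((t3 t1 x y _ (add_mem (mul_mem (mc α) mx) (mc β))).1 cx cy)
      ((t3 t1 x y _ (mul_mem (mc l) my)).1 cx cy)
      ((t3 t1 x y _ (add_mem (mul_mem (mc γ) mx) (mc δ))).1 cx cy) ha he (by rw [hb, mul_assoc]))
  have hv' : (v₁ : ℚ) * w₂ - w₁ * v₂ = 1 := by exact_mod_cast hv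
  have hv'' : (v₁ : ℚ[X]) * w₂ - w₁ * v₂ = 1 := by exact_mod_cast hv
  refine ⟨G, w₂ * α - w₁ * γ, w₂ * β - w₁ * δ, v₁ * γ - v₂ * α, v₁ * δ - v₂ * β, l,
    fun h0 => hdet ?_, hl, hG, ?_⟩
  · linear_combination h0 - (α * δ - β * γ) * hv'
  · rw [hsub, ← hid]
    simp only [map_sub, map_mul, map_intCast]
    congr 1
    · linear_combination (C α * X + C β) * hv''
    · linear_combination (C γ * X + C δ) * hv''

theorem fr_of_mem {M : ℕ} (hM : 0 < M) {k : L}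
    (hk : k ∈ IntermediateField.adjoin ℚ {f : L | ∃ u, Reg M u f}) : FrC k ∧ FrZ k := by
  have two : ∀ {x y z : L}, z ∈ IntermediateField.adjoin ℚ {x, y} → FrC x ∧ FrZ x →
      FrC y ∧ FrZ y → FrC z ∧ FrZ z := fun hz hx hy =>
    ⟨(t3 t1 _ _ _ hz).1 hx.1 hy.1, (t3 t1 _ _ _ hz).2 hx.2 hy.2⟩
  have m1 : ∀ x y : L, x ∈ IntermediateField.adjoin ℚ {x, y} := fun x y =>
    IntermediateField.subset_adjoin _ _ (by simp)
  have m2 : ∀ x y : L, y ∈ IntermediateField.adjoin ℚ {x, y} := fun x y =>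
    IntermediateField.subset_adjoin _ _ (by simp)
  induction hk using IntermediateField.adjoin_induction with
  | mem x hx =>
    obtain ⟨u, hu⟩ := hx
    obtain ⟨k, w, φ, h1, h2, -⟩ := t2 M _ _ hu
    exact ⟨⟨w, _, ⟨φ, h1⟩, ⟨_, TAx.cq_Xpow t1 k⟩, pow_ne_zero _ PowerSeries.X_ne_zero, h2⟩,
      modular M u x hM hu⟩
  | algebraMap c =>
    have h0 : FrC 0 ∧ FrZ 0 :=
      ⟨⟨0, 1, (T2x.cvS t1).zero_mem, (T2x.cvS t1).one_mem, one_ne_zero, by simp⟩,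
        ⟨0, 1, one_ne_zero, by simp⟩⟩
    exact two (IntermediateField.algebraMap_mem _ c) h0 h0
  | add x y _ _ hx hy => exact two (add_mem (m1 x y) (m2 x y)) hx hy
  | inv x _ hx => exact two (inv_mem (m1 x x)) hx hx
  | mul x y _ _ hx hy => exact two (mul_mem (m1 x y) (m2 x y)) hx hy

theorem hyp (g : ℕ) (hg : 2 ≤ g) : ∃ B : ℕ, ∀ (M : ℕ) (F : ℚ[X]) (x y : LaurentSeries ℚ),
    0 < M → Squarefree F → (F.natDegree = 2 * g + 1 ∨ F.natDegree = 2 * g + 2) →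
    x ∈ IntermediateField.adjoin ℚ {f : LaurentSeries ℚ | ∃ u, Reg M u f} →
    y ∈ IntermediateField.adjoin ℚ {f : LaurentSeries ℚ | ∃ u, Reg M u f} →
    (∀ r : ℚ, x ≠ algebraMap ℚ (LaurentSeries ℚ) r) → y ^ 2 = aeval x F →
    ∃ (G : ℕ → ℤ) (a b c d l : ℚ), a * d - b * c ≠ 0 ∧ l ≠ 0 ∧ (∀ i, |G i| ≤ B) ∧
      ∑ i ∈ range (2 * g + 3), C (G i : ℚ) * (C a * X + C b) ^ i *
        (C c * X + C d) ^ (2 * g + 2 - i) = C (l ^ 2) * F := by
  obtain ⟨B, H⟩ := core (g + 1) (by omega)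
  refine ⟨B, fun M F x y hM hF hd hx hy hc heq => ?_⟩
  obtain ⟨G, a, b, c, d, l, h1, h2, h3, h4⟩ := H F x y hF (by omega) (fr_of_mem hM hx).2
    (fr_of_mem hM hy).2 (fr_of_mem hM hx).1 (fr_of_mem hM hy).1 hc heq
  refine ⟨G.coeff, a, b, c, d, l, h1, h2, h3, ?_⟩
  rw [← h4]
  simp only [hev, map_intCast]
  rfl

end Pool.Agent.MP_b2c033_nt.H95
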