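import Pool.Agent.MP_b2c033_nt.H95.B4

/-! The analytic theorem. -/

namespace Pool.Agent.MP_b2c033_nt.H95

open Metric Finset Filter
open scoped Topology

theorem cx_pairs (s : Finset ℂ) (k : ℂ → ℝ) (d : ℂ → ℂ → ℝ) :
    ∏ α ∈ s, ∏ β ∈ s.erase α, (k α * k β * d α β) =
      (∏ α ∈ s, k α) ^ (2 * (s.card - 1)) * ∏ α ∈ s, ∏ β ∈ s.erase α, d α β := by
  have h1 : ∏ α ∈ s, ∏ _β ∈ s.erase α, k α = (∏ α ∈ s, k α) ^ (s.card - 1) := by
    rw [← prod_pow]
    exact prod_congr rfl fun α hα => by rw [prod_const, card_erase_of_mem hα]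
  have h2 : ∏ α ∈ s, ∏ β ∈ s.erase α, k β = ∏ α ∈ s, ∏ _β ∈ s.erase α, k α :=
    prod_comm' fun α β => by
      simp only [mem_erase]
      tauto
  simp only [prod_mul_distrib]
  rw [h2, h1, two_mul, pow_add]

theorem cx_wr {a e a' e' : ℂ → ℂ} {u : Polynomial ℂ} (ha : DifferentiableOn ℂ a' (ball 0 1))
    (he : DifferentiableOn ℂ e' (ball 0 1))
    (h : ∀ q ∈ ball (0 : ℂ) 1, a q = u.eval q * a' q ∧ e q = u.eval q * e' q) {q : ℂ}
    (hq : q ∈ ball (0 : ℂ) 1) : wr a e q = u.eval q ^ 2 * wr a' e' q := by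
  have hn := isOpen_ball.mem_nhds hq
  have d1 : HasDerivAt a _ q := ((u.hasDerivAt q).mul
    (ha.differentiableAt hn).hasDerivAt).congr_of_eventuallyEq
      (eventually_of_mem hn fun z hz => (h z hz).1)
  have d2 : HasDerivAt e _ q := ((u.hasDerivAt q).mul
    (he.differentiableAt hn).hasDerivAt).congr_of_eventuallyEq
      (eventually_of_mem hn fun z hz => (h z hz).2)
  rw [wr, wr, d1.deriv, d2.deriv, (h q hq).1, (h q hq).2]
  ring

theorem bb (b1 : S_B1) (b2 : S_B2) (b3 : S_B3) (b4 : S_B4) (b5 : S_B5) : S_B := by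
  intro h hh
  obtain ⟨c₀, hc₀, H3⟩ := b3 h (by omega)
  have hh0 : (0 : ℝ) < h := by exact_mod_cast (show 0 < h by omega)
  set c : ℝ := c₀ / (4 * (h : ℝ) ^ h) with hc
  have hcp : 0 < c := by positivity
  obtain ⟨D₀, H5⟩ := b5 (2 * h) (c ^ (2 * (2 * h - 1))) (by omega) (by positivity)
  refine ⟨c, D₀, hcp, fun g s a e b nn dd μ j k hg hs hdisc ha he hb cn cd heq hW hB hd0 hj
    hlead => ?_⟩
  have pd := norm_pos_iff.2 hd0
  have hn0 : nn 0 ≠ 0 := fun h0 => by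
    rw [h0, norm_zero] at hlead
    have : 0 < (μ + 1 : ℝ) ^ h * ‖dd 0‖ := by positivity
    linarith
  have ev : ∀ᶠ q in 𝓝[≠] (0 : ℂ), q ∈ ball (0 : ℂ) 1 ∧ q ≠ 0 ∧ nn q ≠ 0 ∧ dd q ≠ 0 :=
    Eventually.and (mem_nhdsWithin_of_mem_nhds (ball_mem_nhds 0 one_pos))
      (eventually_mem_nhdsWithin.and
      (((cn.eventually_ne hn0).and (cd.eventually_ne hd0)).filter_mono nhdsWithin_le_nhds))
  obtain ⟨q₀, hq₀, hq₀', hq₀n, hq₀d⟩ := ev.exists
  have he0 : ∃ q ∈ ball (0 : ℂ) 1, e q ≠ 0 := by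
    by_contra hn
    push Not at hn
    have h1 : deriv e q₀ = 0 := by
      have : e =ᶠ[𝓝 q₀] fun _ => 0 := eventually_of_mem (isOpen_ball.mem_nhds hq₀) hn
      rw [this.deriv_eq]
      simp
    have h2 := hW q₀ hq₀
    rw [wr, h1, hn q₀ hq₀, mul_zero, mul_zero, sub_zero, zero_pow (by omega)] at h2
    exact mul_ne_zero (pow_ne_zero _ hq₀') hq₀n h2.symm
  set R : ℝ := 1 - 1 / (4 * (((j - k : ℕ) : ℝ) + 2)) with hR
  have hR1 : R < 1 := by
    have : 0 < 1 / (4 * (((j - k : ℕ) : ℝ) + 2)) := by positivity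
    linarith
  have hR0 : 0 < R := by
    have : 1 / (4 * (((j - k : ℕ) : ℝ) + 2)) < 1 := by
      rw [div_lt_one (by positivity)]
      have : (0 : ℝ) ≤ ((j - k : ℕ) : ℝ) := Nat.cast_nonneg _
      linarith
    linarith
  obtain ⟨a', e', b', u, -, ha', he', hb', hrel, hcop⟩ :=
    b1 h g s a e b R hR1 hs ha he hb he0 heq
  have hsub : ball (0 : ℂ) R ⊆ ball 0 1 := ball_subset_ball hR1.le
  have hbne : ∀ q ∈ ball (0 : ℂ) 1, q ≠ 0 → dd q ≠ 0 → b q ≠ 0 := fun q hq h1 h2 h0 => by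
    have := hB q hq
    rw [h0, zero_pow two_ne_zero] at this
    exact mul_ne_zero (pow_ne_zero _ h1) h2 this.symm
  have hfr : ∀ z ∈ ball (0 : ℂ) R, ∃ᶠ q in 𝓝 z, b' q ≠ 0 := fun z hz hn => by
    have h1 := (hb'.analyticOnNhd isOpen_ball).eqOn_zero_of_preconnected_of_eventuallyEq_zero
      (convex_ball 0 1).isPreconnected (hsub hz) (hn.mono fun q hq => not_not.1 hq)
    refine hbne q₀ hq₀ hq₀' hq₀d ?_
    rw [(hrel q₀ hq₀).2.2.1, h1 hq₀]
    simp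
  have hψ := b2 h g s a' e' b' (ball 0 R) hh hg isOpen_ball (ha'.mono hsub) (he'.mono hsub)
    (hb'.mono hsub) hfr (fun q hq => hcop q (ball_subset_closedBall hq))
    fun q hq => (hrel q (hsub hq)).2.2.2
  set ψ : ℂ → ℂ := fun q => wr a' e' q ^ h / b' q ^ 2 with hψd
  have ev2 : ∀ᶠ q in 𝓝[≠] (0 : ℂ), ψ q * (q ^ k * dd q) = q ^ j * nn q := ev.mono fun q hq => by
    have h1 := hbne q hq.1 hq.2.1 hq.2.2.2
    have h2 := (hrel q hq.1).2.2.1
    rw [← hB q hq.1, ← hW q hq.1, cx_wr ha' he' (fun z hz => ⟨(hrel z hz).1, (hrel z hz).2.1⟩) hq.1,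
      h2]
    have h3 : b' q ≠ 0 := right_ne_zero_of_mul (h2 ▸ h1)
    simp only [hψd]
    field_simp
    ring
  have cψ : ContinuousAt ψ 0 := (hψ.differentiableAt (ball_mem_nhds 0 hR0)).continuousAt
  have hkj : k ≤ j := by
    by_contra hn
    obtain ⟨i, rfl⟩ : ∃ i, k = j + (i + 1) := ⟨k - j - 1, by omega⟩
    have h1 : (fun q => ψ q * (q ^ (i + 1) * dd q)) =ᶠ[𝓝[≠] (0 : ℂ)] nn :=
      (ev.and ev2).mono fun q hq => mul_left_cancel₀ (pow_ne_zero j hq.1.2.1) (by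
        linear_combination hq.2)
    have h2 : ContinuousAt (fun q => ψ q * (q ^ (i + 1) * dd q)) 0 :=
      cψ.mul ((continuousAt_id.pow _).mul cd)
    have := tendsto_nhds_unique_of_eventuallyEq (h2.tendsto.mono_left nhdsWithin_le_nhds)
      (cn.tendsto.mono_left nhdsWithin_le_nhds) h1
    exact hn0 (by simpa using this.symm)
  obtain ⟨m, rfl⟩ := Nat.exists_eq_add_of_le hkj
  rw [Nat.add_sub_cancel_left] at hR
  obtain ⟨z, ρ, hρ, hzb, hne, hbig⟩ := H3 m ψ (fun q => nn q / dd q) R hR.ge hψ (cn.div cd hd0)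
    ((ev.and ev2).mono fun q hq => by
      rw [← mul_div_assoc, eq_div_iff hq.1.2.2.2]
      exact mul_left_cancel₀ (pow_ne_zero k hq.1.2.1) (by linear_combination hq.2))
    (div_ne_zero hn0 hd0)
  have hz := mem_ball_self (x := z) hρ
  have hl : ∀ q ∈ ball z ρ, ∀ α ∈ s, a' q - α * e' q ≠ 0 := fun q hq α hα h0 => by
    refine hne q hq ?_
    simp only [hψd]
    rw [(hrel q (hsub (hzb hq))).2.2.2, prod_eq_zero hα h0, mul_zero, div_zero]
  have hWz : wr a' e' z ≠ 0 := fun h0 => hne z hz (by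
    simp only [hψd]
    rw [h0, zero_pow (by omega), zero_div])
  have pW := norm_pos_iff.2 hWz
  have pg := norm_pos_iff.2 hg
  set κ : ℂ → ℝ := fun t => √(ρ * ‖wr a' e' z‖) / ‖a' z - t * e' z‖ with hκ
  have hκ0 : ∀ t, 0 ≤ κ t := fun t => by positivity
  have hc1 : c ≤ ‖ψ z‖ * ρ ^ h := by
    have h1 : ((m : ℝ) + 2) ^ h ≤ (h * (μ + 1)) ^ h := by
      refine pow_le_pow_left₀ (by positivity) ?_ _
      have : m + 2 ≤ h * (μ + 1) := by rw [mul_add]; omega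
      exact_mod_cast this
    have h2 : (μ + 1 : ℝ) ^ h / 4 ≤ ‖nn 0 / dd 0‖ := by
      rw [norm_div, div_le_div_iff₀ (by norm_num) pd]
      linarith
    have h3 : c₀ * ((μ + 1 : ℝ) ^ h / 4) ≤ ‖ψ z‖ * (ρ ^ h * (h * (μ + 1)) ^ h) := by
      refine (mul_le_mul_of_nonneg_left h2 hc₀.le).trans (hbig.trans ?_)
      rw [mul_pow]
      gcongr
    rw [hc, div_le_iff₀ (by positivity)]
    refine le_of_mul_le_mul_right ?_ (show (0 : ℝ) < (μ + 1) ^ h / 4 by positivity)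
    rw [mul_pow] at h3
    linarith
  have hprod : c * ‖g‖ ≤ ∏ α ∈ s, κ α := by
    have pl : 0 < ∏ α ∈ s, ‖a' z - α * e' z‖ :=
      prod_pos fun α hα => norm_pos_iff.2 (hl z hz α hα)
    refine (mul_le_mul_of_nonneg_right hc1 pg.le).trans (le_of_eq ?_)
    simp only [hκ, hψd]
    rw [prod_div_distrib, prod_const, hs, pow_mul, Real.sq_sqrt (by positivity),
      (hrel z (hsub (hzb hz))).2.2.2, norm_div, norm_mul, norm_prod, norm_pow, mul_pow]
    generalize ∏ α ∈ s, ‖a' z - α * e' z‖ = p at pl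
    field_simp
  refine ⟨κ, fun α hα => div_pos (Real.sqrt_pos.2 (by positivity))
    (norm_pos_iff.2 (hl z hz α hα)), hprod, ?_⟩
  refine H5 s (fun α β => κ α * κ β * ‖α - β‖) hs
    (fun α β => mul_nonneg (mul_nonneg (hκ0 α) (hκ0 β)) (norm_nonneg _))
    (fun α β => by rw [norm_sub_rev, mul_comm (κ α)]) (fun α => by simp) ?_
    fun α hα β hβ γ hγ h1 h2 h3 => b4 a' e' z α β γ ρ κ hρ (ha'.mono (hzb.trans hsub))
      (he'.mono (hzb.trans hsub)) h1 h2 h3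
      (fun q hq => ⟨hl q hq α hα, hl q hq β hβ, hl q hq γ hγ⟩) hWz fun _ => rfl
  rw [cx_pairs, hs]
  have h1 := pow_le_pow_left₀ (by positivity) hprod (2 * (2 * h - 1))
  have h2 : 0 ≤ ∏ α ∈ s, ∏ β ∈ s.erase α, ‖α - β‖ :=
    prod_nonneg fun α _ => prod_nonneg fun β _ => norm_nonneg _
  refine le_trans ?_ (mul_le_mul_of_nonneg_right h1 h2)
  rw [mul_pow, mul_assoc]
  exact le_mul_of_one_le_right (by positivity) hdisc

end Pool.Agent.MP_b2c033_nt.H95
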