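import Pool.Agent.MP_b2c033_nt.H95.Spec

/-! Landau's theorem for cross ratios, and the bound for the diameter. -/

namespace Pool.Agent.MP_b2c033_nt.H95

open Metric Finset
open Pool.Agent.MP_b2c033_nt.H87

theorem b4 (a2 : S_A2) : S_B4 := by
  intro a e z α β γ ρ k hρ ha he hαβ hαγ hβγ hne hW hk
  obtain ⟨h1, h2, h3⟩ := hne z (mem_ball_self hρ)
  have n1 := sub_ne_zero.2 hαβ
  have n2 := sub_ne_zero.2 hαγ
  have n3 := sub_ne_zero.2 hβγ
  have n4 := sub_ne_zero.2 hαβ.symm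
  have hda : DifferentiableAt ℂ a z := ha.differentiableAt (ball_mem_nhds z hρ)
  have hde : DifferentiableAt ℂ e z := he.differentiableAt (ball_mem_nhds z hρ)
  set H : ℂ → ℂ := fun q => (a q - α * e q) * (β - γ) / ((a q - γ * e q) * (β - α)) with hH
  have hH1 : ∀ q ∈ ball z ρ, H q - 1 = (a q - β * e q) * (α - γ) / ((a q - γ * e q) * (β - α)) :=
    fun q hq => by
      simp only [hH]
      rw [div_sub_one (mul_ne_zero (hne q hq).2.2 n4)]
      congr 1
      ring
  have hd : HasDerivAt H ((β - γ) * (α - γ) * wr a e z / ((a z - γ * e z) ^ 2 * (β - α))) z := by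
    have := ((hda.hasDerivAt.sub (hde.hasDerivAt.const_mul α)).mul_const (β - γ)).div
      ((hda.hasDerivAt.sub (hde.hasDerivAt.const_mul γ)).mul_const (β - α)) (mul_ne_zero h3 n4)
    refine this.congr_deriv ?_
    simp only [wr, Pi.sub_apply]
    rw [div_eq_div_iff (pow_ne_zero _ (mul_ne_zero h3 n4)) (mul_ne_zero (pow_ne_zero _ h3) n4)]
    ring
  have key := a2 H z ρ hρ
    (((ha.sub (he.const_mul α)).mul_const _).div ((ha.sub (he.const_mul γ)).mul_const _)
      fun q hq => mul_ne_zero (hne q hq).2.2 n4)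
    fun q hq => ⟨div_ne_zero (mul_ne_zero (hne q hq).1 n3) (mul_ne_zero (hne q hq).2.2 n4),
      sub_ne_zero.1 (by
        rw [hH1 q hq]
        exact div_ne_zero (mul_ne_zero (hne q hq).2.1 n2) (mul_ne_zero (hne q hq).2.2 n4))⟩
  rw [hd.deriv, hH1 z (mem_ball_self hρ)] at key
  simp only [hH, norm_div, norm_mul, norm_pow, norm_sub_rev β α] at key
  have tri : ‖α - β‖ * ‖a z - γ * e z‖ ≤ ‖α - γ‖ * ‖a z - β * e z‖ + ‖β - γ‖ * ‖a z - α * e z‖ := by
    rw [← norm_mul, ← norm_mul, ← norm_mul]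
    refine le_trans (le_of_eq ?_) (norm_sub_le _ _)
    congr 1
    ring
  rw [hk α, hk β, hk γ]
  have p1 := norm_pos_iff.2 h1
  have p2 := norm_pos_iff.2 h2
  have p3 := norm_pos_iff.2 h3
  have q1 := norm_pos_iff.2 n1
  have q2 := norm_pos_iff.2 n2
  have q3 := norm_pos_iff.2 n3
  have pW := norm_pos_iff.2 hW
  generalize ‖a z - α * e z‖ = A at *
  generalize ‖a z - β * e z‖ = B at *
  generalize ‖a z - γ * e z‖ = G at *
  generalize ‖α - β‖ = x at *
  generalize ‖α - γ‖ = y at *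
  generalize ‖β - γ‖ = w at *
  generalize ‖wr a e z‖ = W at *
  have hs : √(ρ * W) ^ 2 = ρ * W := Real.sq_sqrt (by positivity)
  have ps : 0 < √(ρ * W) := Real.sqrt_pos.2 (by positivity)
  generalize √(ρ * W) = σ at *
  constructor
  · have e1 : σ / A * (σ / G) * y + σ / B * (σ / G) * w - σ / A * (σ / B) * x =
        σ ^ 2 / (A * B * G) * (y * B + w * A - x * G) := by
      field_simp
    have : 0 ≤ σ ^ 2 / (A * B * G) * (y * B + w * A - x * G) :=
      mul_nonneg (by positivity) (by linarith)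
    linarith
  · have e1 : σ / B * (σ / G) * w / (σ / A * (σ / B) * x) = A * w / (G * x) := by
      field_simp
    rw [e1]
    have hL : 0 ≤ 2 + Real.log (4 * (A * w / (G * x)) + 3) := by
      have := Real.log_nonneg (show 1 ≤ 4 * (A * w / (G * x)) + 3 by
        have : 0 ≤ A * w / (G * x) := by positivity
        linarith)
      linarith
    generalize 2 + Real.log (4 * (A * w / (G * x)) + 3) = Λ at *
    have hS : 0 < A * w / (G * x) * (B * y / (G * x)) := by positivity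
    have k2 := pow_le_pow_left₀ (by positivity) key 2
    rw [mul_pow, mul_pow, mul_pow, Real.sq_sqrt hS.le] at k2
    refine le_of_mul_le_mul_right ?_ hS
    have e2 : σ / A * (σ / G) * y * (σ / B * (σ / G) * w) * (A * w / (G * x) * (B * y / (G * x))) =
        (w * y * W / (G ^ 2 * x)) ^ 2 * ρ ^ 2 := by
      have : σ / A * (σ / G) * y * (σ / B * (σ / G) * w) =
          (σ ^ 2) ^ 2 * (y * w) / (A * B * G ^ 2) := by field_simp
      rw [this, hs]
      field_simp
    rw [e2]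
    linarith

theorem cx_log (N : ℕ) (c : ℝ) (hc : 0 < c) : ∃ D₀ : ℝ, 1 ≤ D₀ ∧ ∀ D : ℝ, 1 ≤ D →
    D ^ 2 ≤ 2 * (500 * (2 + Real.log (4 * (D ^ N / c) + 3))) ^ 2 → D ≤ D₀ := by
  set K : ℝ := 2 + Real.log (4 / c + 3) + 2 * N with hK
  have hl : 0 ≤ Real.log (4 / c + 3) := Real.log_nonneg (by
    have : 0 ≤ 4 / c := by positivity
    linarith)
  have hK1 : 1 ≤ K := by
    have : (0 : ℝ) ≤ N := Nat.cast_nonneg N
    linarith
  refine ⟨(1000 * K) ^ 2, by nlinarith, fun D hD h => ?_⟩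
  have s1 : 1 ≤ √D := Real.one_le_sqrt.2 hD
  have s2 : √D ^ 2 = D := Real.sq_sqrt (by linarith)
  have h1 : Real.log D ≤ 2 * √D := by
    have := Real.log_le_sub_one_of_pos (show 0 < √D by linarith)
    rw [Real.log_sqrt (by linarith)] at this
    linarith
  have hN : 1 ≤ D ^ N := one_le_pow₀ hD
  have h2 : Real.log (4 * (D ^ N / c) + 3) ≤ Real.log (4 / c + 3) + N * Real.log D := by
    rw [← Real.log_pow, ← Real.log_mul (by positivity) (by positivity)]
    refine Real.log_le_log (by positivity) ?_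
    have : 4 * (D ^ N / c) = 4 / c * D ^ N := by ring
    nlinarith
  have h3 : 0 ≤ Real.log (4 * (D ^ N / c) + 3) := Real.log_nonneg (by
    have : 0 ≤ D ^ N / c := by positivity
    linarith)
  have h4 : 2 + Real.log (4 * (D ^ N / c) + 3) ≤ K * √D := by
    have : (N : ℝ) * Real.log D ≤ N * (2 * √D) := mul_le_mul_of_nonneg_left h1 (Nat.cast_nonneg N)
    nlinarith
  have h5 : D ≤ 1000 * (K * √D) := by
    refine le_trans (b := 1000 * (2 + Real.log (4 * (D ^ N / c) + 3))) ?_ (by linarith)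
    refine (pow_le_pow_iff_left₀ (by linarith) (by linarith) two_ne_zero).1 ?_
    nlinarith [sq_nonneg (2 + Real.log (4 * (D ^ N / c) + 3))]
  have h6 : √D ≤ 1000 * K := by
    by_contra hn
    rw [not_le] at hn
    nlinarith
  nlinarith

theorem cx_prod {t : Finset ℂ} {f : ℂ → ℝ} {M : ℝ} (h0 : ∀ x ∈ t, 0 ≤ f x) (h1 : ∀ x ∈ t, f x ≤ M) :
    ∏ x ∈ t, f x ≤ M ^ t.card := by
  rw [← prod_const]
  exact prod_le_prod h0 h1

theorem b5 : S_B5 := by
  classical
  intro n c hn hc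
  obtain ⟨D₀, h0, hD₀⟩ := cx_log (n * (n - 1)) c hc
  refine ⟨D₀, fun s D hs hpos hsym hdiag hprod htri α₀ hα₀ β₀ hβ₀ => ?_⟩
  obtain ⟨⟨a, b⟩, hab, hmax⟩ := (s ×ˢ s).exists_max_image (fun p => D p.1 p.2)
    ⟨(α₀, β₀), mem_product.2 ⟨hα₀, hβ₀⟩⟩
  obtain ⟨ha, hb⟩ := mem_product.1 hab
  simp only at ha hb hmax
  have hm : ∀ α ∈ s, ∀ β ∈ s, D α β ≤ D a b := fun α hα β hβ =>
    hmax (α, β) (mem_product.2 ⟨hα, hβ⟩)
  refine (hm α₀ hα₀ β₀ hβ₀).trans ?_
  by_cases h1 : 1 ≤ D a b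
  swap
  · linarith
  have hne : a ≠ b := fun e => by rw [e, hdiag] at h1; linarith
  have hin : ∀ α ∈ s, ∏ β ∈ s.erase α, D α β ≤ D a b ^ (n - 1) := fun α hα => by
    rw [← hs, ← card_erase_of_mem hα]
    exact cx_prod (fun β _ => hpos α β) fun β hβ => hm α hα β (mem_of_mem_erase hβ)
  have hlow : ∀ α ∈ s, ∀ β ∈ s, α ≠ β → c * D a b ≤ D α β * D a b ^ (n * (n - 1)) := by
    intro α hα β hβ hαβ
    have hβ' : β ∈ s.erase α := mem_erase.2 ⟨hαβ.symm, hβ⟩
    rw [← mul_prod_erase s _ hα, ← mul_prod_erase _ _ hβ'] at hprod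
    have e1 : ∏ γ ∈ (s.erase α).erase β, D α γ ≤ D a b ^ (n - 2) := by
      rw [show n - 2 = ((s.erase α).erase β).card by
        rw [card_erase_of_mem hβ', card_erase_of_mem hα, hs]; omega]
      exact cx_prod (fun γ _ => hpos α γ) fun γ hγ =>
        hm α hα γ (mem_of_mem_erase (mem_of_mem_erase hγ))
    have e2 : ∏ γ ∈ s.erase α, ∏ δ ∈ s.erase γ, D γ δ ≤ (D a b ^ (n - 1)) ^ (n - 1) := by
      conv_rhs => rw [show n - 1 = (s.erase α).card by rw [card_erase_of_mem hα, hs]]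
      rw [show D a b ^ (s.erase α).card = D a b ^ (n - 1) by rw [card_erase_of_mem hα, hs]]
      exact cx_prod (fun γ _ => prod_nonneg fun δ _ => hpos γ δ) fun γ hγ =>
        hin γ (mem_of_mem_erase hγ)
    have e3 : D a b ^ (n * (n - 1)) = D a b ^ (n - 2) * (D a b ^ (n - 1)) ^ (n - 1) * D a b := by
      obtain ⟨m, rfl⟩ : ∃ m, n = m + 2 := ⟨n - 2, by omega⟩
      simp only [Nat.add_sub_cancel, show m + 2 - 1 = m + 1 from rfl]
      ring
    rw [e3, ← mul_assoc, ← mul_assoc]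
    refine mul_le_mul_of_nonneg_right (hprod.trans ?_) (hpos a b)
    exact mul_le_mul (mul_le_mul_of_nonneg_left e1 (hpos _ _)) e2
      (prod_nonneg fun γ _ => prod_nonneg fun δ _ => hpos γ δ)
      (mul_nonneg (hpos _ _) (pow_nonneg (hpos _ _) _))
  obtain ⟨i, hi, hia, hib⟩ : ∃ i ∈ s, i ≠ a ∧ i ≠ b := by
    obtain ⟨i, hi⟩ := card_pos.1 (show 0 < ((s.erase a).erase b).card by
      rw [card_erase_of_mem (mem_erase.2 ⟨hne.symm, hb⟩), card_erase_of_mem ha, hs]; omega)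
    exact ⟨i, mem_of_mem_erase (mem_of_mem_erase hi), ne_of_mem_erase (mem_of_mem_erase hi),
      ne_of_mem_erase hi⟩
  have mono : ∀ u v : ℝ, 0 ≤ v → c * D a b ≤ v * D a b ^ (n * (n - 1)) →
      u ≤ (500 * (2 + Real.log (4 * (D a b / v) + 3))) ^ 2 →
      u ≤ (500 * (2 + Real.log (4 * (D a b ^ (n * (n - 1)) / c) + 3))) ^ 2 := by
    intro u v hv h2 h3
    have hv' : 0 < v := hv.lt_of_ne fun e => by rw [← e, zero_mul] at h2; nlinarith
    have h4 : D a b / v ≤ D a b ^ (n * (n - 1)) / c := by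
      rw [div_le_div_iff₀ hv' hc]
      linarith
    have h5 : 0 ≤ D a b / v := by positivity
    have h6 := Real.log_nonneg (show 1 ≤ 4 * (D a b / v) + 3 by linarith)
    have h7 := Real.log_le_log (show 0 < 4 * (D a b / v) + 3 by linarith)
      (show 4 * (D a b / v) + 3 ≤ 4 * (D a b ^ (n * (n - 1)) / c) + 3 by linarith)
    exact h3.trans (pow_le_pow_left₀ (by linarith) (by linarith) 2)
  have t1 := (htri a ha b hb i hi hne hia.symm hib.symm).1
  have t2 := (htri i hi b hb a ha hib hia hne.symm).2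
  have t3 := (htri i hi a ha b hb hia hib hne).2
  rw [hsym b a] at t2
  have u2 := mono _ _ (hpos i b) (hlow i hi b hb hib) t2
  have u3 := mono _ _ (hpos i a) (hlow i hi a ha hia) t3
  rw [hsym a i, hsym b i] at t1
  refine hD₀ _ h1 ?_
  nlinarith

end Pool.Agent.MP_b2c033_nt.H95
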