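import Pool.Agent.MP_b2c033_nt.H95.Spec

/-! Binary forms: basic identities. -/

namespace Pool.Agent.MP_b2c033_nt.H95

open Polynomial Finset

theorem kx_hom {R : Type} [CommRing R] (n : ℕ) (p : ℤ[X]) (a e : R) :
    hev n p a e = MvPolynomial.eval₂Hom (Int.castRingHom R) ![a, e] (p.homogenize n) := by
  unfold hev homogenize
  rw [map_sum, Finset.Nat.sum_antidiagonal_eq_sum_range_succ_mk]
  refine sum_congr rfl fun i _ => ?_
  simp [MvPolynomial.eval₂Hom_monomial, Finsupp.prod_fintype, Fin.prod_univ_two, mul_assoc]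

theorem kx_map {R R' : Type} [CommRing R] [CommRing R'] (φ : R →+* R') (n : ℕ) (p : ℤ[X])
    (a e : R) : φ (hev n p a e) = hev n p (φ a) (φ e) := by
  simp [hev, map_sum]

theorem kx_scale {R : Type} [CommRing R] (n : ℕ) (p : ℤ[X]) (r a e : R) :
    hev n p (r * a) (r * e) = r ^ n * hev n p a e := by
  unfold hev
  rw [mul_sum]
  refine sum_congr rfl fun i hi => ?_
  obtain ⟨j, rfl⟩ := Nat.exists_eq_add_of_le (Nat.lt_succ_iff.1 (mem_range.1 hi))
  rw [Nat.add_sub_cancel_left]
  ring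

theorem kx_one {R : Type} [CommRing R] (n : ℕ) (p : ℤ[X]) (x : R) (hp : p.natDegree ≤ n) :
    hev n p x 1 = (p.map (Int.castRingHom R)).eval x := by
  rw [eval_eq_sum_range' (n := n + 1) (Nat.lt_succ_of_le (natDegree_map_le.trans hp))]
  simp [hev]

theorem kx_deg (n : ℕ) (p : ℤ[X]) (v₁ w₁ v₂ w₂ : ℤ) :
    (hev n p (C v₁ * X + C w₁) (C v₂ * X + C w₂) : ℤ[X]).natDegree ≤ n := by
  unfold hev
  refine natDegree_sum_le_of_forall_le _ _ fun i hi => ?_
  have hi' := Nat.lt_succ_iff.1 (mem_range.1 hi)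
  have h1 : ∀ (v w : ℤ) (k : ℕ), ((C v * X + C w : ℤ[X]) ^ k).natDegree ≤ k := fun v w k =>
    natDegree_pow_le.trans (by
      have : (C v * X + C w : ℤ[X]).natDegree ≤ 1 := natDegree_linear_le
      nlinarith)
  refine natDegree_mul_le.trans ?_
  have h2 := (natDegree_mul_le (p := ((p.coeff i : ℤ) : ℤ[X]))
    (q := (C v₁ * X + C w₁ : ℤ[X]) ^ i))
  have h3 := h1 v₁ w₁ i
  have h4 := h1 v₂ w₂ (n - i)
  rw [natDegree_intCast] at h2
  omega

theorem k1 : S_K1 where
  map := fun _ _ _ _ => kx_map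
  chart := fun R _ n p x e hp => by
    rw [← kx_one n p x hp, ← kx_scale, mul_one, mul_comm]
  add := fun R _ n p q a e => by
    simp [hev, add_mul, sum_add_distrib]
  smul := fun R _ n c p a e => by
    unfold hev
    rw [mul_sum]
    refine sum_congr rfl fun i _ => ?_
    rw [coeff_C_mul]
    push_cast
    ring
  mul := fun R _ m n p q a e hp hq => by
    rw [kx_hom, kx_hom, kx_hom, homogenize_mul p q hp hq, map_mul]
  scale := fun _ _ => kx_scale
  top := fun R _ n p a e => by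
    unfold hev
    rw [sum_range_succ, Nat.sub_self, pow_zero, mul_one, add_sub_cancel_right]
    refine dvd_sum fun i hi => Dvd.dvd.mul_left (dvd_pow_self e ?_) _
    have := mem_range.1 hi
    omega
  sub := fun n p v₁ w₁ v₂ w₂ => by
    refine ⟨hev n p (C v₁ * X + C w₁) (C v₂ * X + C w₂), kx_deg n p _ _ _ _, fun R _ U V => ?_⟩
    set q : MvPolynomial (Fin 2) ℤ := hev n p
      (MvPolynomial.C v₁ * MvPolynomial.X 0 + MvPolynomial.C w₁ * MvPolynomial.X 1)
      (MvPolynomial.C v₂ * MvPolynomial.X 0 + MvPolynomial.C w₂ * MvPolynomial.X 1) with hq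
    have hl : ∀ v w : ℤ, (MvPolynomial.C v * MvPolynomial.X 0 + MvPolynomial.C w *
        MvPolynomial.X 1 : MvPolynomial (Fin 2) ℤ).IsHomogeneous 1 := fun v w =>
      ((MvPolynomial.isHomogeneous_X ℤ 0).C_mul v).add ((MvPolynomial.isHomogeneous_X ℤ 1).C_mul w)
    have hh : q.IsHomogeneous n := by
      rw [hq]
      unfold hev
      refine MvPolynomial.IsHomogeneous.sum _ _ _ fun i hi => ?_
      have hi' := Nat.lt_succ_iff.1 (mem_range.1 hi)
      have := (((hl v₁ w₁).pow i).C_mul (p.coeff i)).mul ((hl v₂ w₂).pow (n - i))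
      rw [one_mul, one_mul, Nat.add_sub_cancel' hi'] at this
      simpa using this
    have h1 : (hev n p (C v₁ * X + C w₁) (C v₂ * X + C w₂) : ℤ[X]).homogenize n = q := by
      refine homogenize_eq_of_isHomogeneous hh ?_
      have := kx_map (MvPolynomial.aeval (R := ℤ) ![(X : ℤ[X]), 1]).toRingHom n p
        (MvPolynomial.C v₁ * MvPolynomial.X 0 + MvPolynomial.C w₁ * MvPolynomial.X 1)
        (MvPolynomial.C v₂ * MvPolynomial.X 0 + MvPolynomial.C w₂ * MvPolynomial.X 1)
      rw [hq]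
      simpa using this
    rw [kx_hom, h1, hq, kx_map]
    simp only [map_add, map_mul, MvPolynomial.eval₂Hom_C, MvPolynomial.eval₂Hom_X']
    simp

end Pool.Agent.MP_b2c033_nt.H95
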