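import Pool.Agent.MP_b2c033_nt.H95.K1
import Pool.Agent.MP_b2c033_nt.H87.P0
import Pool.Agent.MP_b2c033_nt.H87.P1

/-! The denominator: functoriality, the diagonal, the shift, and the local divisibility. -/

namespace Pool.Agent.MP_b2c033_nt.H95

open Polynomial Finset
open Pool.Agent.MP_b2c033_nt.H87
open scoped PowerSeries

theorem sx_pol_diag {R : Type} [CommRing R] (h : ℕ) (P : ℤ[X]) (a e : R) :
    pol h P a e a e = 2 * hev (2 * h) P a e := by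
  unfold pol hev
  rw [mul_sum]
  refine sum_congr rfl fun i hi => ?_
  have hi' := mem_range.1 hi
  have h1 : a ^ i = a ^ ((i + 1) / 2) * a ^ (i / 2) := by rw [← pow_add]; congr 1; omega
  have h2 : e ^ (2 * h - i) = e ^ (h - (i + 1) / 2) * e ^ (h - i / 2) := by
    rw [← pow_add]; congr 1; omega
  rw [h1, h2]
  ring

/-- the shift on integral series -/
noncomputable def sx_t (a : ℤ⟦X⟧) : ℤ⟦X⟧⟦X⟧ := PowerSeries.mk fun n => Hs n a

theorem sx_t_map (a : ℤ⟦X⟧) : PowerSeries.map io (sx_t a) = P0x.t2 (io a) := by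
  refine PowerSeries.ext fun n => ?_
  rw [PowerSeries.coeff_map, sx_t, PowerSeries.coeff_mk]
  exact ((p0b ⟨P0x.t2, P0x.t2_c0, P0x.t2_der, fun a n => by
    rw [P0x.t2_iq, P0x.t0_coeff]⟩).zh a n).symm

theorem sx_inj : Function.Injective (PowerSeries.map io) :=
  PowerSeries.map_injective _ P1x.io_inj

theorem s0 : S_S0 where
  map := fun R R' _ _ φ h T P a₁ e₁ η₁ a₂ e₂ η₂ => by
    simp [den, pol, kx_map, map_sum]
  diag := fun R _ h T P a e η he => by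
    rw [den, sx_pol_diag, ← he]
    ring
  tau := by
    refine ⟨⟨⟨⟨sx_t, sx_inj ?_⟩, fun a b => sx_inj ?_⟩, sx_inj ?_, fun a b => sx_inj ?_⟩,
      fun a => ?_, fun a => ?_⟩
    · simp only [sx_t_map, map_one]
    · simp only [sx_t_map, map_mul]
    · simp only [sx_t_map, map_zero]
    · simp only [sx_t_map, map_add]
    · show PowerSeries.constantCoeff (sx_t a) = a
      rw [← PowerSeries.coeff_zero_eq_constantCoeff_apply, sx_t, PowerSeries.coeff_mk,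
        P0x.hs_zero]
    · show PowerSeries.map _ (sx_t a) = a
      refine PowerSeries.ext fun n => ?_
      rw [PowerSeries.coeff_map, sx_t, PowerSeries.coeff_mk,
        ← PowerSeries.coeff_zero_eq_constantCoeff_apply, Hs, PowerSeries.coeff_mk]
      simp

theorem sx_unit {R : Type} [CommRing R] {I : Ideal R} (hI : ∀ r ∈ I, IsUnit (1 + r)) {u r : R}
    (hu : IsUnit u) (hr : r ∈ I) : IsUnit (u + r) := by
  obtain ⟨v, hv⟩ := hu.exists_right_inv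
  have : u + r = u * (1 + v * r) := by linear_combination (-r) * hv
  rw [this]
  exact hu.mul (hI _ (I.mul_mem_left _ hr))

theorem sx_pol_chart {R : Type} [CommRing R] (h : ℕ) (P : ℤ[X]) (x₁ e₁ x₂ e₂ : R) :
    ∃ S : R, pol h P (x₁ * e₁) e₁ (x₂ * e₂) e₂ = e₁ ^ h * e₂ ^ h *
      (hev (2 * h) P x₁ 1 + hev (2 * h) P x₂ 1 - (x₁ - x₂) ^ 2 * S) := by
  have key : (x₁ - x₂) ^ 2 ∣ hev (2 * h) P x₁ 1 + hev (2 * h) P x₂ 1 - pol h P x₁ 1 x₂ 1 := by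
    unfold pol hev
    rw [← sum_add_distrib, ← sum_sub_distrib]
    refine dvd_sum fun i _ => ?_
    have h1 : ∀ x : R, x ^ i = x ^ ((i + 1) / 2) * x ^ (i / 2) := fun x => by
      rw [← pow_add]; congr 1; omega
    obtain ⟨s, hs⟩ := sub_dvd_pow_sub_pow x₁ x₂ ((i + 1) / 2)
    obtain ⟨t, ht⟩ := sub_dvd_pow_sub_pow x₁ x₂ (i / 2)
    refine ⟨P.coeff i * s * t, ?_⟩
    rw [h1 x₁, h1 x₂]
    simp only [one_pow, mul_one]
    linear_combination (P.coeff i : R) * (x₁ ^ (i / 2) - x₂ ^ (i / 2)) * hs +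
      (P.coeff i : R) * (x₁ - x₂) * s * ht
  obtain ⟨S, hS⟩ := key
  refine ⟨S, ?_⟩
  rw [← hS, sub_sub_cancel]
  unfold pol
  rw [mul_sum]
  refine sum_congr rfl fun i hi => ?_
  have hi' := mem_range.1 hi
  have h1 : ∀ e : R, e ^ h = e ^ ((i + 1) / 2) * e ^ (h - (i + 1) / 2) := fun e => by
    rw [← pow_add]; congr 1; omega
  have h2 : ∀ e : R, e ^ h = e ^ (i / 2) * e ^ (h - i / 2) := fun e => by
    rw [← pow_add]; congr 1; omega
  simp only [one_pow, mul_one, mul_pow]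
  linear_combination
    (-(P.coeff i : R) * x₁ ^ ((i + 1) / 2) * x₂ ^ (i / 2) * e₂ ^ h) * h1 e₁ +
    (-(P.coeff i : R) * x₁ ^ ((i + 1) / 2) * x₂ ^ (i / 2) *
      (e₁ ^ ((i + 1) / 2) * e₁ ^ (h - (i + 1) / 2))) * h2 e₂ +
    (-(P.coeff i : R) * x₁ ^ (i / 2) * x₂ ^ ((i + 1) / 2) * e₂ ^ h) * h2 e₁ +
    (-(P.coeff i : R) * x₁ ^ (i / 2) * x₂ ^ ((i + 1) / 2) *
      (e₁ ^ (i / 2) * e₁ ^ (h - i / 2))) * h1 e₂

/-- the affine form of the local divisibility -/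
theorem sx_aff {R : Type} [CommRing R] {I : Ideal R} (hI : ∀ r ∈ I, IsUnit (1 + r))
    (T P : R[X]) (x₁ y₁ x₂ y₂ S : R) (hx : x₁ - x₂ ∈ I) (hy : y₁ - y₂ ∈ I)
    (h1 : y₁ ^ 2 + T.eval x₁ * y₁ = P.eval x₁) (h2 : y₂ ^ 2 + T.eval x₂ * y₂ = P.eval x₂)
    (hJ : IsUnit (P.derivative.eval x₂ - T.derivative.eval x₂ * y₂)) :
    P.eval x₁ + P.eval x₂ - (x₁ - x₂) ^ 2 * S + (y₁ + T.eval x₁) * (y₂ + T.eval x₂) + y₁ * y₂ ∣
      (x₁ - x₂) ^ 2 := by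
  obtain ⟨kT, hT⟩ := T.binomExpansion x₂ (x₁ - x₂)
  obtain ⟨kP, hP⟩ := P.binomExpansion x₂ (x₁ - x₂)
  rw [add_sub_cancel] at hT hP
  set d := x₁ - x₂ with hd
  set ρ := T.derivative.eval x₂ + kT * d with hρ
  set κ := y₁ + y₂ + T.eval x₁ with hκ
  have hJ' : IsUnit (P.derivative.eval x₂ - T.derivative.eval x₂ * y₂ + (kP - kT * y₂) * d) :=
    sx_unit hI hJ (I.mul_mem_left _ hx)
  obtain ⟨w, hw⟩ := hJ'.exists_right_inv
  have e1 : (y₁ - y₂) * κ =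
      d * (P.derivative.eval x₂ - T.derivative.eval x₂ * y₂ + (kP - kT * y₂) * d) := by
    rw [hκ]
    linear_combination h1 - h2 + hP - y₂ * hT
  set μ := (y₁ - y₂) * w with hμ
  have e2 : d = μ * κ := by rw [hμ]; linear_combination (-w) * e1 - d * hw
  have hu : IsUnit (1 + -(μ * (ρ + μ * S))) :=
    hI _ (I.neg_mem (I.mul_mem_right _ (I.mul_mem_right _ hy)))
  obtain ⟨v, hv⟩ := hu.exists_right_inv
  have e3 : P.eval x₁ + P.eval x₂ - d ^ 2 * S + (y₁ + T.eval x₁) * (y₂ + T.eval x₂) + y₁ * y₂ =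
      κ * (κ - d * ρ) - d ^ 2 * S := by
    rw [hκ, hρ]
    linear_combination -h1 - h2 - (y₁ + y₂ + T.eval x₁) * hT
  refine ⟨μ ^ 2 * v, ?_⟩
  rw [e3, e2]
  linear_combination (-μ ^ 2 * κ ^ 2) * hv

theorem s1 : S_S1 := by
  intro R _ I h T P a₁ e₁ η₁ a₂ e₂ η₂ _ hT hP hI ha he hη h1 h2 hu hJ
  have hu1 : IsUnit e₁ := by
    have := sx_unit hI hu he
    rwa [add_sub_cancel] at this
  obtain ⟨f₁, hf₁⟩ := hu1.exists_right_inv
  obtain ⟨f₂, hf₂⟩ := hu.exists_right_inv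
  have p1 : e₁ ^ h * f₁ ^ h = 1 := by rw [← mul_pow, hf₁, one_pow]
  have p2 : e₂ ^ h * f₂ ^ h = 1 := by rw [← mul_pow, hf₂, one_pow]
  obtain ⟨x₁, rfl⟩ : ∃ x, a₁ = x * e₁ := ⟨a₁ * f₁, by linear_combination (-a₁) * hf₁⟩
  obtain ⟨x₂, rfl⟩ : ∃ x, a₂ = x * e₂ := ⟨a₂ * f₂, by linear_combination (-a₂) * hf₂⟩
  obtain ⟨y₁, rfl⟩ : ∃ y, η₁ = e₁ ^ h * y := ⟨η₁ * f₁ ^ h, by linear_combination (-η₁) * p1⟩
  obtain ⟨y₂, rfl⟩ : ∃ y, η₂ = e₂ ^ h * y := ⟨η₂ * f₂ ^ h, by linear_combination (-η₂) * p2⟩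
  have hx : x₁ - x₂ ∈ I := by
    have : x₁ - x₂ = f₁ * (x₁ * e₁ - x₂ * e₂) - f₁ * x₂ * (e₁ - e₂) := by
      linear_combination (x₂ - x₁) * hf₁
    rw [this]
    exact I.sub_mem (I.mul_mem_left _ ha) (I.mul_mem_left _ he)
  have hy : y₁ - y₂ ∈ I := by
    obtain ⟨t, ht⟩ := sub_dvd_pow_sub_pow e₁ e₂ h
    have : y₁ - y₂ = f₁ ^ h * (e₁ ^ h * y₁ - e₂ ^ h * y₂) - f₁ ^ h * y₂ * t * (e₁ - e₂) := by
      linear_combination (y₂ - y₁) * p1 - f₁ ^ h * y₂ * ht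
    rw [this]
    exact I.sub_mem (I.mul_mem_left _ hη) (I.mul_mem_left _ he)
  have dT : (derivative T).natDegree ≤ h := (natDegree_derivative_le T).trans (by omega)
  have dP : (derivative P).natDegree ≤ 2 * h := (natDegree_derivative_le P).trans (by omega)
  obtain ⟨S, hS⟩ := sx_pol_chart h P x₁ e₁ x₂ e₂
  rw [k1.chart R _ _ _ _ hT, k1.chart R _ _ _ _ hP, pow_mul'] at h1 h2
  rw [k1.chart R _ _ _ _ dT, k1.chart R _ _ _ _ dP, pow_mul', ← derivative_map,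
    ← derivative_map] at hJ
  rw [kx_one _ _ _ hP, kx_one _ _ _ hP] at hS
  set T' := T.map (Int.castRingHom R)
  set P' := P.map (Int.castRingHom R)
  have key := sx_aff hI T' P' x₁ y₁ x₂ y₂ S hx hy
    (((hu1.pow h).pow 2).mul_left_cancel (by linear_combination h1))
    (((hu.pow h).pow 2).mul_left_cancel (by linear_combination h2))
    (isUnit_of_mul_isUnit_right (x := (e₂ ^ h) ^ 2) (by convert hJ using 1; ring))
  obtain ⟨σ, hσ⟩ := key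
  refine ⟨σ * (e₁ * e₂) ^ 2 * (f₁ ^ h * f₂ ^ h), ?_⟩
  rw [den, hS, k1.chart R _ _ _ _ hT, k1.chart R _ _ _ _ hT]
  linear_combination (e₁ * e₂) ^ 2 * (e₁ ^ h * f₁ ^ h) * (e₂ ^ h * f₂ ^ h) * hσ -
    (e₁ * e₂) ^ 2 * (x₁ - x₂) ^ 2 * (e₂ ^ h * f₂ ^ h) * p1 - (e₁ * e₂) ^ 2 * (x₁ - x₂) ^ 2 * p2

end Pool.Agent.MP_b2c033_nt.H95
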