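import Pool.Agent.MP_b2c033_nt.H95.S1
import Pool.Agent.MP_b2c033_nt.H87.P4

/-! Gluing local divisibilities, and the global divisibility. -/

namespace Pool.Agent.MP_b2c033_nt.H95

open Polynomial Finset
open scoped PowerSeries

theorem s2 : S_S2 := by
  intro A _ _ _ D N hD hloc
  have hinj : Function.Injective (algebraMap A (FractionRing A)) := IsFractionRing.injective _ _
  set ι := algebraMap A (FractionRing A) with hι
  have hu : IsUnit (PowerSeries.map ι D) := by
    rw [PowerSeries.isUnit_iff_constantCoeff, ← PowerSeries.coeff_zero_eq_constantCoeff_apply,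
      PowerSeries.coeff_map, PowerSeries.coeff_zero_eq_constantCoeff_apply]
    exact IsUnit.mk0 _ fun h0 => hD (hinj (by rw [h0, map_zero]))
  obtain ⟨σ, hσ⟩ := hu.dvd (a := PowerSeries.map ι N)
  have key : ∀ n, ∃ c : A, ι c = PowerSeries.coeff n σ := by
    intro n
    obtain ⟨u, v, hv, huv⟩ := IsFractionRing.div_surjective (A := A) (PowerSeries.coeff n σ)
    have hv0 : v ≠ 0 := nonZeroDivisors.ne_zero hv
    obtain ⟨u', v', c, hc, rfl, rfl⟩ := UniqueFactorizationMonoid.exists_reduced_factors' u v hv0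
    have hc0 : ι c ≠ 0 := fun h0 => left_ne_zero_of_mul hv0 (hinj (by rw [h0, map_zero]))
    have hv' : ι v' ≠ 0 := fun h0 => right_ne_zero_of_mul hv0 (hinj (by rw [h0, map_zero]))
    have h1 : PowerSeries.coeff n σ * ι v' = ι u' := by
      rw [← huv, ← hι, map_mul, map_mul]
      field_simp
    have hunit : IsUnit v' := by
      by_contra hn
      obtain ⟨π, hπ, hd⟩ := WfDvdMonoid.exists_irreducible_factor hn (right_ne_zero_of_mul hv0)
      have hp : Prime π := hπ.prime
      obtain ⟨s, hs, τ, hτ⟩ := hloc π hp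
      have hs0 : IsUnit (ι s) := IsUnit.mk0 _ fun h0 =>
        hs (by rw [show s = 0 from hinj (by rw [h0, map_zero])]; exact dvd_zero _)
      set ψ : Localization.Away s →+* FractionRing A := IsLocalization.Away.lift s hs0
      have hψ : ψ.comp (algebraMap A (Localization.Away s)) = ι := IsLocalization.Away.lift_comp s hs0
      have h2 := congrArg (PowerSeries.map ψ) hτ
      rw [map_mul, ← RingHom.comp_apply, ← RingHom.comp_apply (PowerSeries.map ψ),
        ← PowerSeries.map_comp, hψ, hσ] at h2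
      have h3 : σ = PowerSeries.map ψ τ := hu.mul_left_cancel h2
      obtain ⟨k, r, hr⟩ := IsLocalization.Away.surj s (PowerSeries.coeff n τ)
      have h4 := congrArg ψ hr
      rw [map_mul, map_pow, ← PowerSeries.coeff_map, ← h3, ← RingHom.comp_apply,
        ← RingHom.comp_apply ψ, hψ] at h4
      have h5 : u' * s ^ k = r * v' := hinj (by
        rw [map_mul, map_mul, map_pow]
        linear_combination ι v' * h4 - ι s ^ k * h1)
      have h6 : π ∣ u' * s ^ k := h5 ▸ hd.mul_left r
      rcases hp.dvd_or_dvd h6 with h7 | h7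
      · exact hp.not_isUnit (hc h7 hd)
      · exact hs (hp.dvd_of_dvd_pow h7)
    obtain ⟨w, hw⟩ := hunit.exists_right_inv
    refine ⟨u' * w, ?_⟩
    have h2 := congrArg ι hw
    rw [map_mul, map_one] at h2
    rw [map_mul]
    linear_combination PowerSeries.coeff n σ * h2 - ι w * h1
  choose c hc using key
  refine ⟨PowerSeries.mk c, PowerSeries.map_injective ι hinj ?_⟩
  rw [map_mul, hσ]
  congr 1
  refine PowerSeries.ext fun n => ?_
  rw [PowerSeries.coeff_map, PowerSeries.coeff_mk, hc]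

theorem sx_prime {p : ℕ} (hp : p.Prime) : Prime (p : ℤ⟦X⟧) := by
  have := Fact.mk hp
  have hz : ∀ a : ℤ⟦X⟧, PowerSeries.map (Int.castRingHom (ZMod p)) a = 0 ↔ (p : ℤ⟦X⟧) ∣ a :=
    fun a => H87.P4x.red_zero_iff p a
  refine ⟨H87.P4x.p_ne p, fun hu => ?_, fun a b hab => ?_⟩
  · have := (hz 1).2 hu.dvd
    rw [map_one] at this
    exact one_ne_zero this
  · rw [← hz, map_mul, mul_eq_zero, hz, hz] at hab
    exact hab

theorem sx_rat {π : ℤ⟦X⟧} (hπ : Prime π) {d : ℤ} (hd : d ≠ 0) (h : π ∣ (d : ℤ⟦X⟧)) :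
    ∃ p : ℕ, p.Prime ∧ Associated π (p : ℤ⟦X⟧) := by
  have h1 : π ∣ ((d.natAbs : ℕ) : ℤ⟦X⟧) := by
    rcases Int.natAbs_eq d with e | e
    · rw [← Int.cast_natCast, ← e]; exact h
    · rw [e, Int.cast_neg, Int.cast_natCast, dvd_neg] at h; exact h
  have h2 : d.natAbs ≠ 0 := Int.natAbs_ne_zero.2 hd
  generalize d.natAbs = m at h1 h2
  induction m using induction_on_primes with
  | zero => exact absurd rfl h2
  | one => exact absurd (isUnit_of_dvd_one (by simpa using h1)) hπ.not_isUnit
  | prime_mul p m hp ih =>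
    rw [Nat.cast_mul] at h1
    rcases hπ.dvd_or_dvd h1 with h3 | h3
    · exact ⟨p, hp, hπ.associated_of_dvd (sx_prime hp) h3⟩
    · exact ih h3 (right_ne_zero_of_mul h2)

theorem sx_G {R : Type} [CommRing R] {h : ℕ} {T P : ℤ[X]} {a e η : R} (dT : T.natDegree ≤ h)
    (eqn : η ^ 2 + hev h T a e * η = hev (2 * h) P a e) :
    (2 * η + hev h T a e) ^ 2 = hev (2 * h) (T ^ 2 + C 4 * P) a e := by
  rw [k1.add, k1.smul, ← eqn, pow_two T, two_mul h, k1.mul _ _ _ _ _ _ _ dT dT]
  push_cast
  ring

theorem sx_units {h : ℕ} {a e η : ℤ⟦X⟧} {T P : ℤ[X]} {s : Finset ℂ} (k2 : S_K2) (k4 : S_K4)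
    (M : Model h a e η T P s) {π : ℤ⟦X⟧} (hπ : Prime π) (hb : π ∣ 2 * η + hev h T a e) :
    ¬ π ∣ e * (hev (2 * h) (derivative P) a e - hev h (derivative T) a e * η) := by
  have hG := sx_G M.dT M.eqn
  set G := T ^ 2 + C 4 * P with hGd
  have hb2 : π ∣ hev (2 * h) G a e := hG ▸ dvd_pow hb two_ne_zero
  have he : ¬ π ∣ e := fun he => by
    have h1 : π ∣ (G.coeff (2 * h) : ℤ⟦X⟧) * a ^ (2 * h) := by
      have := dvd_sub hb2 (he.trans (k1.top _ (2 * h) G a e))
      rwa [sub_sub_cancel] at this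
    rcases hπ.dvd_or_dvd h1 with h2 | h2
    · obtain ⟨p, hp, has⟩ := sx_rat hπ M.roots.2.1 h2
      have := (M.ind p 0 1 hp (by simpa using has.dvd_iff_dvd_left.1 he)).2
      exact hp.one_lt.ne' (by exact_mod_cast Int.eq_one_of_dvd_one (by positivity) this)
    · exact hπ.not_isUnit (M.cop (hπ.dvd_of_dvd_pow h2) he)
  intro hJ
  replace hJ := (hπ.dvd_or_dvd hJ).resolve_left he
  have dT : (derivative T).natDegree ≤ h := (natDegree_derivative_le T).trans
    ((Nat.sub_le _ _).trans M.dT)
  have dP : (derivative P).natDegree ≤ 2 * h := (natDegree_derivative_le P).trans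
    ((Nat.sub_le _ _).trans M.dP)
  have dG : (derivative G).natDegree ≤ 2 * h := (natDegree_derivative_le G).trans
    ((Nat.sub_le _ _).trans M.roots.1)
  have h3 : hev (2 * h) (derivative G) a e =
      4 * (hev (2 * h) (derivative P) a e - hev h (derivative T) a e * η) +
        2 * hev h (derivative T) a e * (2 * η + hev h T a e) := by
    have : derivative G = C 2 * (T * derivative T) + C 4 * derivative P := by
      rw [hGd, derivative_add, derivative_C_mul, derivative_sq]
      ring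
    rw [this, k1.add, k1.smul, k1.smul, two_mul h, k1.mul _ _ _ _ _ _ _ M.dT dT]
    push_cast
    ring
  have h4 : π ∣ hev (2 * h) (derivative G) a e := h3 ▸ dvd_add (hJ.mul_left _) (hb.mul_left _)
  obtain ⟨U, V, d, hd, hUV⟩ := k4.bez _ _ _ M.roots
  have h5 := congrArg (fun Q => hev (max U.natDegree V.natDegree + 2 * h) Q a e) hUV
  rw [k1.add, k1.mul _ _ _ _ _ _ _ (le_max_left _ _) M.roots.1,
    k1.mul _ _ _ _ _ _ _ (le_max_right _ _) dG] at h5
  have h6 : ∀ m, hev m (C d) a e = d * e ^ m := fun m => by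
    unfold hev
    rw [sum_range_succ', sum_eq_zero fun i _ => by rw [coeff_C_succ]; simp, coeff_C_zero]
    simp
  have h7 : π ∣ (d : ℤ⟦X⟧) * e ^ (max U.natDegree V.natDegree + 2 * h) := by
    rw [← h6, ← h5]
    exact dvd_add (hb2.mul_left _) (h4.mul_left _)
  obtain ⟨p, hp, has⟩ := sx_rat hπ hd
    ((hπ.dvd_or_dvd h7).resolve_right fun h8 => he (hπ.dvd_of_dvd_pow h8))
  obtain ⟨rfl, rfl, h9⟩ := M.prim p hp (has.dvd_iff_dvd_left.1 hb)
  refine h9 (k2 a e 2 (2 * h) _ M.ind hp dP ?_)
  have := has.dvd_iff_dvd_left.1 hJ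
  simpa [hev] using this

theorem s3 (k2 : S_K2) (k4 : S_K4) : S_S3 := by
  intro h a e η T P s hh M
  obtain ⟨τ, h0, h1⟩ := s0.tau
  have hβ : 2 * η + hev h T a e ≠ 0 := fun hz =>
    absurd (M.prim 3 Nat.prime_three (hz ▸ dvd_zero _)).1 (by norm_num)
  have hD0 : PowerSeries.constantCoeff (den h T P (τ a) (τ e) (τ η) (PowerSeries.C a)
      (PowerSeries.C e) (PowerSeries.C η)) = (2 * η + hev h T a e) ^ 2 := by
    rw [s0.map, h0, h0, h0, PowerSeries.constantCoeff_C, PowerSeries.constantCoeff_C,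
      PowerSeries.constantCoeff_C, s0.diag _ _ _ _ _ _ _ M.eqn]
  have main : den h T P (τ a) (τ e) (τ η) (PowerSeries.C a) (PowerSeries.C e) (PowerSeries.C η) ∣
      (τ a * PowerSeries.C e - PowerSeries.C a * τ e) ^ 2 := by
    refine s2 _ _ _ (hD0 ▸ pow_ne_zero 2 hβ) fun π hπ => ?_
    have cm : ∀ (O : Type) [CommRing O] (f : ℤ⟦X⟧ →+* O) (z : ℤ⟦X⟧⟦X⟧),
        PowerSeries.constantCoeff (PowerSeries.map f z) = f (PowerSeries.constantCoeff z) :=
      fun O _ f z => by
        rw [← PowerSeries.coeff_zero_eq_constantCoeff_apply, PowerSeries.coeff_map,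
          PowerSeries.coeff_zero_eq_constantCoeff_apply]
    by_cases hb : π ∣ 2 * η + hev h T a e
    · refine ⟨_, sx_units k2 k4 M hπ hb, ?_⟩
      set t := e * (hev (2 * h) (derivative P) a e - hev h (derivative T) a e * η) with ht
      set f := algebraMap ℤ⟦X⟧ (Localization.Away t) with hf
      have hu : IsUnit (f e *
          f (hev (2 * h) (derivative P) a e - hev h (derivative T) a e * η)) := by
        rw [← map_mul]
        exact IsLocalization.Away.algebraMap_isUnit t
      have hI : ∀ z, PowerSeries.map f (τ z) - PowerSeries.map f (PowerSeries.C z) ∈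
          RingHom.ker (PowerSeries.constantCoeff (R := Localization.Away t)) := fun z => by
        rw [RingHom.mem_ker, map_sub, cm, cm, h0, PowerSeries.constantCoeff_C, sub_self]
      have hE : ∀ g : ℤ⟦X⟧ →+* (Localization.Away t)⟦X⟧,
          g η ^ 2 + hev h T (g a) (g e) * g η = hev (2 * h) P (g a) (g e) := fun g => by
        rw [← kx_map, ← kx_map, ← M.eqn, map_add, map_mul, map_pow]
      rw [s0.map, map_pow, map_sub, map_mul, map_mul]
      refine s1 _ _ h T P _ _ _ _ _ _ hh M.dT M.dP (fun r hr => ?_) (hI a) (hI e) (hI η)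
        (hE ((PowerSeries.map f).comp τ)) (hE ((PowerSeries.map f).comp PowerSeries.C)) ?_ ?_
      · rw [PowerSeries.isUnit_iff_constantCoeff, map_add, map_one, RingHom.mem_ker.1 hr, add_zero]
        exact isUnit_one
      · rw [PowerSeries.isUnit_iff_constantCoeff, cm, PowerSeries.constantCoeff_C]
        exact isUnit_of_mul_isUnit_left hu
      · rw [PowerSeries.isUnit_iff_constantCoeff, map_sub, map_mul, kx_map, kx_map, cm, cm, cm,
          PowerSeries.constantCoeff_C, PowerSeries.constantCoeff_C, PowerSeries.constantCoeff_C,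
          ← kx_map, ← kx_map, ← map_mul, ← map_sub]
        exact isUnit_of_mul_isUnit_right hu
    · refine ⟨_, hb, IsUnit.dvd ?_⟩
      rw [PowerSeries.isUnit_iff_constantCoeff, cm, hD0, map_pow]
      exact (IsLocalization.Away.algebraMap_isUnit _).pow 2
  have := map_dvd (PowerSeries.map (PowerSeries.constantCoeff (R := ℤ))) main
  rw [s0.map, map_pow, map_sub, map_mul, map_mul, h1, h1, h1, PowerSeries.map_C,
    PowerSeries.map_C, PowerSeries.map_C, M.a0, map_zero, zero_mul, sub_zero] at this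
  exact this

end Pool.Agent.MP_b2c033_nt.H95
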