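import Pool.Agent.MP_b2c033_nt.H87.Spec

/-! Row statements for the finiteness of modular hyperelliptic curves
(page b2c033_HYP_page.md). -/

namespace Pool.Agent.MP_b2c033_nt.H95

open Metric Polynomial Finset
open Pool.Agent.MP_b2c033_nt.H87
open scoped PowerSeries ComplexConjugate

noncomputable section

/-- the binary form of degree `n` attached to `p`, evaluated at `(a, e)` -/
def hev {R : Type} [CommRing R] (n : ℕ) (p : ℤ[X]) (a e : R) : R :=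
  ∑ i ∈ range (n + 1), (p.coeff i : R) * a ^ i * e ^ (n - i)

/-- the form is a product of pairwise non proportional complex linear forms -/
def SF (n : ℕ) (p : ℤ[X]) : Prop := ∃ (c : ℂ) (S : Finset (ℂ × ℂ)), c ≠ 0 ∧ S.card = n ∧
  (∀ P ∈ S, ∀ Q ∈ S, P ≠ Q → P.1 * Q.2 ≠ P.2 * Q.1) ∧
  ∀ U V : ℂ, hev n p U V = c * ∏ P ∈ S, (P.1 * U + P.2 * V)

/-- `s` is the set of the `n` distinct roots of `p` -/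
def Roots (n : ℕ) (p : ℤ[X]) (s : Finset ℂ) : Prop := p.natDegree ≤ n ∧ p.coeff n ≠ 0 ∧
  s.card = n ∧ ∀ U V : ℂ, hev n p U V = p.coeff n * ∏ α ∈ s, (U - α * V)

/-- independence modulo every prime -/
def Indep (a e : ℤ⟦X⟧) : Prop := ∀ (p : ℕ) (r s : ℤ), p.Prime →
  (p : ℤ⟦X⟧) ∣ (r : ℤ⟦X⟧) * a + (s : ℤ⟦X⟧) * e → (p : ℤ) ∣ r ∧ (p : ℤ) ∣ s

/-! Part K: binary forms -/

structure S_K1 : Prop where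
  map : ∀ (R R' : Type) [CommRing R] [CommRing R'] (φ : R →+* R') (n : ℕ) (p : ℤ[X]) (a e : R),
    φ (hev n p a e) = hev n p (φ a) (φ e)
  chart : ∀ (R : Type) [CommRing R] (n : ℕ) (p : ℤ[X]) (x e : R), p.natDegree ≤ n →
    hev n p (x * e) e = e ^ n * (p.map (Int.castRingHom R)).eval x
  add : ∀ (R : Type) [CommRing R] (n : ℕ) (p q : ℤ[X]) (a e : R),
    hev n (p + q) a e = hev n p a e + hev n q a e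
  smul : ∀ (R : Type) [CommRing R] (n : ℕ) (c : ℤ) (p : ℤ[X]) (a e : R),
    hev n (C c * p) a e = c * hev n p a e
  mul : ∀ (R : Type) [CommRing R] (m n : ℕ) (p q : ℤ[X]) (a e : R), p.natDegree ≤ m →
    q.natDegree ≤ n → hev (m + n) (p * q) a e = hev m p a e * hev n q a e
  scale : ∀ (R : Type) [CommRing R] (n : ℕ) (p : ℤ[X]) (r a e : R),
    hev n p (r * a) (r * e) = r ^ n * hev n p a e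
  top : ∀ (R : Type) [CommRing R] (n : ℕ) (p : ℤ[X]) (a e : R),
    e ∣ hev n p a e - p.coeff n * a ^ n
  sub : ∀ (n : ℕ) (p : ℤ[X]) (v₁ w₁ v₂ w₂ : ℤ), ∃ p' : ℤ[X], p'.natDegree ≤ n ∧
    ∀ (R : Type) [CommRing R] (U V : R),
      hev n p' U V = hev n p (v₁ * U + w₁ * V) (v₂ * U + w₂ * V)

/-- a form that vanishes modulo `p` at an independent pair is zero modulo `p` -/
def S_K2 : Prop := ∀ (a e : ℤ⟦X⟧) (p n : ℕ) (G : ℤ[X]), Indep a e → p.Prime → G.natDegree ≤ n →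
  (p : ℤ⟦X⟧) ∣ hev n G a e → C (p : ℤ) ∣ G

structure S_K3 : Prop where
  init : ∀ (n : ℕ) (F : ℤ[X]), Squarefree (F.map (Int.castRingHom ℚ)) →
    F.natDegree = n ∨ F.natDegree + 1 = n → SF n F
  sub : ∀ (n : ℕ) (p p' : ℤ[X]) (r : ℂ) (v₁ w₁ v₂ w₂ : ℤ), SF n p → r ≠ 0 →
    v₁ * w₂ - w₁ * v₂ ≠ 0 →
    (∀ U V : ℂ, r * hev n p' U V = hev n p (v₁ * U + w₁ * V) (v₂ * U + w₂ * V)) → SF n p'
  shear : ∀ (n : ℕ) (p : ℤ[X]), 2 ≤ n → SF n p → ∃ t : ℤ, hev n p (1 : ℤ) t ≠ 0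
  roots : ∀ (n : ℕ) (p : ℤ[X]), SF n p → p.natDegree ≤ n → p.coeff n ≠ 0 → ∃ s, Roots n p s

structure S_K4 : Prop where
  bez : ∀ (n : ℕ) (p : ℤ[X]) (s : Finset ℂ), Roots n p s →
    ∃ (U V : ℤ[X]) (d : ℤ), d ≠ 0 ∧ U * p + V * derivative p = C d
  disc : ∀ (n : ℕ) (p : ℤ[X]) (s : Finset ℂ), 1 ≤ n → Roots n p s →
    1 ≤ |(p.coeff n : ℝ)| ^ (2 * (n - 1)) * ∏ α ∈ s, ∏ β ∈ s.erase α, ‖α - β‖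
  cnj : ∀ (n : ℕ) (p : ℤ[X]) (s : Finset ℂ), Roots n p s → ∀ α ∈ s, conj α ∈ s

/-! Part N: normalisation -/

def S_N1 : Prop := ∀ a e : ℤ⟦X⟧,
  (∀ r s : ℤ, (r : ℤ⟦X⟧) * a + (s : ℤ⟦X⟧) * e = 0 → r = 0 ∧ s = 0) →
  ∃ (a' e' : ℤ⟦X⟧) (v₁ w₁ v₂ w₂ : ℤ), v₁ * w₂ - w₁ * v₂ ≠ 0 ∧ a = v₁ * a' + w₁ * e' ∧
    e = v₂ * a' + w₂ * e' ∧ Indep a' e' ∧ PowerSeries.constantCoeff a' = 0

def S_N2 : Prop := ∀ (n : ℕ) (a e b : ℤ⟦X⟧) (F : ℤ[X]), Indep a e → F.natDegree ≤ n → F ≠ 0 →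
  b ^ 2 = hev n F a e → ∃ (c : ℤ) (G : ℤ[X]) (b' : ℤ⟦X⟧), c ≠ 0 ∧ F = C (c ^ 2) * G ∧
    b = c * b' ∧ b' ^ 2 = hev n G a e ∧ ∀ p : ℕ, p.Prime → ¬ (p : ℤ⟦X⟧) ∣ b'

def S_N3 : Prop := ∀ (h : ℕ) (a e b : ℤ⟦X⟧) (G : ℤ[X]), Indep a e → G.natDegree ≤ 2 * h →
  b ^ 2 = hev (2 * h) G a e → (∀ p : ℕ, p.Prime → ¬ (p : ℤ⟦X⟧) ∣ b) →
  ∃ (T P : ℤ[X]) (η : ℤ⟦X⟧) (u : ℤ), u ≠ 0 ∧ T.natDegree ≤ h ∧ P.natDegree ≤ 2 * h ∧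
    η ^ 2 + hev h T a e * η = hev (2 * h) P a e ∧ T ^ 2 + C 4 * P = C (u ^ 2) * G ∧
    2 * η + hev h T a e = u * b ∧
    ∀ p : ℕ, p.Prime → (p : ℤ⟦X⟧) ∣ 2 * η + hev h T a e →
      p = 2 ∧ T = 0 ∧ ¬ C (2 : ℤ) ∣ derivative P

/-- a normalised integral point on the model `η ^ 2 + T η = P` -/
structure Model (h : ℕ) (a e η : ℤ⟦X⟧) (T P : ℤ[X]) (s : Finset ℂ) : Prop where
  dT : T.natDegree ≤ h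
  dP : P.natDegree ≤ 2 * h
  eqn : η ^ 2 + hev h T a e * η = hev (2 * h) P a e
  cop : IsRelPrime a e
  ind : Indep a e
  a0 : PowerSeries.constantCoeff a = 0
  roots : Roots (2 * h) (T ^ 2 + C 4 * P) s
  prim : ∀ p : ℕ, p.Prime → (p : ℤ⟦X⟧) ∣ 2 * η + hev h T a e →
    p = 2 ∧ T = 0 ∧ ¬ C (2 : ℤ) ∣ derivative P

/-- the normalisation theorem -/
def S_N : Prop := ∀ (h : ℕ) (F : ℚ[X]) (x y : L), 1 ≤ h → Squarefree F →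
  F.natDegree + 1 = 2 * h ∨ F.natDegree = 2 * h → FrZ x → FrZ y →
  (∀ c : ℚ, x ≠ algebraMap ℚ L c) → y ^ 2 = aeval x F →
  ∃ (a e η : ℤ⟦X⟧) (T P : ℤ[X]) (s : Finset ℂ) (α β γ δ l : ℚ) (ε : L),
    Model h a e η T P s ∧ α * δ - β * γ ≠ 0 ∧ l ≠ 0 ∧ ε ≠ 0 ∧
    hev (2 * h) (T ^ 2 + C 4 * P) (C α * X + C β : ℚ[X]) (C γ * X + C δ) = C (l ^ 2) * F ∧
    io a = ε * ((α : L) * x + (β : L)) ∧ io e = ε * ((γ : L) * x + (δ : L)) ∧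
    io (2 * η + hev h T a e) = ε ^ h * (l : L) * y

/-! Part S: the extension theorem by hand -/

/-- an integral polar form -/
def pol {R : Type} [CommRing R] (h : ℕ) (P : ℤ[X]) (a₁ e₁ a₂ e₂ : R) : R :=
  ∑ i ∈ range (2 * h + 1), (P.coeff i : R) *
    (a₁ ^ ((i + 1) / 2) * e₁ ^ (h - (i + 1) / 2) * (a₂ ^ (i / 2) * e₂ ^ (h - i / 2)) +
      a₁ ^ (i / 2) * e₁ ^ (h - i / 2) * (a₂ ^ ((i + 1) / 2) * e₂ ^ (h - (i + 1) / 2)))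

/-- the denominator -/
def den {R : Type} [CommRing R] (h : ℕ) (T P : ℤ[X]) (a₁ e₁ η₁ a₂ e₂ η₂ : R) : R :=
  pol h P a₁ e₁ a₂ e₂ + (η₁ + hev h T a₁ e₁) * (η₂ + hev h T a₂ e₂) + η₁ * η₂

structure S_S0 : Prop where
  map : ∀ (R R' : Type) [CommRing R] [CommRing R'] (φ : R →+* R') (h : ℕ) (T P : ℤ[X])
    (a₁ e₁ η₁ a₂ e₂ η₂ : R), φ (den h T P a₁ e₁ η₁ a₂ e₂ η₂) =
      den h T P (φ a₁) (φ e₁) (φ η₁) (φ a₂) (φ e₂) (φ η₂)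
  diag : ∀ (R : Type) [CommRing R] (h : ℕ) (T P : ℤ[X]) (a e η : R),
    η ^ 2 + hev h T a e * η = hev (2 * h) P a e →
    den h T P a e η a e η = (2 * η + hev h T a e) ^ 2
  tau : ∃ τ : ℤ⟦X⟧ →+* ℤ⟦X⟧⟦X⟧, (∀ a, PowerSeries.constantCoeff (τ a) = a) ∧
    ∀ a, PowerSeries.map (PowerSeries.constantCoeff (R := ℤ)) (τ a) = a

def S_S1 : Prop := ∀ (R : Type) [CommRing R] (I : Ideal R) (h : ℕ) (T P : ℤ[X])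
  (a₁ e₁ η₁ a₂ e₂ η₂ : R), 1 ≤ h → T.natDegree ≤ h → P.natDegree ≤ 2 * h →
  (∀ r ∈ I, IsUnit (1 + r)) → a₁ - a₂ ∈ I → e₁ - e₂ ∈ I → η₁ - η₂ ∈ I →
  η₁ ^ 2 + hev h T a₁ e₁ * η₁ = hev (2 * h) P a₁ e₁ →
  η₂ ^ 2 + hev h T a₂ e₂ * η₂ = hev (2 * h) P a₂ e₂ → IsUnit e₂ →
  IsUnit (hev (2 * h) (derivative P) a₂ e₂ - hev h (derivative T) a₂ e₂ * η₂) →
  den h T P a₁ e₁ η₁ a₂ e₂ η₂ ∣ (a₁ * e₂ - a₂ * e₁) ^ 2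

def S_S2 : Prop := ∀ (A : Type) [CommRing A] [IsDomain A] [UniqueFactorizationMonoid A]
  (D N : A⟦X⟧), PowerSeries.constantCoeff D ≠ 0 →
  (∀ π : A, Prime π → ∃ s : A, ¬ π ∣ s ∧
    PowerSeries.map (algebraMap A (Localization.Away s)) D ∣
      PowerSeries.map (algebraMap A (Localization.Away s)) N) → D ∣ N

def S_S3 : Prop := ∀ (h : ℕ) (a e η : ℤ⟦X⟧) (T P : ℤ[X]) (s : Finset ℂ), 1 ≤ h →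
  Model h a e η T P s →
  den h T P a e η 0 (PowerSeries.C (PowerSeries.constantCoeff e))
      (PowerSeries.C (PowerSeries.constantCoeff η)) ∣
    (a * PowerSeries.C (PowerSeries.constantCoeff e)) ^ 2

/-- the leading term of `W ^ h / b ^ 2` is large -/
def Lead (h : ℕ) (a e b : ℤ⟦X⟧) : Prop := ∃ (μ v : ℕ) (W B : ℤ⟦X⟧),
  PowerSeries.derivative ℤ a * e - a * PowerSeries.derivative ℤ e = PowerSeries.X ^ μ * W ∧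
  b ^ 2 = PowerSeries.X ^ v * B ∧ PowerSeries.constantCoeff B ≠ 0 ∧
  (μ + 1 : ℤ) ^ h * |PowerSeries.constantCoeff B| ≤ 4 * |PowerSeries.constantCoeff W| ^ h

def S_S4 : Prop := ∀ (h : ℕ) (a e η : ℤ⟦X⟧) (T P : ℤ[X]) (s : Finset ℂ), 2 ≤ h →
  Model h a e η T P s →
  den h T P a e η 0 (PowerSeries.C (PowerSeries.constantCoeff e))
      (PowerSeries.C (PowerSeries.constantCoeff η)) ∣
    (a * PowerSeries.C (PowerSeries.constantCoeff e)) ^ 2 →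
  Lead h a e (2 * η + hev h T a e)

/-! Part A: analysis -/

/-- the Wronskian -/
def wr (a e : ℂ → ℂ) (q : ℂ) : ℂ := deriv a q * e q - a q * deriv e q

def S_B1 : Prop := ∀ (h : ℕ) (g : ℂ) (s : Finset ℂ) (a e b : ℂ → ℂ) (R : ℝ), R < 1 →
  s.card = 2 * h → DifferentiableOn ℂ a (ball 0 1) → DifferentiableOn ℂ e (ball 0 1) →
  DifferentiableOn ℂ b (ball 0 1) → (∃ q ∈ ball (0 : ℂ) 1, e q ≠ 0) →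
  (∀ q ∈ ball (0 : ℂ) 1, b q ^ 2 = g * ∏ α ∈ s, (a q - α * e q)) →
  ∃ (a' e' b' : ℂ → ℂ) (u : ℂ[X]), u ≠ 0 ∧ DifferentiableOn ℂ a' (ball 0 1) ∧
    DifferentiableOn ℂ e' (ball 0 1) ∧ DifferentiableOn ℂ b' (ball 0 1) ∧
    (∀ q ∈ ball (0 : ℂ) 1, a q = u.eval q * a' q ∧ e q = u.eval q * e' q ∧
      b q = u.eval q ^ h * b' q ∧ b' q ^ 2 = g * ∏ α ∈ s, (a' q - α * e' q)) ∧
    ∀ q ∈ closedBall (0 : ℂ) R, a' q ≠ 0 ∨ e' q ≠ 0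

def S_B2 : Prop := ∀ (h : ℕ) (g : ℂ) (s : Finset ℂ) (a e b : ℂ → ℂ) (U : Set ℂ), 3 ≤ h →
  g ≠ 0 → IsOpen U → DifferentiableOn ℂ a U → DifferentiableOn ℂ e U → DifferentiableOn ℂ b U →
  (∀ c ∈ U, ∃ᶠ q in nhds c, b q ≠ 0) → (∀ q ∈ U, a q ≠ 0 ∨ e q ≠ 0) →
  (∀ q ∈ U, b q ^ 2 = g * ∏ α ∈ s, (a q - α * e q)) →
  DifferentiableOn ℂ (fun q => wr a e q ^ h / b q ^ 2) U

def S_B3 : Prop := ∀ h : ℕ, 1 ≤ h → ∃ c : ℝ, 0 < c ∧ ∀ (m : ℕ) (ψ Φ : ℂ → ℂ) (R : ℝ),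
  1 - 1 / (4 * ((m : ℝ) + 2)) ≤ R → DifferentiableOn ℂ ψ (ball 0 R) → ContinuousAt Φ 0 →
  (∀ᶠ q in nhdsWithin (0 : ℂ) {0}ᶜ, ψ q = q ^ m * Φ q) → Φ 0 ≠ 0 →
  ∃ (z : ℂ) (ρ : ℝ), 0 < ρ ∧ ball z ρ ⊆ ball 0 R ∧ (∀ q ∈ ball z ρ, ψ q ≠ 0) ∧
    c * ‖Φ 0‖ ≤ ‖ψ z‖ * (ρ * (m + 2)) ^ h

def S_B4 : Prop := ∀ (a e : ℂ → ℂ) (z α β γ : ℂ) (ρ : ℝ) (k : ℂ → ℝ), 0 < ρ →
  DifferentiableOn ℂ a (ball z ρ) → DifferentiableOn ℂ e (ball z ρ) → α ≠ β → α ≠ γ → β ≠ γ →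
  (∀ q ∈ ball z ρ, a q - α * e q ≠ 0 ∧ a q - β * e q ≠ 0 ∧ a q - γ * e q ≠ 0) →
  wr a e z ≠ 0 → (∀ t, k t = √(ρ * ‖wr a e z‖) / ‖a z - t * e z‖) →
  k α * k β * ‖α - β‖ ≤ k α * k γ * ‖α - γ‖ + k β * k γ * ‖β - γ‖ ∧
  k α * k γ * ‖α - γ‖ * (k β * k γ * ‖β - γ‖) ≤
    (500 * (2 + Real.log (4 * (k β * k γ * ‖β - γ‖ / (k α * k β * ‖α - β‖)) + 3))) ^ 2

def S_B5 : Prop := ∀ (n : ℕ) (c : ℝ), 3 ≤ n → 0 < c → ∃ D₀ : ℝ, ∀ (s : Finset ℂ)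
  (D : ℂ → ℂ → ℝ), s.card = n → (∀ α β, 0 ≤ D α β) → (∀ α β, D α β = D β α) →
  (∀ α, D α α = 0) → c ≤ ∏ α ∈ s, ∏ β ∈ s.erase α, D α β →
  (∀ α ∈ s, ∀ β ∈ s, ∀ γ ∈ s, α ≠ β → α ≠ γ → β ≠ γ → D α β ≤ D α γ + D β γ ∧
    D α γ * D β γ ≤ (500 * (2 + Real.log (4 * (D β γ / D α β) + 3))) ^ 2) →
  ∀ α ∈ s, ∀ β ∈ s, D α β ≤ D₀

/-- balanced scaling of the linear factors -/
def Bal (s : Finset ℂ) (g c D : ℝ) : Prop := ∃ k : ℂ → ℝ, (∀ α ∈ s, 0 < k α) ∧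
  c * g ≤ ∏ α ∈ s, k α ∧ ∀ α ∈ s, ∀ β ∈ s, k α * k β * ‖α - β‖ ≤ D

/-- the analytic theorem -/
def S_B : Prop := ∀ h : ℕ, 3 ≤ h → ∃ c D : ℝ, 0 < c ∧ ∀ (g : ℂ) (s : Finset ℂ)
  (a e b nn dd : ℂ → ℂ) (μ j k : ℕ), g ≠ 0 → s.card = 2 * h →
  1 ≤ ‖g‖ ^ (2 * (2 * h - 1)) * ∏ α ∈ s, ∏ β ∈ s.erase α, ‖α - β‖ →
  DifferentiableOn ℂ a (ball 0 1) → DifferentiableOn ℂ e (ball 0 1) →
  DifferentiableOn ℂ b (ball 0 1) → ContinuousAt nn 0 → ContinuousAt dd 0 →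
  (∀ q ∈ ball (0 : ℂ) 1, b q ^ 2 = g * ∏ α ∈ s, (a q - α * e q)) →
  (∀ q ∈ ball (0 : ℂ) 1, wr a e q ^ h = q ^ j * nn q) →
  (∀ q ∈ ball (0 : ℂ) 1, b q ^ 2 = q ^ k * dd q) → dd 0 ≠ 0 → j ≤ k + h * μ →
  (μ + 1 : ℝ) ^ h * ‖dd 0‖ ≤ 4 * ‖nn 0‖ → Bal s ‖g‖ c D

/-- the formal form of the analytic theorem -/
def S_TB : Prop := ∀ h : ℕ, 3 ≤ h → ∃ c D : ℝ, 0 < c ∧ ∀ (G : ℤ[X]) (s : Finset ℂ)
  (a e b : ℤ⟦X⟧) (ε x y z : L), Roots (2 * h) G s → b ^ 2 = hev (2 * h) G a e → Lead h a e b →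
  ε ≠ 0 → FrC x → FrC y → FrC z → io a = ε * x → io e = ε * z → io b = ε ^ h * y →
  Bal s |(G.coeff (2 * h) : ℝ)| c D

/-! Part R: reduction -/

def S_R1 : Prop := ∀ (A B C Δ q : ℝ) (Q : ℤ → ℤ → ℝ), 0 < q → A * C - B ^ 2 ≤ Δ →
  (∀ x z, Q x z = A * x ^ 2 - 2 * B * x * z + C * z ^ 2) →
  (∀ v₁ w₁ v₂ w₂ : ℤ, v₁ * w₂ - w₁ * v₂ = 1 → q ≤ Q v₁ v₂) →
  ∃ v₁ w₁ v₂ w₂ : ℤ, v₁ * w₂ - w₁ * v₂ = 1 ∧ Q v₁ v₂ ≤ 3 * Δ / q ∧ Q w₁ w₂ ≤ 3 * Δ / q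

def S_R : Prop := ∀ (n : ℕ) (c D : ℝ), 3 ≤ n → 0 < c → ∃ B : ℕ, ∀ (G : ℤ[X]) (s : Finset ℂ),
  Roots n G s → Bal s |(G.coeff n : ℝ)| c D →
  ∃ (v₁ w₁ v₂ w₂ : ℤ) (G' : ℤ[X]), v₁ * w₂ - w₁ * v₂ = 1 ∧ (∀ i, |G'.coeff i| ≤ B) ∧
    ∀ U V : ℚ[X], hev n G' U V = hev n G (v₁ * U + w₁ * V) (v₂ * U + w₂ * V)

/-- the core theorem -/
def S_Core : Prop := ∀ h : ℕ, 3 ≤ h → ∃ B : ℕ, ∀ (F : ℚ[X]) (x y : L), Squarefree F →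
  F.natDegree + 1 = 2 * h ∨ F.natDegree = 2 * h → FrZ x → FrZ y → FrC x → FrC y →
  (∀ c : ℚ, x ≠ algebraMap ℚ L c) → y ^ 2 = aeval x F →
  ∃ (G : ℤ[X]) (α β γ δ l : ℚ), α * δ - β * γ ≠ 0 ∧ l ≠ 0 ∧ (∀ i, |G.coeff i| ≤ B) ∧
    hev (2 * h) G (C α * X + C β : ℚ[X]) (C γ * X + C δ) = C (l ^ 2) * F

end

end Pool.Agent.MP_b2c033_nt.H95
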